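import Pool.Agent.Helper89.Stz.CL2
import Pool.Agent.Helper3.Stz.Block
import Pool.Agent.Helper66.Stz.Arith

set_option autoImplicit false

namespace Stz

open Finset

theorem mu_mono (A : ℕ) {s t : Finset (ZMod A)} (h : s ⊆ t) : mu A s ≤ mu A t := by
  unfold mu
  exact div_le_div_of_nonneg_right (by exact_mod_cast card_le_card h) (Nat.cast_nonneg _)

/-- **The critical level theorem.** -/
theorem CL_proof : ∃ δ : ℝ, 0 < δ ∧ ∃ N₀ : ℕ, ∀ (N b A : ℕ) [NeZero A], N₀ ≤ N →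
    (b : ℝ) ≤ (N : ℝ) ^ (5 / 4 : ℝ) → Good ((N + 1) ^ 60) A → ∀ a : ℕ → ℕ → ℂ,
    nsq (Icc (b + 1) (b + N)) N a ≤ 1 → ∀ (T0 : Finset (ZMod A)) (lam : ℝ),
    (N : ℝ) ^ (1 / 2 - δ) ≤ lam →
    (∀ z ∈ T0, ∃ y, lam ≤ ‖F A (Icc (b + 1) (b + N)) N a z y‖) →
    mu A T0 ≤ (N : ℝ) ^ (-δ) := by
  obtain ⟨Z1, hZ1⟩ := supply 4999 (by norm_num)
  obtain ⟨Z2, hZ2⟩ := supply 4997 (by norm_num)
  obtain ⟨Z3, hZ3⟩ := supply 9966 (by norm_num)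
  obtain ⟨Cd, hCd, hdiv⟩ := divisor_bound (1 / 60000) (by norm_num)
  obtain ⟨Cr, hCr, hr2⟩ := r2_bound (1 / 120000) (by norm_num)
  set Z : ℝ := max (max (max Z1 Z2) (max Z3 Cd)) (max Cr (10 ^ 12)) with hZ
  have hZZ1 : Z1 ≤ Z := (le_max_left _ _).trans ((le_max_left _ _).trans (le_max_left _ _))
  have hZZ2 : Z2 ≤ Z := (le_max_right _ _).trans ((le_max_left _ _).trans (le_max_left _ _))
  have hZZ3 : Z3 ≤ Z := (le_max_left _ _).trans ((le_max_right _ _).trans (le_max_left _ _))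
  have hZCd : Cd ≤ Z := (le_max_right _ _).trans ((le_max_right _ _).trans (le_max_left _ _))
  have hZCr : Cr ≤ Z := (le_max_left _ _).trans (le_max_right _ _)
  have hZ12 : (10 : ℝ) ^ 12 ≤ Z := (le_max_right _ _).trans (le_max_right _ _)
  refine ⟨1 / 160000, by norm_num, ⌈Z ^ 20000⌉₊, ?_⟩
  intro N b A _ hN hb hA a ha T0 lam hlam hT0
  by_contra hcon
  push Not at hcon
  have hNr : Z ^ 20000 ≤ (N : ℝ) := Nat.ceil_le.1 hN
  have hZpos : 0 < Z := lt_of_lt_of_le (by norm_num) hZ12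
  have hN0 : (0 : ℝ) ≤ N := Nat.cast_nonneg _
  set ζ : ℝ := (N : ℝ) ^ (1 / 20000 : ℝ) with hζdef
  have hζZ : Z ≤ ζ := by
    have h2 : Z = (Z ^ (20000 : ℕ)) ^ (1 / 20000 : ℝ) := by
      rw [← Real.rpow_natCast, ← Real.rpow_mul hZpos.le]
      norm_num
    rw [h2]
    exact Real.rpow_le_rpow (by positivity) hNr (by norm_num)
  have hζ : (10 : ℝ) ^ 12 ≤ ζ := hZ12.trans hζZ
  have h1 : (1 : ℝ) ≤ ζ := by linarith
  have h0 : (0 : ℝ) < ζ := by linarith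
  have hNζ' : (N : ℝ) = ζ ^ (20000 : ℝ) := by
    rw [hζdef, ← Real.rpow_mul hN0]; norm_num
  have hrz : ∀ e : ℕ, ζ ^ (e : ℝ) = ζ ^ (e : ℤ) := by
    intro e; rw [Real.rpow_natCast, zpow_natCast]
  have hNζ : (N : ℝ) = ζ ^ (20000 : ℤ) := by
    rw [hNζ']
    exact hrz 20000
  have hb' : (b : ℝ) ≤ ζ ^ (25000 : ℤ) := by
    refine hb.trans (le_of_eq ?_)
    rw [hNζ', ← Real.rpow_mul h0.le]
    rw [show (20000 : ℝ) * (5 / 4) = ((25000 : ℕ) : ℝ) by norm_num]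
    exact hrz 25000
  have hlam' : ζ ^ (10000 - 1 / 8 : ℝ) ≤ lam := by
    refine le_trans (le_of_eq ?_) hlam
    rw [hNζ', ← Real.rpow_mul h0.le]; norm_num
  have hmu' : ζ ^ (-1 / 8 : ℝ) ≤ mu A T0 := by
    refine le_trans (le_of_eq ?_) hcon.le
    rw [hNζ', ← Real.rpow_mul h0.le]; norm_num
  have hhalf : (4 : ℝ) ≤ ζ ^ (1 / 2 : ℝ) := by
    have h2 : (4 : ℝ) = (16 : ℝ) ^ (1 / 2 : ℝ) := by
      rw [show (16 : ℝ) = 4 ^ (2 : ℕ) by norm_num, ← Real.rpow_natCast, ← Real.rpow_mul (by norm_num)]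
      norm_num
    rw [h2]
    exact Real.rpow_le_rpow (by norm_num) (by linarith) (by norm_num)
  set lam1 : ℝ := lam / 2 with hlam1
  have hlampos : 0 < lam := (Real.rpow_pos_of_pos h0 _).trans_le hlam'
  have hlam1pos : 0 < lam1 := by rw [hlam1]; positivity
  have hE0 : ζ ^ (19999 : ℤ) ≤ (lam1 * mu A T0) ^ 2 := by
    have h2 : ζ ^ (10000 - 1 / 4 : ℝ) / 2 ≤ lam1 * mu A T0 := by
      calc ζ ^ (10000 - 1 / 4 : ℝ) / 2 = (ζ ^ (10000 - 1 / 8 : ℝ) / 2) * ζ ^ (-1 / 8 : ℝ) := by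
            rw [div_mul_eq_mul_div, ← Real.rpow_add h0]; norm_num
        _ ≤ lam1 * mu A T0 := by
            rw [hlam1]
            have := Real.rpow_pos_of_pos h0 (-1 / 8 : ℝ)
            have := Real.rpow_pos_of_pos h0 (10000 - 1 / 8 : ℝ)
            gcongr
    have h3 : ζ ^ (19999 : ℤ) ≤ (ζ ^ (10000 - 1 / 4 : ℝ) / 2) ^ 2 := by
      rw [div_pow, ← Real.rpow_natCast (ζ ^ (10000 - 1 / 4 : ℝ)), ← Real.rpow_mul h0.le]
      rw [show (10000 - 1 / 4 : ℝ) * ((2 : ℕ) : ℝ) = ((19999 : ℕ) : ℝ) + 1 / 2 by norm_num]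
      rw [Real.rpow_add h0, hrz 19999, le_div_iff₀ (by norm_num)]
      have h4 := w_pos h1 (19999 : ℤ)
      calc ζ ^ (19999 : ℤ) * 2 ^ 2 = ζ ^ (19999 : ℤ) * 4 := by norm_num
        _ ≤ ζ ^ (19999 : ℤ) * ζ ^ (1 / 2 : ℝ) := by gcongr
        _ = _ := by norm_num
    refine h3.trans ?_
    have := Real.rpow_pos_of_pos h0 (10000 - 1 / 4 : ℝ)
    gcongr
  have hmu1 := mu_le_one A T0
  have hmu0 := mu_nonneg A T0
  have hlamsq : ζ ^ (19999 : ℤ) ≤ lam1 ^ 2 := by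
    refine hE0.trans ?_
    have : lam1 * mu A T0 ≤ lam1 := by nlinarith
    gcongr
  have hlam9999 : ζ ^ (9999 : ℤ) ≤ lam1 := by
    have h2 : (ζ ^ (9999 : ℤ)) ^ 2 ≤ lam1 ^ 2 := by
      rw [w_pow]
      exact (w_le h1 (by norm_num)).trans hlamsq
    exact (pow_le_pow_iff_left₀ (w_pos h1 _).le hlam1pos.le (by norm_num)).1 h2
  -- blocks
  set L : ℕ := ⌈120 * ζ ^ (55001 : ℤ)⌉₊ with hL
  have hL1 : 120 * ζ ^ (55001 : ℤ) ≤ L := Nat.le_ceil _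
  have hL2 : (L : ℝ) ≤ ζ ^ (55002 : ℤ) := by
    have h2 : (L : ℝ) < 120 * ζ ^ (55001 : ℤ) + 1 :=
      Nat.ceil_lt_add_one (by have := w_pos h1 55001; positivity)
    have h3 : (1 : ℝ) ≤ ζ ^ (55001 : ℤ) := one_le_zpow₀ h1 (by norm_num)
    have h4 : 121 * ζ ^ (55001 : ℤ) ≤ ζ ^ (55002 : ℤ) := cw_le h1 (by linarith) (by norm_num)
    linarith
  have hLpos : (0 : ℝ) < L := lt_of_lt_of_le (by have := w_pos h1 55001; positivity) hL1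
  have hLnat : 1 ≤ L := by exact_mod_cast hLpos
  have hN1 : 1 ≤ N := by
    have : (1 : ℝ) ≤ N := by rw [hNζ]; exact one_le_zpow₀ h1 (by norm_num)
    exact_mod_cast this
  have hLA : L ∣ A := by
    refine hA L hLnat ?_
    have h2 : (L : ℝ) ≤ (N : ℝ) ^ 3 := by
      calc (L : ℝ) ≤ ζ ^ (55002 : ℤ) := hL2
        _ ≤ ζ ^ (60000 : ℤ) := w_le h1 (by norm_num)
        _ = (N : ℝ) ^ 3 := by rw [hNζ, w_pow]; norm_num
    have h3 : L ≤ N ^ 3 := by exact_mod_cast h2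
    calc L ≤ N ^ 3 := h3
      _ ≤ (N + 1) ^ 3 := Nat.pow_le_pow_left (by omega) 3
      _ ≤ (N + 1) ^ 60 := Nat.pow_le_pow_right (by omega) (by norm_num)
  obtain ⟨T, x, hT0T, hT, hV⟩ := block A N b L hN1 hLnat hLA a ha lam1 hlam1pos (by
      have h2 : (b : ℝ) + N ≤ 2 * ζ ^ (25000 : ℤ) := by
        have : (N : ℝ) ≤ ζ ^ (25000 : ℤ) := by rw [hNζ]; exact w_le h1 (by norm_num)
        linarith
      calc 60 * ((b : ℝ) + N) * (N : ℝ) ^ 2 ≤ 60 * (2 * ζ ^ (25000 : ℤ)) * (N : ℝ) ^ 2 := by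
            gcongr
        _ = 120 * (ζ ^ (25000 : ℤ) * (ζ ^ (20000 : ℤ)) ^ 2) := by rw [hNζ]; ring
        _ = 120 * ζ ^ (65000 : ℤ) := by rw [w_pow, w_mul h1]; norm_num
        _ = 120 * (ζ ^ (9999 : ℤ) * ζ ^ (55001 : ℤ)) := by rw [w_mul h1]; norm_num
        _ = ζ ^ (9999 : ℤ) * (120 * ζ ^ (55001 : ℤ)) := by ring
        _ ≤ lam1 * L := by
            have := w_pos h1 9999
            have := w_pos h1 55001
            gcongr) T0 (by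
      intro z hz
      obtain ⟨y, hy⟩ := hT0 z hz
      exact ⟨y, by rw [hlam1]; linarith⟩)
  have hE : ζ ^ (19999 : ℤ) ≤ (lam1 * mu A T) ^ 2 := by
    refine hE0.trans ?_
    have := mu_mono A hT0T
    gcongr
  have hV1 : (2 * L : ℝ) ≤ ζ ^ (56000 : ℤ) := by
    calc (2 * L : ℝ) ≤ 2 * ζ ^ (55002 : ℤ) := by linarith
      _ ≤ _ := cw_le h1 (by linarith) (by norm_num)
  obtain ⟨Y1, Q1, a1, a2, a3, a4⟩ := hZ1 ζ (hZZ1.trans hζZ)
  obtain ⟨Y2, Q2, b1, b2, b3, b4⟩ := hZ2 ζ (hZZ2.trans hζZ)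
  obtain ⟨Y3, Q3, c1, c2, c3, c4⟩ := hZ3 ζ (hZZ3.trans hζZ)
  norm_num at a1 a2 a4 b1 b2 b4 c1 c2 c4
  obtain ⟨h, hh1, hh2, hh3⟩ := CL_part1 ζ hζ N b A hNζ hb' hA a ha x T lam1 hlam1pos hT hE
    (2 * L) hV hV1 (by positivity) Y1 Y2 Y3 Q1 Q2 Q3 a1 a2 a3 a4 b1 b2 b3 b4 c1 c2 c3 c4
  refine CL_part2 ζ hζ N b A hNζ hb' hA a ha x T lam1 hlam1pos hT hlamsq (2 * L) hV hV1
    Y3 Q3 c1 c2 c3 c4 h hh1 hh2 hh3 ?_ ?_
  · intro n hn hnle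
    have h2 := hdiv n (Nat.one_le_iff_ne_zero.2 hn)
    have h3 : (n : ℝ) ^ (1 / 60000 : ℝ) ≤ ζ := by
      calc (n : ℝ) ^ (1 / 60000 : ℝ) ≤ (ζ ^ (60000 : ℤ)) ^ (1 / 60000 : ℝ) :=
            Real.rpow_le_rpow (Nat.cast_nonneg _) hnle (by norm_num)
        _ = ζ := by
            rw [show ζ ^ (60000 : ℤ) = ζ ^ (60000 : ℝ) by exact_mod_cast (hrz 60000).symm,
              ← Real.rpow_mul h0.le]; norm_num
    calc (n.divisors.card : ℝ) ≤ Cd * (n : ℝ) ^ (1 / 60000 : ℝ) := h2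
      _ ≤ ζ * ζ := by
          have := hZCd.trans hζZ
          gcongr
      _ = ζ ^ (2 : ℤ) := by rw [zpow_ofNat]; ring
  · intro R hR1 hRle S hS
    have hR0 : (0 : ℝ) ≤ (R : ℝ) := by exact_mod_cast (by linarith : (0 : ℤ) ≤ R)
    have h2 := hr2 R hR1 S hS
    have h3 : (R : ℝ) ^ (1 / 120000 : ℝ) ≤ ζ := by
      calc (R : ℝ) ^ (1 / 120000 : ℝ) ≤ (ζ ^ (120000 : ℤ)) ^ (1 / 120000 : ℝ) :=
            Real.rpow_le_rpow hR0 hRle (by norm_num)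
        _ = ζ := by
            rw [show ζ ^ (120000 : ℤ) = ζ ^ (120000 : ℝ) by exact_mod_cast (hrz 120000).symm,
              ← Real.rpow_mul h0.le]; norm_num
    calc (S.card : ℝ) ≤ Cr * (R : ℝ) ^ (1 / 120000 : ℝ) := h2
      _ ≤ ζ * ζ := by
          have := hZCr.trans hζZ
          gcongr
      _ = ζ ^ (2 : ℤ) := by rw [zpow_ofNat]; ring

end Stz
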