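import Pool.Agent.Helper89.Stz.Defs
import Pool.Agent.Helper65.Stz.Primes

set_option autoImplicit false

namespace Stz

open Finset

section Powers

variable {ζ : ℝ}

theorem w_pos (h : 1 ≤ ζ) (a : ℤ) : 0 < ζ ^ a := zpow_pos (by linarith) a

theorem w_mul (h : 1 ≤ ζ) (a b : ℤ) : ζ ^ a * ζ ^ b = ζ ^ (a + b) :=
  (zpow_add₀ (by linarith) a b).symm

theorem w_le (h : 1 ≤ ζ) {a b : ℤ} (hab : a ≤ b) : ζ ^ a ≤ ζ ^ b := zpow_le_zpow_right₀ h hab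

theorem cw_le (h : 1 ≤ ζ) {c : ℝ} (hc : c ≤ ζ) {a b : ℤ} (hab : a + 1 ≤ b) :
    c * ζ ^ a ≤ ζ ^ b := by
  calc c * ζ ^ a ≤ ζ * ζ ^ a := by
        exact mul_le_mul_of_nonneg_right hc (w_pos h a).le
    _ = ζ ^ (a + 1) := by
        rw [zpow_add₀ (by linarith : ζ ≠ 0), zpow_one]; ring
    _ ≤ ζ ^ b := w_le h hab

theorem w_pow (a : ℤ) (n : ℕ) : (ζ ^ a) ^ n = ζ ^ (a * n) := by
  rw [← zpow_natCast, ← zpow_mul]

theorem w_inv (a : ℤ) : (ζ ^ a)⁻¹ = ζ ^ (-a) := (zpow_neg ζ a).symm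

theorem w_div (h : 1 ≤ ζ) (a b : ℤ) : ζ ^ a / ζ ^ b = ζ ^ (a - b) :=
  (zpow_sub₀ (by linarith) a b).symm

end Powers

/-- number of large primes dividing a nonzero integer -/
theorem card_primes (Q : Finset ℕ) (Y : ℕ) (hQ : ∀ q ∈ Q, q.Prime ∧ Y ≤ q) (k : ℤ) (hk : k ≠ 0) :
    (Y : ℝ) ^ (Q.filter fun q : ℕ => (q : ℤ) ∣ k).card ≤ |(k : ℝ)| := by
  set S := Q.filter fun q : ℕ => (q : ℤ) ∣ k with hS
  have h1 : (∏ q ∈ S, q) ∣ k.natAbs := by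
    apply Finset.prod_primes_dvd
    · intro q hq
      exact ((hQ q (mem_filter.1 hq).1).1).prime
    · intro q hq
      exact Int.natCast_dvd.1 (mem_filter.1 hq).2
  have h2 : Y ^ S.card ≤ ∏ q ∈ S, q := by
    apply Finset.pow_card_le_prod
    intro q hq
    exact (hQ q (mem_filter.1 hq).1).2
  have h3 : Y ^ S.card ≤ k.natAbs :=
    h2.trans (Nat.le_of_dvd (Int.natAbs_pos.2 hk) h1)
  have h4 : ((k.natAbs : ℕ) : ℝ) = |(k : ℝ)| := by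
    rw [Nat.cast_natAbs]; simp
  rw [← h4]
  exact_mod_cast h3

/-- `cardinality < m` when `|k| < Y ^ m` -/
theorem card_primes_lt (Q : Finset ℕ) (Y : ℕ) (hY : 1 ≤ Y) (hQ : ∀ q ∈ Q, q.Prime ∧ Y ≤ q)
    (k : ℤ) (hk : k ≠ 0) (m : ℕ) (hkm : |(k : ℝ)| < (Y : ℝ) ^ m) :
    (Q.filter fun q : ℕ => (q : ℤ) ∣ k).card < m := by
  by_contra hcon
  have h1 := card_primes Q Y hQ k hk
  have h2 : (Y : ℝ) ^ m ≤ (Y : ℝ) ^ (Q.filter fun q : ℕ => (q : ℤ) ∣ k).card :=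
    pow_le_pow_right₀ (by exact_mod_cast hY) (not_lt.1 hcon)
  linarith

/-- prime supply in powers of `ζ` -/
theorem supply (e : ℕ) (he : 1 ≤ e) : ∃ Z : ℝ, ∀ ζ : ℝ, Z ≤ ζ → ∃ (Y' : ℕ) (Q : Finset ℕ),
    ζ ^ (e - 1 : ℤ) ≤ Y' ∧ (2 * Y' : ℝ) ≤ ζ ^ (e : ℤ) ∧
    (∀ q ∈ Q, q.Prime ∧ Y' ≤ q ∧ q ≤ 2 * Y') ∧ ζ ^ (e - 1 : ℤ) ≤ Q.card := by
  obtain ⟨c, hc, Y₀, h⟩ := prime_supply
  -- eventually `(e log ζ)^2 ≤ c ζ`
  have hlim : ∀ᶠ ζ : ℝ in Filter.atTop, (e : ℝ) ^ 2 * (Real.log ζ) ^ 2 ≤ c * ζ := by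
    have h1 : (fun x : ℝ => (Real.log x) ^ 2) =o[Filter.atTop] (fun x : ℝ => x) := by
      have := isLittleO_log_rpow_atTop (show (0 : ℝ) < 1 / 2 by norm_num)
      have h2 := this.pow (show 0 < 2 by norm_num)
      refine h2.congr' (Filter.Eventually.of_forall fun x => rfl) ?_
      filter_upwards [Filter.eventually_ge_atTop (0 : ℝ)] with x hx
      rw [← Real.rpow_natCast, ← Real.rpow_mul hx]
      norm_num
    have h3 := h1.bound (show (0 : ℝ) < c / e ^ 2 by positivity)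
    filter_upwards [h3, Filter.eventually_ge_atTop (0 : ℝ)] with x hx hx0
    rw [Real.norm_of_nonneg (by positivity), Real.norm_of_nonneg hx0] at hx
    have he' : (0 : ℝ) < (e : ℝ) ^ 2 := by positivity
    calc (e : ℝ) ^ 2 * (Real.log x) ^ 2 ≤ (e : ℝ) ^ 2 * (c / e ^ 2 * x) := by gcongr
      _ = c * x := by field_simp
  obtain ⟨Z1, hZ1⟩ := Filter.eventually_atTop.1 hlim
  refine ⟨max (max Z1 Y₀) 3, fun ζ hζ => ?_⟩
  have hζ1 : Z1 ≤ ζ := (le_max_left _ _).trans ((le_max_left _ _).trans hζ)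
  have hζ2 : Y₀ ≤ ζ := (le_max_right _ _).trans ((le_max_left _ _).trans hζ)
  have hζ3 : (3 : ℝ) ≤ ζ := (le_max_right _ _).trans hζ
  have h1ζ : (1 : ℝ) ≤ ζ := by linarith
  have hbig : ζ ≤ ζ ^ (e : ℤ) := by
    calc ζ = ζ ^ (1 : ℤ) := (zpow_one ζ).symm
      _ ≤ _ := w_le h1ζ (by exact_mod_cast he)
  obtain ⟨Y', Q, h2, h3, h4, h5⟩ := h (ζ ^ (e : ℤ)) (hζ2.trans hbig)
  have hlog : Real.log (ζ ^ (e : ℤ)) = e * Real.log ζ := by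
    rw [zpow_natCast, Real.log_pow]
  have hlogpos : 0 < Real.log ζ := Real.log_pos (by linarith)
  have hkey : ζ ^ (e - 1 : ℤ) ≤ c * ζ ^ (e : ℤ) / Real.log (ζ ^ (e : ℤ)) ^ 2 := by
    rw [hlog, le_div_iff₀ (by positivity)]
    have h6 : ζ ^ (e : ℤ) = ζ ^ (e - 1 : ℤ) * ζ := by
      rw [← zpow_add_one₀ (by linarith : ζ ≠ 0)]; congr 1; ring
    rw [h6, mul_pow]
    have := hZ1 ζ hζ1
    nlinarith [w_pos h1ζ (e - 1 : ℤ)]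
  exact ⟨Y', Q, hkey.trans h2, h3, h4, hkey.trans h5⟩

end Stz
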