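import Pool.Agent.Helper89.Stz.CL
import Pool.Agent.Helper65.Stz.Crit
import Pool.Agent.Helper66.Stz.L4
import Pool.Agent.Helper62.Stz.Levels
import Pool.Agent.Helper81.Stz.Final
import Pool.Agent.Helper34.Stz.Top

set_option autoImplicit false

namespace Stz

open Finset

/-- assembly of the final estimate from the last two open parts -/
theorem finMain_asm
    (hmid : ∀ ε : ℝ, 0 < ε → ∃ C : ℝ, 0 < C ∧ ∀ (N b A : ℕ) [NeZero A], 1 ≤ N →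
      (b : ℝ) ≤ (N : ℝ) ^ 2 → Good ((N + 1) ^ 60) A → ∀ a : ℕ → ℕ → ℂ,
      nsq (Icc (b + 1) (b + N)) N a ≤ 1 → ∀ lam : ℝ, (N : ℝ) ^ (1 / 2 + ε) ≤ lam →
      ((lev A (Icc (b + 1) (b + N)) N a lam).card : ℝ) ≤
        C * (N : ℝ) ^ ε * lam ^ (-3 : ℝ) * A ^ 2)
    (htop : ∃ θ : ℝ, 0 < θ ∧ θ < 1 / 2 ∧ ∃ δ : ℝ, 0 < δ ∧ ∃ C : ℝ, 0 < C ∧
      ∀ (N N0 b A : ℕ) [NeZero A], 1 ≤ N0 → N0 ≤ N → N0 ≤ b + 1 → Good ((N + b + 1) ^ 30) A →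
      ∀ a : ℕ → ℕ → ℂ, nsq (Icc (b + 1) (b + N0)) N a ≤ 1 → ∀ lam : ℝ,
      (N : ℝ) ^ (1 - θ) ≤ lam →
      ((lev A (Icc (b + 1) (b + N0)) N a lam).card : ℝ) ≤
        C * (N : ℝ) ^ (-3 : ℝ) * (N / lam) ^ (4 - δ) * A ^ 2) : FinMain :=
  fin_main_of (fun A N _ hN I hI a => l2zy A N hN I hI a) L4big (crit CL_proof L4L2) hmid
    (top_of 30 htop)

end Stz
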