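import Pool.Agent.Helper89.Stz.CLTools
import Pool.Agent.Helper3.Stz.Hered
import Pool.Agent.Helper70.Stz.Deg
import Pool.Agent.Helper80.Stz.Rect
import Pool.Agent.Helper70.Stz.Pop

set_option autoImplicit false

namespace Stz

open Finset

theorem offDiag_card_ge (Q : Finset ℕ) (h2 : 2 ≤ Q.card) :
    (Q.card : ℝ) ^ 2 / 2 ≤ Q.offDiag.card := by
  rw [Finset.offDiag_card]
  have h : Q.card ≤ Q.card * Q.card := Nat.le_mul_self _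
  rw [Nat.cast_sub h]
  push_cast
  have : (2 : ℝ) ≤ Q.card := by exact_mod_cast h2
  nlinarith

theorem mem_offDiag_le {Q : Finset ℕ} {Y : ℕ} (hQ : ∀ q ∈ Q, q.Prime ∧ Y ≤ q ∧ q ≤ 2 * Y)
    {p : ℕ × ℕ} (hp : p ∈ Q.offDiag) : (Y : ℝ) ^ 2 ≤ (p.1 : ℝ) * p.2 ∧
      (p.1 : ℝ) * p.2 ≤ (2 * Y : ℝ) ^ 2 := by
  rw [mem_offDiag] at hp
  obtain ⟨h1, h2, -⟩ := hp
  obtain ⟨-, h3, h4⟩ := hQ _ h1
  obtain ⟨-, h5, h6⟩ := hQ _ h2
  have h3' : (Y : ℝ) ≤ p.1 := by exact_mod_cast h3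
  have h4' : (p.1 : ℝ) ≤ 2 * Y := by exact_mod_cast h4
  have h5' : (Y : ℝ) ≤ p.2 := by exact_mod_cast h5
  have h6' : (p.2 : ℝ) ≤ 2 * Y := by exact_mod_cast h6
  have h0 : (0 : ℝ) ≤ Y := by positivity
  constructor
  · nlinarith
  · nlinarith

open Classical in
/-- from the level set on a graph to popular frequencies -/
theorem CL_part1 (ζ : ℝ) (hζ : (10 : ℝ) ^ 12 ≤ ζ) (N b A : ℕ) [NeZero A]
    (hNζ : (N : ℝ) = ζ ^ (20000 : ℤ)) (hb : (b : ℝ) ≤ ζ ^ (25000 : ℤ))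
    (hA : Good ((N + 1) ^ 60) A) (a : ℕ → ℕ → ℂ)
    (ha : nsq (Icc (b + 1) (b + N)) N a ≤ 1) (x : ZMod A → ZMod A) (T : Finset (ZMod A))
    (lam : ℝ) (hlam : 0 < lam) (hT : ∀ z ∈ T, lam ≤ ‖F A (Icc (b + 1) (b + N)) N a z (x z)‖)
    (hE : ζ ^ (19999 : ℤ) ≤ (lam * mu A T) ^ 2)
    (V : ℝ) (hV : ∀ k : ℤ, tv A (fT A x T k) ≤ V) (hV1 : V ≤ ζ ^ (56000 : ℤ)) (hV0 : 0 ≤ V)
    (Y1 Y2 Y3 : ℕ) (Q1 Q2 Q3 : Finset ℕ)
    (hY1 : ζ ^ (4998 : ℤ) ≤ Y1) (hY1' : (2 * Y1 : ℝ) ≤ ζ ^ (4999 : ℤ))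
    (hQ1 : ∀ q ∈ Q1, q.Prime ∧ Y1 ≤ q ∧ q ≤ 2 * Y1) (hc1 : ζ ^ (4998 : ℤ) ≤ Q1.card)
    (hY2 : ζ ^ (4996 : ℤ) ≤ Y2) (hY2' : (2 * Y2 : ℝ) ≤ ζ ^ (4997 : ℤ))
    (hQ2 : ∀ q ∈ Q2, q.Prime ∧ Y2 ≤ q ∧ q ≤ 2 * Y2) (hc2 : ζ ^ (4996 : ℤ) ≤ Q2.card)
    (hY3 : ζ ^ (9965 : ℤ) ≤ Y3) (hY3' : (2 * Y3 : ℝ) ≤ ζ ^ (9966 : ℤ))
    (hQ3 : ∀ q ∈ Q3, q.Prime ∧ Y3 ≤ q ∧ q ≤ 2 * Y3) (hc3 : ζ ^ (9965 : ℤ) ≤ Q3.card) :
    ∃ h : ℕ, 1 ≤ h ∧ (h : ℝ) ≤ ζ ^ (62 : ℤ) ∧ ζ ^ (-61 : ℤ) / 16 * Q3.offDiag.card ≤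
      ((Q3.offDiag.filter fun p => ∃ k : ℤ, (p.1 : ℤ) ∣ k ∧ (p.2 : ℤ) ∣ k ∧
        2 * |k| ≤ A ∧ ζ ^ (-61 : ℤ) / 16 ≤
          ‖ft A (fT A x T (p.1 * p.2 * h : ℕ)) (k : ZMod A)‖ ^ 2).card : ℝ) := by
  have h1 : (1 : ℝ) ≤ ζ := by linarith
  have h0 : (0 : ℝ) < ζ := by linarith
  have hA0 : 0 < A := Nat.pos_of_ne_zero (NeZero.ne A)
  have hN1 : 1 ≤ N := by
    have : (1 : ℝ) ≤ N := by rw [hNζ]; exact one_le_zpow₀ h1 (by norm_num)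
    exact_mod_cast this
  have hNpos : (0 : ℝ) < N := by exact_mod_cast hN1
  have hAge : (N + 1) ^ 60 ≤ A := Nat.le_of_dvd hA0 (hA _ (Nat.one_le_pow _ _ (by omega)) le_rfl)
  have hAge' : ((N : ℝ) + 1) ^ 60 ≤ A := by exact_mod_cast hAge
  have hAζ : ζ ^ (1200000 : ℤ) ≤ A := by
    refine le_trans ?_ hAge'
    calc ζ ^ (1200000 : ℤ) = (ζ ^ (20000 : ℤ)) ^ 60 := by rw [w_pow]; norm_num
      _ ≤ ((N : ℝ) + 1) ^ 60 := by
        rw [← hNζ]; exact pow_le_pow_left₀ hNpos.le (by linarith) 60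
  -- primes divide `A`
  have hdivA : ∀ q : ℕ, 1 ≤ q → (q : ℝ) ≤ ζ ^ (20000 : ℤ) → q ∣ A := by
    intro q hq hq'
    refine hA q hq ?_
    have : q ≤ N := by
      have : (q : ℝ) ≤ N := by rw [hNζ]; exact hq'
      exact_mod_cast this
    calc q ≤ N + 1 := by omega
      _ ≤ (N + 1) ^ 60 := Nat.le_self_pow (by norm_num) _
  have hqA : ∀ (Q : Finset ℕ) (Y : ℕ) (e : ℤ), e ≤ 20000 → (2 * Y : ℝ) ≤ ζ ^ e →
      (∀ q ∈ Q, q.Prime ∧ Y ≤ q ∧ q ≤ 2 * Y) → ∀ q ∈ Q, q.Prime ∧ q ∣ A := by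
    intro Q Y e he hY hQ q hq
    obtain ⟨hp, h2, h3⟩ := hQ q hq
    refine ⟨hp, hdivA q hp.one_le ?_⟩
    have : (q : ℝ) ≤ 2 * Y := by exact_mod_cast h3
    exact this.trans (hY.trans (w_le h1 he))
  have hqA1 := hqA Q1 Y1 4999 (by norm_num) hY1' hQ1
  have hqA2 := hqA Q2 Y2 4997 (by norm_num) hY2' hQ2
  have hqA3 := hqA Q3 Y3 9966 (by norm_num) hY3' hQ3
  set I := Icc (b + 1) (b + N) with hIdef
  have hnle : ∀ n ∈ I, (n : ℝ) ≤ 2 * ζ ^ (25000 : ℤ) := by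
    intro n hn
    have h2 : n ≤ b + N := (mem_Icc.1 hn).2
    have h3 : (n : ℝ) ≤ b + N := by exact_mod_cast h2
    have h4 : (N : ℝ) ≤ ζ ^ (25000 : ℤ) := by rw [hNζ]; exact w_le h1 (by norm_num)
    linarith
  have hI : ∀ n ∈ I, 1 ≤ n ∧ n ^ 2 < A := by
    intro n hn
    refine ⟨by have := (mem_Icc.1 hn).1; omega, ?_⟩
    have h2 := hnle n hn
    have h3 : (n : ℝ) ^ 2 < A := by
      calc (n : ℝ) ^ 2 ≤ (2 * ζ ^ (25000 : ℤ)) ^ 2 := by gcongr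
        _ = 4 * ζ ^ (50000 : ℤ) := by rw [mul_pow, w_pow]; norm_num
        _ ≤ ζ ^ (50001 : ℤ) := cw_le h1 (by linarith) (by norm_num)
        _ < ζ ^ (1200000 : ℤ) := zpow_lt_zpow_right₀ (by linarith) (by norm_num)
        _ ≤ A := hAζ
    exact_mod_cast h3
  -- few prime divisors
  have hfew : ∀ (Q : Finset ℕ) (Y : ℕ), ζ ^ (4996 : ℤ) ≤ Y →
      (∀ q ∈ Q, q.Prime ∧ Y ≤ q ∧ q ≤ 2 * Y) → ζ ^ (4996 : ℤ) ≤ Q.card →
      ∀ n ∈ I, 2 * (Q.filter fun q => q ∣ n).card ≤ Q.card := by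
    intro Q Y hY hQ hQc n hn
    have hn1 : 1 ≤ n := (hI n hn).1
    have hY1 : 1 ≤ Y := by
      have : (1 : ℝ) ≤ Y := (one_le_zpow₀ h1 (by norm_num)).trans hY
      exact_mod_cast this
    have h2 := card_primes_lt Q Y hY1 (fun q hq => ⟨(hQ q hq).1, (hQ q hq).2.1⟩) (n : ℤ)
      (by exact_mod_cast Nat.one_le_iff_ne_zero.1 hn1) 6 (by
        have h3 := hnle n hn
        calc |((n : ℤ) : ℝ)| = n := by simp
          _ ≤ 2 * ζ ^ (25000 : ℤ) := h3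
          _ ≤ ζ ^ (25001 : ℤ) := cw_le h1 (by linarith) (by norm_num)
          _ < ζ ^ (29976 : ℤ) := zpow_lt_zpow_right₀ (by linarith) (by norm_num)
          _ = (ζ ^ (4996 : ℤ)) ^ 6 := by rw [w_pow]; norm_num
          _ ≤ (Y : ℝ) ^ 6 := by gcongr)
    have h4 : (Q.filter fun q : ℕ => (q : ℤ) ∣ (n : ℤ)) = Q.filter fun q => q ∣ n := by
      apply filter_congr
      intro q _
      exact Int.natCast_dvd_natCast
    rw [h4] at h2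
    have h5 : (12 : ℝ) ≤ Q.card := by
      calc (12 : ℝ) ≤ ζ := by linarith
        _ = ζ ^ (1 : ℤ) := (zpow_one ζ).symm
        _ ≤ ζ ^ (4996 : ℤ) := w_le h1 (by norm_num)
        _ ≤ _ := hQc
    have h6 : 12 ≤ Q.card := by exact_mod_cast h5
    omega
  have hcard2 : ∀ (Q : Finset ℕ) (e : ℤ), 1 ≤ e → ζ ^ e ≤ Q.card → 2 ≤ Q.card := by
    intro Q e he hQ
    have : (2 : ℝ) ≤ Q.card := by
      calc (2 : ℝ) ≤ ζ := by linarith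
        _ = ζ ^ (1 : ℤ) := (zpow_one ζ).symm
        _ ≤ ζ ^ e := w_le h1 he
        _ ≤ _ := hQ
    exact_mod_cast this
  have hc1' := hcard2 Q1 4998 (by norm_num) hc1
  have hc2' := hcard2 Q2 4996 (by norm_num) hc2
  have hc3' := hcard2 Q3 9965 (by norm_num) hc3
  -- hereditary subset
  obtain ⟨g, R, hg, hRT, hRmu, hR⟩ := hered_main A N hN1 I (fun n hn => (hI n hn).2) a ha x T lam
    (ζ ^ (-1 : ℤ)) (w_pos h1 _) hlam.le hT (by rw [hNζ, w_mul h1]; exact hE)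
  -- degrees
  set η : ℝ := ζ ^ (-1 : ℤ) with hη
  have hηpos : 0 < η := w_pos h1 _
  have hc : 0 < η ^ 2 / 16 := by positivity
  have hcμ : η ^ 2 / 16 * (η / 16) = ζ ^ (-3 : ℤ) / 256 := by
    have : η ^ 3 = ζ ^ (-3 : ℤ) := by rw [hη, w_pow]; norm_num
    rw [← this]; ring
  set τ : ℝ := ζ ^ (-4 : ℤ) with hτ
  have hdegl : ∀ (Q : Finset ℕ) (Y : ℕ) (e : ℤ), 4997 ≤ e → e ≤ 9966 → ζ ^ (e - 1) ≤ Y →
      (2 * Y : ℝ) ≤ ζ ^ e → (∀ q ∈ Q, q.Prime ∧ Y ≤ q ∧ q ≤ 2 * Y) → ζ ^ (e - 1) ≤ Q.card →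
      mu A (R.filter fun z => dg A Q x R (32 * ζ ^ (2 * e + 2 - 20000)) z < τ) ≤ η / 16 := by
    intro Q Y e he he' hY hY' hQ hQc
    have hYpos : (0 : ℝ) < Y := (w_pos h1 _).trans_le hY
    have hY3 : 3 ≤ Y := by
      have : (3 : ℝ) ≤ Y := by
        calc (3 : ℝ) ≤ ζ := by linarith
          _ = ζ ^ (1 : ℤ) := (zpow_one ζ).symm
          _ ≤ ζ ^ (e - 1) := w_le h1 (by linarith)
          _ ≤ _ := hY
      exact_mod_cast this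
    have hqA' := hqA Q Y e (by linarith) hY' hQ
    refine deg_lemma A N hN1 I hI x g hg R (η ^ 2 / 16) hc hR Q Y ?_ ?_ ?_ ?_ (η / 16)
      (32 * ζ ^ (2 * e + 2 - 20000)) τ (by positivity) (by positivity) ?_ ?_ ?_
    · intro q hq
      obtain ⟨hp, h2, h3⟩ := hQ q hq
      exact ⟨hp, by omega, (hqA' q hq).2, h2, h3⟩
    · exact hcard2 Q (e - 1) (by linarith) hQc
    · exact hfew Q Y ((w_le h1 (by linarith)).trans hY) hQ ((w_le h1 (by linarith)).trans hQc)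
    · have : (4 * Y ^ 2 : ℝ) ≤ N := by
        calc (4 * Y ^ 2 : ℝ) = (2 * Y) ^ 2 := by ring
          _ ≤ (ζ ^ e) ^ 2 := by gcongr
          _ = ζ ^ (e * 2) := by rw [w_pow]; norm_num
          _ ≤ ζ ^ (20000 : ℤ) := w_le h1 (by linarith)
          _ = N := hNζ.symm
      exact_mod_cast this
    · rw [hcμ]
      have hQpos : (0 : ℝ) < Q.card := (w_pos h1 _).trans_le hQc
      rw [div_le_iff₀ hQpos]
      calc (64 : ℝ) ≤ ζ ^ (4993 : ℤ) / 256 := by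
            rw [le_div_iff₀ (by norm_num)]
            calc (64 * 256 : ℝ) = 16384 * ζ ^ (0 : ℤ) := by norm_num
              _ ≤ ζ ^ (4993 : ℤ) := cw_le h1 (by linarith) (by norm_num)
        _ = ζ ^ (-3 : ℤ) / 256 * ζ ^ (4996 : ℤ) := by
            rw [div_mul_eq_mul_div, w_mul h1]; norm_num
        _ ≤ ζ ^ (-3 : ℤ) / 256 * Q.card := by
            refine mul_le_mul_of_nonneg_left ((w_le h1 (by linarith)).trans hQc) ?_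
            exact div_nonneg (w_pos h1 _).le (by norm_num)
    · rw [hcμ, hNζ]
      have h4 : (Y : ℝ) ^ 4 ≤ ζ ^ (4 * e) / 16 := by
        rw [le_div_iff₀ (by norm_num)]
        calc (Y : ℝ) ^ 4 * 16 = (2 * Y) ^ 4 := by ring
          _ ≤ (ζ ^ e) ^ 4 := by gcongr
          _ = ζ ^ (4 * e) := by rw [w_pow]; congr 1; push_cast; ring
      have h5 : (ζ ^ (20000 : ℤ)) ^ 2 * (32 * ζ ^ (2 * e + 2 - 20000)) ^ 2 =
          1024 * ζ ^ (4 * e + 4) := by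
        rw [mul_pow, w_pow, w_pow, mul_left_comm, w_mul h1]
        congr 1
        · norm_num
        · congr 1; push_cast; ring
      rw [h5, div_le_iff₀ (by have := w_pos h1 (4 * e + 4); positivity)]
      calc 64 * (Y : ℝ) ^ 4 ≤ 64 * (ζ ^ (4 * e) / 16) := by gcongr
        _ = 4 * ζ ^ (4 * e) := by ring
        _ ≤ 4 * ζ ^ (4 * e + 1) := by
            have := w_le h1 (show 4 * e ≤ 4 * e + 1 by linarith); linarith
        _ = ζ ^ (-3 : ℤ) / 256 * (1024 * ζ ^ (4 * e + 4)) := by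
            have : ζ ^ (-3 : ℤ) * ζ ^ (4 * e + 4) = ζ ^ (4 * e + 1) := by
              rw [w_mul h1]; congr 1; ring
            rw [← this]; ring
    · rw [hcμ, le_div_iff₀ (by norm_num)]
      calc 48 * τ * 256 = 12288 * ζ ^ (-4 : ℤ) := by rw [hτ]; ring
        _ ≤ ζ ^ (-3 : ℤ) := cw_le h1 (by linarith) (by norm_num)
  have hd1 := hdegl Q1 Y1 4999 (by norm_num) (by norm_num) (by norm_num; exact hY1) hY1' hQ1
    (by norm_num; exact hc1)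
  have hd2 := hdegl Q2 Y2 4997 (by norm_num) (by norm_num) (by norm_num; exact hY2) hY2' hQ2
    (by norm_num; exact hc2)
  have hd3 := hdegl Q3 Y3 9966 (by norm_num) (by norm_num) (by norm_num; exact hY3) hY3' hQ3
    (by norm_num; exact hc3)
  set γ1 : ℝ := 32 * ζ ^ (2 * 4999 + 2 - 20000 : ℤ) with hγ1
  set γ2 : ℝ := 32 * ζ ^ (2 * 4997 + 2 - 20000 : ℤ) with hγ2
  set γ3 : ℝ := 32 * ζ ^ (2 * 9966 + 2 - 20000 : ℤ) with hγ3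
  have e1 : γ1 = 32 * ζ ^ (-10000 : ℤ) := by rw [hγ1]; norm_num
  have e2 : γ2 = 32 * ζ ^ (-10004 : ℤ) := by rw [hγ2]; norm_num
  have e3 : γ3 = 32 * ζ ^ (-66 : ℤ) := by rw [hγ3]; norm_num
  -- the good points
  set R0 := R.filter fun z => τ ≤ dg A Q1 x R γ1 z ∧ τ ≤ dg A Q2 x R γ2 z ∧
    τ ≤ dg A Q3 x R γ3 z with hR0
  have hR0mu : ζ ^ (-2 : ℤ) ≤ mu A R0 := by
    have hApos : (0 : ℝ) < A := by exact_mod_cast hA0
    have hsub : R ⊆ R0 ∪ ((R.filter fun z => dg A Q1 x R γ1 z < τ) ∪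
        ((R.filter fun z => dg A Q2 x R γ2 z < τ) ∪ (R.filter fun z => dg A Q3 x R γ3 z < τ))) := by
      intro z hz
      simp only [mem_union, mem_filter, hR0]
      by_cases ha1 : dg A Q1 x R γ1 z < τ
      · tauto
      by_cases ha2 : dg A Q2 x R γ2 z < τ
      · tauto
      by_cases ha3 : dg A Q3 x R γ3 z < τ
      · tauto
      push Not at ha1 ha2 ha3
      tauto
    have hcard := (card_le_card hsub).trans (card_union_le _ _)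
    have hcard2' := card_union_le (R.filter fun z => dg A Q1 x R γ1 z < τ)
      ((R.filter fun z => dg A Q2 x R γ2 z < τ) ∪ (R.filter fun z => dg A Q3 x R γ3 z < τ))
    have hcard3' := card_union_le (R.filter fun z => dg A Q2 x R γ2 z < τ)
      (R.filter fun z => dg A Q3 x R γ3 z < τ)
    have hsum : (R.card : ℝ) ≤ R0.card + ((R.filter fun z => dg A Q1 x R γ1 z < τ).card +
        ((R.filter fun z => dg A Q2 x R γ2 z < τ).card +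
          (R.filter fun z => dg A Q3 x R γ3 z < τ).card)) := by
      exact_mod_cast hcard.trans (by omega)
    have hmu : mu A R ≤ mu A R0 + (mu A (R.filter fun z => dg A Q1 x R γ1 z < τ) +
        (mu A (R.filter fun z => dg A Q2 x R γ2 z < τ) +
          mu A (R.filter fun z => dg A Q3 x R γ3 z < τ))) := by
      unfold mu
      rw [← add_div, ← add_div, ← add_div]
      exact div_le_div_of_nonneg_right hsum hApos.le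
    have h5 : 5 * η / 16 ≤ mu A R0 := by linarith
    refine le_trans ?_ h5
    rw [le_div_iff₀ (by norm_num)]
    calc ζ ^ (-2 : ℤ) * 16 = 16 * ζ ^ (-2 : ℤ) := by ring
      _ ≤ ζ ^ (-1 : ℤ) := cw_le h1 (by linarith) (by norm_num)
      _ ≤ 5 * η := by rw [hη]; linarith
  have hdis : Disjoint Q1 Q2 := by
    rw [Finset.disjoint_left]
    intro q hq1 hq2
    have h2 : (Y1 : ℝ) ≤ q := by exact_mod_cast (hQ1 q hq1).2.1
    have h3 : (q : ℝ) ≤ 2 * Y2 := by exact_mod_cast (hQ2 q hq2).2.2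
    have h4 : ζ ^ (4998 : ℤ) ≤ ζ ^ (4997 : ℤ) := hY1.trans (h2.trans (h3.trans hY2'))
    have h5 : ζ ^ (4997 : ℤ) < ζ ^ (4998 : ℤ) := zpow_lt_zpow_right₀ (by linarith) (by norm_num)
    linarith
  have hle1 : ∀ p ∈ Q1.offDiag, ζ ^ (9996 : ℤ) ≤ (p.1 : ℝ) * p.2 ∧
      (p.1 : ℝ) * p.2 ≤ ζ ^ (9998 : ℤ) := by
    intro p hp
    obtain ⟨h2, h3⟩ := mem_offDiag_le hQ1 hp
    constructor
    · calc ζ ^ (9996 : ℤ) = (ζ ^ (4998 : ℤ)) ^ 2 := by rw [w_pow]; norm_num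
        _ ≤ (Y1 : ℝ) ^ 2 := by have := w_pos h1 4998; gcongr
        _ ≤ _ := h2
    · calc (p.1 : ℝ) * p.2 ≤ (2 * Y1 : ℝ) ^ 2 := h3
        _ ≤ (ζ ^ (4999 : ℤ)) ^ 2 := by gcongr
        _ = ζ ^ (9998 : ℤ) := by rw [w_pow]; norm_num
  have hle2 : ∀ p ∈ Q2.offDiag, (p.1 : ℝ) * p.2 ≤ ζ ^ (9994 : ℤ) := by
    intro p hp
    obtain ⟨h2, h3⟩ := mem_offDiag_le hQ2 hp
    calc (p.1 : ℝ) * p.2 ≤ (2 * Y2 : ℝ) ^ 2 := h3
      _ ≤ (ζ ^ (4997 : ℤ)) ^ 2 := by gcongr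
      _ = ζ ^ (9994 : ℤ) := by rw [w_pow]; norm_num
  have hle3 : ∀ p ∈ Q3.offDiag, (p.1 : ℝ) * p.2 ≤ ζ ^ (19932 : ℤ) := by
    intro p hp
    obtain ⟨h2, h3⟩ := mem_offDiag_le hQ3 hp
    calc (p.1 : ℝ) * p.2 ≤ (2 * Y3 : ℝ) ^ 2 := h3
      _ ≤ (ζ ^ (9966 : ℤ)) ^ 2 := by gcongr
      _ = ζ ^ (19932 : ℤ) := by rw [w_pow]; norm_num
  have hγhalf : ∀ e : ℤ, e ≤ -1 → 32 * ζ ^ e ≤ 1 / 2 := by
    intro e he
    have : 64 * ζ ^ e ≤ ζ ^ (0 : ℤ) := cw_le h1 (by linarith) (by linarith)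
    rw [zpow_zero] at this
    linarith
  have hrect := rect_count A x Q1 Q2 Q3 hqA1 hqA2 hqA3 hc1' hc2' hc3' hdis R R0
    (filter_subset _ _) γ1 γ2 γ3 (ζ ^ (-63 : ℤ)) τ (by rw [e1]; have := w_pos h1 (-10000); positivity)
    (by rw [e2]; have := w_pos h1 (-10004); positivity) (by rw [e1]; exact hγhalf _ (by norm_num))
    (by rw [e2]; exact hγhalf _ (by norm_num)) (w_pos h1 _)
    (fun z hz => (mem_filter.1 hz).2) (by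
      intro p hp r hr
      have h2 := (hle1 p hp).2
      have h3 := hle2 r hr
      have h4 : 4 * γ1 * ((r.1 : ℝ) * r.2) ≤ 128 * ζ ^ (-6 : ℤ) := by
        calc 4 * γ1 * ((r.1 : ℝ) * r.2) ≤ 4 * γ1 * ζ ^ (9994 : ℤ) := by
              rw [e1]; have := w_pos h1 (-10000); gcongr
          _ = 128 * (ζ ^ (-10000 : ℤ) * ζ ^ (9994 : ℤ)) := by rw [e1]; ring
          _ = 128 * ζ ^ (-6 : ℤ) := by rw [w_mul h1]; norm_num
      have h5 : 4 * γ2 * ((p.1 : ℝ) * p.2) ≤ 128 * ζ ^ (-6 : ℤ) := by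
        calc 4 * γ2 * ((p.1 : ℝ) * p.2) ≤ 4 * γ2 * ζ ^ (9998 : ℤ) := by
              rw [e2]; have := w_pos h1 (-10004); gcongr
          _ = 128 * (ζ ^ (-10004 : ℤ) * ζ ^ (9998 : ℤ)) := by rw [e2]; ring
          _ = 128 * ζ ^ (-6 : ℤ) := by rw [w_mul h1]; norm_num
      have h6 : 512 * ζ ^ (-6 : ℤ) ≤ ζ ^ (0 : ℤ) := cw_le h1 (by linarith) (by norm_num)
      rw [zpow_zero] at h6
      have h7 := w_pos h1 (-6)
      linarith) (by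
      intro p hp r hr
      have h2 := (hle1 p hp).1
      have h3 := hle3 r hr
      have hp0 : 0 < (p.1 : ℝ) * p.2 := (w_pos h1 _).trans_le h2
      have h4 : 4 * γ1 * ((r.1 : ℝ) * r.2) / ((p.1 : ℝ) * p.2) ≤ 128 * ζ ^ (-64 : ℤ) := by
        rw [div_le_iff₀ hp0]
        calc 4 * γ1 * ((r.1 : ℝ) * r.2) ≤ 4 * γ1 * ζ ^ (19932 : ℤ) := by
              rw [e1]; have := w_pos h1 (-10000); gcongr
          _ = 128 * (ζ ^ (-10000 : ℤ) * ζ ^ (19932 : ℤ)) := by rw [e1]; ring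
          _ = 128 * (ζ ^ (-64 : ℤ) * ζ ^ (9996 : ℤ)) := by rw [w_mul h1, w_mul h1]; norm_num
          _ = 128 * ζ ^ (-64 : ℤ) * ζ ^ (9996 : ℤ) := by ring
          _ ≤ 128 * ζ ^ (-64 : ℤ) * ((p.1 : ℝ) * p.2) := by
              have := w_pos h1 (-64); gcongr
      have h5 : γ3 ≤ 32 * ζ ^ (-64 : ℤ) := by
        rw [e3]; have := w_le h1 (show (-66 : ℤ) ≤ -64 by norm_num); linarith
      have h6 : 160 * ζ ^ (-64 : ℤ) ≤ ζ ^ (-63 : ℤ) := cw_le h1 (by linarith) (by norm_num)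
      linarith)
  -- lower bound for the count
  have hθ : ζ ^ (-61 : ℤ) ≤ (τ ^ 2 * mu A R0 / 4) ^ 4 * (τ / 6) ^ 4 * τ := by
    have hτpos : 0 < τ := w_pos h1 _
    have h2 : (τ ^ 2 * ζ ^ (-2 : ℤ) / 4) ^ 4 * (τ / 6) ^ 4 * τ ≤
        (τ ^ 2 * mu A R0 / 4) ^ 4 * (τ / 6) ^ 4 * τ := by
      have := w_pos h1 (-2); gcongr
    refine le_trans ?_ h2
    have h3 : (τ ^ 2 * ζ ^ (-2 : ℤ) / 4) ^ 4 * (τ / 6) ^ 4 * τ = ζ ^ (-60 : ℤ) / 331776 := by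
      have h4 : (τ ^ 2 * ζ ^ (-2 : ℤ) / 4) ^ 4 * (τ / 6) ^ 4 * τ =
          τ ^ 13 * (ζ ^ (-2 : ℤ)) ^ 4 / 331776 := by ring
      rw [h4, hτ, w_pow, w_pow, w_mul h1]; norm_num
    rw [h3, le_div_iff₀ (by norm_num)]
    calc ζ ^ (-61 : ℤ) * 331776 = 331776 * ζ ^ (-61 : ℤ) := by ring
      _ ≤ ζ ^ (-60 : ℤ) := cw_le h1 (by linarith) (by norm_num)
  have hcount := hθ.trans hrect
  -- parameters of `pop`
  set H : ℕ := ⌈10 * ζ ^ (61 : ℤ)⌉₊ with hH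
  have hH1 : 10 * ζ ^ (61 : ℤ) ≤ H := Nat.le_ceil _
  have hH2 : (H : ℝ) ≤ 11 * ζ ^ (61 : ℤ) := by
    have h2 : (H : ℝ) < 10 * ζ ^ (61 : ℤ) + 1 := Nat.ceil_lt_add_one (by have := w_pos h1 61; positivity)
    have h3 : (1 : ℝ) ≤ ζ ^ (61 : ℤ) := one_le_zpow₀ h1 (by norm_num)
    linarith
  have hH3 : (H : ℝ) ≤ ζ ^ (62 : ℤ) := hH2.trans (cw_le h1 (by linarith) (by norm_num))
  have hfewK : ∀ (Q : Finset ℕ) (Y : ℕ), ζ ^ (4996 : ℤ) ≤ Y →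
      (∀ q ∈ Q, q.Prime ∧ Y ≤ q ∧ q ≤ 2 * Y) → ζ ^ (4996 : ℤ) ≤ Q.card →
      ∀ k : ℤ, k ≠ 0 → |(k : ℝ)| ≤ 2 * ζ ^ (120000 : ℤ) →
      ((Q.filter fun q : ℕ => (q : ℤ) ∣ k).card : ℝ) ^ 2 ≤ ζ ^ (-1000 : ℤ) * Q.offDiag.card := by
    intro Q Y hY hQ hQc k hk hkK
    have hY1 : 1 ≤ Y := by
      have : (1 : ℝ) ≤ Y := (one_le_zpow₀ h1 (by norm_num)).trans hY
      exact_mod_cast this
    have h2 := card_primes_lt Q Y hY1 (fun q hq => ⟨(hQ q hq).1, (hQ q hq).2.1⟩) k hk 25 (by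
        calc |(k : ℝ)| ≤ 2 * ζ ^ (120000 : ℤ) := hkK
          _ ≤ ζ ^ (120001 : ℤ) := cw_le h1 (by linarith) (by norm_num)
          _ < ζ ^ (124900 : ℤ) := zpow_lt_zpow_right₀ (by linarith) (by norm_num)
          _ = (ζ ^ (4996 : ℤ)) ^ 25 := by rw [w_pow]; norm_num
          _ ≤ (Y : ℝ) ^ 25 := by gcongr)
    have h3 : ((Q.filter fun q : ℕ => (q : ℤ) ∣ k).card : ℝ) ≤ 25 := by exact_mod_cast h2.le
    have h4 := offDiag_card_ge Q (hcard2 Q 4996 (by norm_num) hQc)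
    have h5 : ζ ^ (9992 : ℤ) ≤ (Q.card : ℝ) ^ 2 := by
      calc ζ ^ (9992 : ℤ) = (ζ ^ (4996 : ℤ)) ^ 2 := by rw [w_pow]; norm_num
        _ ≤ _ := by have := w_pos h1 4996; gcongr
    calc ((Q.filter fun q : ℕ => (q : ℤ) ∣ k).card : ℝ) ^ 2 ≤ 25 ^ 2 := by gcongr
      _ ≤ ζ ^ (8992 : ℤ) / 2 := by
          rw [le_div_iff₀ (by norm_num)]
          calc ((25 : ℝ) ^ 2 * 2) = 1250 * ζ ^ (0 : ℤ) := by norm_num
            _ ≤ ζ ^ (8992 : ℤ) := cw_le h1 (by linarith) (by norm_num)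
      _ = ζ ^ (-1000 : ℤ) * (ζ ^ (9992 : ℤ) / 2) := by
          rw [mul_div_assoc', w_mul h1]; norm_num
      _ ≤ ζ ^ (-1000 : ℤ) * Q.offDiag.card := by
          refine mul_le_mul_of_nonneg_left ?_ (w_pos h1 _).le
          linarith
  have hK1 : (1 : ℝ) ≤ ζ ^ (120000 : ℤ) := one_le_zpow₀ h1 (by norm_num)
  obtain ⟨h, hh1, hh2, hh3⟩ := pop A x T R hRT Q1 Q2 Q3 hqA1 hqA2 hqA3 hc1' hc2' hc3'
    (ζ ^ (-61 : ℤ)) (ζ ^ (-63 : ℤ)) (w_pos h1 _) (by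
      calc ζ ^ (-61 : ℤ) ≤ ζ ^ (0 : ℤ) := w_le h1 (by norm_num)
        _ = 1 := zpow_zero _) (w_pos h1 _).le H (by
      have : (2 : ℝ) ≤ H := by
        have h3 : (1 : ℝ) ≤ ζ ^ (61 : ℤ) := one_le_zpow₀ h1 (by norm_num)
        linarith
      exact_mod_cast this) (by
      calc 2 * (H : ℝ) * ζ ^ (-63 : ℤ) ≤ 2 * (11 * ζ ^ (61 : ℤ)) * ζ ^ (-63 : ℤ) := by
            have := w_pos h1 (-63); gcongr
        _ = 22 * (ζ ^ (61 : ℤ) * ζ ^ (-63 : ℤ)) := by ring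
        _ = 22 * ζ ^ (-2 : ℤ) := by rw [w_mul h1]; norm_num
        _ ≤ ζ ^ (0 : ℤ) := cw_le h1 (by linarith) (by norm_num)
        _ = 1 := zpow_zero _) (by
      calc (10 : ℝ) = 10 * (ζ ^ (61 : ℤ) * ζ ^ (-61 : ℤ)) := by rw [w_mul h1]; norm_num
        _ = 10 * ζ ^ (61 : ℤ) * ζ ^ (-61 : ℤ) := by ring
        _ ≤ H * ζ ^ (-61 : ℤ) := by have := w_pos h1 (-61); gcongr) hcount
    V (ζ ^ (120000 : ℤ)) (ζ ^ (-1000 : ℤ)) hV hK1 (by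
      calc V ^ 2 ≤ (ζ ^ (56000 : ℤ)) ^ 2 := by gcongr
        _ = ζ ^ (112000 : ℤ) := by rw [w_pow]; norm_num
        _ ≤ _ := w_le h1 (by norm_num))
    (hfewK Q1 Y1 ((w_le h1 (by norm_num)).trans hY1) hQ1 ((w_le h1 (by norm_num)).trans hc1))
    (hfewK Q2 Y2 hY2 hQ2 hc2) (by
      have hsq : Real.sqrt (ζ ^ (120000 : ℤ)) = ζ ^ (60000 : ℤ) := by
        rw [show ζ ^ (120000 : ℤ) = (ζ ^ (60000 : ℤ)) ^ 2 by rw [w_pow]; norm_num]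
        exact Real.sqrt_sq (w_pos h1 _).le
      rw [hsq]
      have h2 : 2 * V / ζ ^ (60000 : ℤ) ≤ 2 * ζ ^ (-4000 : ℤ) := by
        rw [div_le_iff₀ (w_pos h1 _)]
        calc 2 * V ≤ 2 * ζ ^ (56000 : ℤ) := by linarith
          _ = 2 * (ζ ^ (-4000 : ℤ) * ζ ^ (60000 : ℤ)) := by rw [w_mul h1]; norm_num
          _ = _ := by ring
      have h3 : ζ ^ (-4000 : ℤ) ≤ ζ ^ (-1000 : ℤ) := w_le h1 (by norm_num)
      rw [le_div_iff₀ (by norm_num)]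
      have h4 : 80 * ζ ^ (-1000 : ℤ) ≤ ζ ^ (-61 : ℤ) := cw_le h1 (by linarith) (by norm_num)
      linarith)
  exact ⟨h, hh1, le_trans (by exact_mod_cast hh2.le) hH3, hh3⟩

end Stz
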