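import Pool.Agent.Helper89.Stz.Defs

/-!
# MP_65a63f_an, module B6: frequencies of large coefficients

`popdiff` : popular differences of large frequencies, `stepE` : they are proportional to `d`.
-/

set_option autoImplicit false

namespace Stz

open Finset

/-! ### character tools -/

theorem se_ps_add (A : ℕ) [NeZero A] (x y : ZMod A) : ps A (x + y) = ps A x * ps A y := by
  unfold ps
  exact AddChar.map_add_eq_mul _ _ _

theorem se_ps_zero (A : ℕ) [NeZero A] : ps A 0 = 1 := by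
  unfold ps
  exact AddChar.map_zero_eq_one _

theorem se_ps_norm (A : ℕ) [NeZero A] (x : ZMod A) : ‖ps A x‖ = 1 := by
  unfold ps
  rw [ZMod.stdAddChar_apply]
  exact Circle.norm_coe _

theorem se_ps_conj (A : ℕ) [NeZero A] (x : ZMod A) :
    (starRingEnd ℂ) (ps A x) = ps A (-x) := by
  have h1 : ps A x * ps A (-x) = 1 := by rw [← se_ps_add, add_neg_cancel, se_ps_zero]
  have h2 : (starRingEnd ℂ) (ps A x) * ps A x = 1 := by
    rw [mul_comm, Complex.mul_conj, Complex.normSq_eq_norm_sq, se_ps_norm]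
    simp
  calc (starRingEnd ℂ) (ps A x) = (starRingEnd ℂ) (ps A x) * (ps A x * ps A (-x)) := by
        rw [h1, mul_one]
    _ = ps A (-x) := by rw [← mul_assoc, h2, one_mul]

theorem se_orth (A : ℕ) [NeZero A] (k : ZMod A) :
    ∑ z, ps A (z * k) = if k = 0 then (A : ℂ) else 0 := by
  have h := AddChar.sum_mulShift (R' := ℂ) k (ZMod.isPrimitive_stdAddChar A)
  rw [ZMod.card] at h
  unfold ps
  rw [h]
  split_ifs <;> simp

/-- Parseval inequality for bounded functions -/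
theorem se_parseval (A : ℕ) [NeZero A] (f : ZMod A → ℂ) :
    ∑ k, ‖ft A f k‖ ^ 2 = (A : ℝ)⁻¹ * ∑ z, ‖f z‖ ^ 2 := by
  have hA : (A : ℂ) ≠ 0 := Nat.cast_ne_zero.mpr (NeZero.ne A)
  have key : (((∑ k, ‖ft A f k‖ ^ 2 : ℝ)) : ℂ) = (((A : ℝ)⁻¹ * ∑ z, ‖f z‖ ^ 2 : ℝ) : ℂ) := by
    push_cast
    have h1 : ∀ k, ((‖ft A f k‖ : ℂ)) ^ 2 = (A : ℂ)⁻¹ * (A : ℂ)⁻¹ *
        ∑ z, ∑ w, f z * (starRingEnd ℂ) (f w) * ps A (k * (z - w)) := by
      intro k
      rw [← Complex.mul_conj' (ft A f k)]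
      unfold ft
      rw [map_mul, map_sum, map_inv₀, Complex.conj_natCast, mul_mul_mul_comm,
        Finset.sum_mul_sum]
      congr 1
      refine Finset.sum_congr rfl fun z _ => Finset.sum_congr rfl fun w _ => ?_
      rw [map_mul, se_ps_conj, mul_sub, sub_eq_add_neg, se_ps_add]
      ring
    calc ∑ k, (‖ft A f k‖ : ℂ) ^ 2
        = ∑ k, (A : ℂ)⁻¹ * (A : ℂ)⁻¹ *
          ∑ z, ∑ w, f z * (starRingEnd ℂ) (f w) * ps A (k * (z - w)) :=
          Finset.sum_congr rfl fun k _ => h1 k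
      _ = (A : ℂ)⁻¹ * (A : ℂ)⁻¹ * ∑ z, ∑ w, f z * (starRingEnd ℂ) (f w) *
          ∑ k, ps A (k * (z - w)) := by
          rw [← Finset.mul_sum, Finset.sum_comm]
          congr 1
          refine Finset.sum_congr rfl fun z _ => ?_
          rw [Finset.sum_comm]
          refine Finset.sum_congr rfl fun w _ => ?_
          rw [Finset.mul_sum]
      _ = (A : ℂ)⁻¹ * (A : ℂ)⁻¹ * ∑ z, f z * (starRingEnd ℂ) (f z) * A := by
          congr 1
          refine Finset.sum_congr rfl fun z _ => ?_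
          rw [Finset.sum_eq_single z]
          · rw [se_orth]
            simp
          · intro w _ hw
            rw [se_orth, if_neg (fun h => hw (sub_eq_zero.mp h).symm), mul_zero]
          · intro h
            exact absurd (Finset.mem_univ z) h
      _ = (A : ℂ)⁻¹ * ∑ z, (‖f z‖ : ℂ) ^ 2 := by
          rw [← Finset.sum_mul]
          simp_rw [Complex.mul_conj']
          field_simp
  exact_mod_cast key

/-- positivity of Gram type sums -/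
theorem se_pos (A : ℕ) [NeZero A] {ι : Type*} (S : Finset ι) (T : Finset (ZMod A))
    (u : ι → ZMod A → ZMod A) (σ : ℝ) (hσ : 0 ≤ σ)
    (h : ∀ i ∈ S, σ ≤ ‖(A : ℂ)⁻¹ * ∑ z ∈ T, ps A (u i z)‖) :
    σ ^ 2 * (S.card : ℝ) ^ 2 ≤
      ∑ i ∈ S, ∑ j ∈ S, ‖(A : ℂ)⁻¹ * ∑ z ∈ T, ps A (u i z - u j z)‖ := by
  have hA0 : (0 : ℝ) < A := Nat.cast_pos.mpr (Nat.pos_of_ne_zero (NeZero.ne A))
  set c : ι → ℂ := fun i => (A : ℂ)⁻¹ * ∑ z ∈ T, ps A (u i z) with hc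
  have hω : ∀ i, ∃ w : ℂ, ‖w‖ ≤ 1 ∧ w * c i = (‖c i‖ : ℂ) := by
    intro i
    by_cases h0 : c i = 0
    · exact ⟨0, by simp, by simp [h0]⟩
    · have h1 : (‖c i‖ : ℂ) ≠ 0 := by
        simpa using h0
      refine ⟨(starRingEnd ℂ) (c i) / ‖c i‖, ?_, ?_⟩
      · rw [norm_div, Complex.norm_conj, Complex.norm_real, norm_norm]
        exact div_self_le_one _
      · rw [div_mul_eq_mul_div, mul_comm, Complex.mul_conj', sq, mul_div_assoc, div_self h1,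
          mul_one]
  choose w hw1 hw2 using hω
  set G : ZMod A → ℂ := fun z => ∑ i ∈ S, w i * ps A (u i z) with hG
  have e1 : ((∑ i ∈ S, ‖c i‖ : ℝ) : ℂ) = (A : ℂ)⁻¹ * ∑ z ∈ T, G z := by
    push_cast
    rw [hG]
    simp only
    rw [Finset.sum_comm, Finset.mul_sum]
    refine Finset.sum_congr rfl fun i _ => ?_
    rw [← hw2 i, hc]
    simp only
    rw [← Finset.mul_sum]
    ring
  have e2 : σ * S.card ≤ (A : ℝ)⁻¹ * ∑ z ∈ T, ‖G z‖ := by
    calc σ * S.card = ∑ i ∈ S, σ := by rw [Finset.sum_const, nsmul_eq_mul, mul_comm]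
      _ ≤ ∑ i ∈ S, ‖c i‖ := Finset.sum_le_sum h
      _ = ‖((∑ i ∈ S, ‖c i‖ : ℝ) : ℂ)‖ := by
          rw [Complex.norm_real, Real.norm_of_nonneg]
          exact Finset.sum_nonneg fun i _ => norm_nonneg _
      _ = ‖(A : ℂ)⁻¹ * ∑ z ∈ T, G z‖ := by rw [e1]
      _ = (A : ℝ)⁻¹ * ‖∑ z ∈ T, G z‖ := by rw [norm_mul, norm_inv, Complex.norm_natCast]
      _ ≤ (A : ℝ)⁻¹ * ∑ z ∈ T, ‖G z‖ := by
          gcongr
          exact norm_sum_le _ _
  have e3 : ((A : ℝ)⁻¹ * ∑ z ∈ T, ‖G z‖) ^ 2 ≤ (A : ℝ)⁻¹ * ∑ z ∈ T, ‖G z‖ ^ 2 := by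
    have h1 : (∑ z ∈ T, ‖G z‖) ^ 2 ≤ (T.card : ℝ) * ∑ z ∈ T, ‖G z‖ ^ 2 :=
      sq_sum_le_card_mul_sum_sq
    have h2 : (T.card : ℝ) ≤ A := by
      have := Finset.card_le_univ T
      rw [ZMod.card] at this
      exact_mod_cast this
    have h3 : 0 ≤ ∑ z ∈ T, ‖G z‖ ^ 2 := Finset.sum_nonneg fun z _ => by positivity
    calc ((A : ℝ)⁻¹ * ∑ z ∈ T, ‖G z‖) ^ 2 = (A : ℝ)⁻¹ ^ 2 * (∑ z ∈ T, ‖G z‖) ^ 2 := by ring
      _ ≤ (A : ℝ)⁻¹ ^ 2 * ((A : ℝ) * ∑ z ∈ T, ‖G z‖ ^ 2) := by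
          gcongr
          exact h1.trans (by gcongr)
      _ = (A : ℝ)⁻¹ * ∑ z ∈ T, ‖G z‖ ^ 2 := by
          field_simp
  have e4 : (((A : ℝ)⁻¹ * ∑ z ∈ T, ‖G z‖ ^ 2 : ℝ) : ℂ) = ∑ i ∈ S, ∑ j ∈ S,
      w i * (starRingEnd ℂ) (w j) * ((A : ℂ)⁻¹ * ∑ z ∈ T, ps A (u i z - u j z)) := by
    push_cast
    have h1 : ∀ z, ((‖G z‖ : ℂ)) ^ 2 = ∑ i ∈ S, ∑ j ∈ S,
        w i * (starRingEnd ℂ) (w j) * ps A (u i z - u j z) := by
      intro z
      rw [← Complex.mul_conj' (G z), hG]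
      simp only
      rw [map_sum, Finset.sum_mul_sum]
      refine Finset.sum_congr rfl fun i _ => Finset.sum_congr rfl fun j _ => ?_
      rw [map_mul, se_ps_conj, sub_eq_add_neg, se_ps_add]
      ring
    simp_rw [h1]
    rw [Finset.sum_comm, Finset.mul_sum]
    refine Finset.sum_congr rfl fun i _ => ?_
    rw [Finset.sum_comm, Finset.mul_sum]
    refine Finset.sum_congr rfl fun j _ => ?_
    rw [← Finset.mul_sum]
    ring
  have e5 : (A : ℝ)⁻¹ * ∑ z ∈ T, ‖G z‖ ^ 2 ≤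
      ∑ i ∈ S, ∑ j ∈ S, ‖(A : ℂ)⁻¹ * ∑ z ∈ T, ps A (u i z - u j z)‖ := by
    have h0 : 0 ≤ (A : ℝ)⁻¹ * ∑ z ∈ T, ‖G z‖ ^ 2 := by positivity
    calc (A : ℝ)⁻¹ * ∑ z ∈ T, ‖G z‖ ^ 2 = ‖(((A : ℝ)⁻¹ * ∑ z ∈ T, ‖G z‖ ^ 2 : ℝ) : ℂ)‖ := by
          rw [Complex.norm_real, Real.norm_of_nonneg h0]
      _ = ‖∑ i ∈ S, ∑ j ∈ S,
          w i * (starRingEnd ℂ) (w j) * ((A : ℂ)⁻¹ * ∑ z ∈ T, ps A (u i z - u j z))‖ := by
          rw [e4]
      _ ≤ ∑ i ∈ S, ∑ j ∈ S,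
          ‖w i * (starRingEnd ℂ) (w j) * ((A : ℂ)⁻¹ * ∑ z ∈ T, ps A (u i z - u j z))‖ :=
          (norm_sum_le _ _).trans (Finset.sum_le_sum fun i _ => norm_sum_le _ _)
      _ ≤ _ := by
          refine Finset.sum_le_sum fun i _ => Finset.sum_le_sum fun j _ => ?_
          rw [norm_mul, norm_mul, Complex.norm_conj]
          have h1 : ‖w i‖ * ‖w j‖ ≤ 1 := mul_le_one₀ (hw1 i) (norm_nonneg _) (hw1 j)
          exact mul_le_of_le_one_left (norm_nonneg _) h1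
  calc σ ^ 2 * (S.card : ℝ) ^ 2 = (σ * S.card) ^ 2 := by ring
    _ ≤ ((A : ℝ)⁻¹ * ∑ z ∈ T, ‖G z‖) ^ 2 := by gcongr
    _ ≤ _ := e3.trans e5

theorem se_ft (A : ℕ) [NeZero A] (x : ZMod A → ZMod A) (T : Finset (ZMod A)) (k : ℤ)
    (v : ZMod A) : ft A (fT A x T k) v =
      (A : ℂ)⁻¹ * ∑ z ∈ T, ps A ((k : ZMod A) * x z + v * z) := by
  unfold ft fT
  congr 1
  simp only [ite_mul, zero_mul, Finset.sum_ite_mem, Finset.univ_inter]
  refine Finset.sum_congr rfl fun z _ => ?_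
  rw [se_ps_add]

theorem se_ft_le_one (A : ℕ) [NeZero A] (x : ZMod A → ZMod A) (T : Finset (ZMod A)) (k : ℤ)
    (v : ZMod A) : ‖ft A (fT A x T k) v‖ ≤ 1 := by
  have hA0 : (0 : ℝ) < A := Nat.cast_pos.mpr (Nat.pos_of_ne_zero (NeZero.ne A))
  rw [se_ft, norm_mul, norm_inv, Complex.norm_natCast]
  have h1 : ‖∑ z ∈ T, ps A ((k : ZMod A) * x z + v * z)‖ ≤ A := by
    refine (norm_sum_le _ _).trans ?_
    simp only [se_ps_norm, Finset.sum_const, nsmul_eq_mul, mul_one]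
    have := Finset.card_le_univ T
    rw [ZMod.card] at this
    exact_mod_cast this
  calc (A : ℝ)⁻¹ * _ ≤ (A : ℝ)⁻¹ * A := by gcongr
    _ = 1 := inv_mul_cancel₀ hA0.ne'

theorem se_large (A : ℕ) [NeZero A] (x : ZMod A → ZMod A) (T : Finset (ZMod A)) (k : ℤ)
    (τ : ℝ) (hτ : 0 < τ) :
    ((univ.filter fun v : ZMod A => τ ≤ ‖ft A (fT A x T k) v‖).card : ℝ) ≤ 1 / τ ^ 2 := by
  have hA0 : (0 : ℝ) < A := Nat.cast_pos.mpr (Nat.pos_of_ne_zero (NeZero.ne A))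
  have h1 := se_parseval A (fT A x T k)
  have h2 : (A : ℝ)⁻¹ * ∑ z, ‖fT A x T k z‖ ^ 2 ≤ 1 := by
    have : ∑ z, ‖fT A x T k z‖ ^ 2 ≤ ∑ z : ZMod A, (1 : ℝ) := by
      refine Finset.sum_le_sum fun z _ => ?_
      unfold fT
      split_ifs
      · rw [se_ps_norm]
        norm_num
      · simp
    rw [Finset.sum_const, Finset.card_univ, ZMod.card, nsmul_eq_mul, mul_one] at this
    calc (A : ℝ)⁻¹ * _ ≤ (A : ℝ)⁻¹ * A := by gcongr
      _ = 1 := inv_mul_cancel₀ hA0.ne'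
  rw [le_div_iff₀ (by positivity)]
  calc ((univ.filter fun v : ZMod A => τ ≤ ‖ft A (fT A x T k) v‖).card : ℝ) * τ ^ 2
      = ∑ v ∈ univ.filter (fun v : ZMod A => τ ≤ ‖ft A (fT A x T k) v‖), τ ^ 2 := by
        rw [Finset.sum_const, nsmul_eq_mul]
    _ ≤ ∑ v ∈ univ.filter (fun v : ZMod A => τ ≤ ‖ft A (fT A x T k) v‖),
        ‖ft A (fT A x T k) v‖ ^ 2 := by
        refine Finset.sum_le_sum fun v hv => ?_
        have := (Finset.mem_filter.mp hv).2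
        gcongr
    _ ≤ ∑ v, ‖ft A (fT A x T k) v‖ ^ 2 :=
        Finset.sum_le_sum_of_subset_of_nonneg (Finset.filter_subset _ _)
          fun _ _ _ => by positivity
    _ ≤ 1 := by rw [h1]; exact h2

/-! ### popular differences -/

theorem se_class (A : ℕ) [NeZero A] (x : ZMod A → ZMod A) (T : Finset (ZMod A)) (h : ℕ)
    (S : Finset ℕ) (σ : ℝ) (K : ℕ → ℤ) (hσ : 0 < σ)
    (hK : ∀ d ∈ S, σ ≤ ‖ft A (fT A x T (d * h : ℕ)) (K d : ZMod A)‖) :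
    σ ^ 2 / 2 * (S.card : ℝ) ^ 2 ≤ (((S ×ˢ S).filter fun p : ℕ × ℕ =>
      σ ^ 2 / 2 ≤ ‖ft A (fT A x T (((p.2 : ℤ) - p.1) * h))
        ((K p.2 - K p.1 : ℤ) : ZMod A)‖).card : ℝ) := by
  set g : ℕ × ℕ → ℝ := fun p => ‖ft A (fT A x T (((p.2 : ℤ) - p.1) * h))
        ((K p.2 - K p.1 : ℤ) : ZMod A)‖ with hg
  have h1 := se_pos A S T (fun d z => (((d * h : ℕ) : ℤ) : ZMod A) * x z + (K d : ZMod A) * z)
    σ hσ.le (fun d hd => by
      have := hK d hd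
      rw [se_ft] at this
      exact this)
  have h2 : ∀ d d' : ℕ, ‖(A : ℂ)⁻¹ * ∑ z ∈ T, ps A (((((d' * h : ℕ) : ℤ) : ZMod A) * x z +
      (K d' : ZMod A) * z) - ((((d * h : ℕ) : ℤ) : ZMod A) * x z + (K d : ZMod A) * z))‖ =
      g (d, d') := by
    intro d d'
    rw [hg]
    simp only
    rw [se_ft]
    congr 2
    refine Finset.sum_congr rfl fun z _ => ?_
    congr 1
    push_cast
    ring
  have h3 : ∑ p ∈ S ×ˢ S, g p ≤ (((S ×ˢ S).filter fun p => σ ^ 2 / 2 ≤ g p).card : ℝ) +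
      σ ^ 2 / 2 * (S.card : ℝ) ^ 2 := by
    calc ∑ p ∈ S ×ˢ S, g p ≤ ∑ p ∈ S ×ˢ S, ((if σ ^ 2 / 2 ≤ g p then (1 : ℝ) else 0) +
          σ ^ 2 / 2) := by
          refine Finset.sum_le_sum fun p _ => ?_
          have hp1 : g p ≤ 1 := se_ft_le_one A x T _ _
          split_ifs with hp
          · have : 0 ≤ σ ^ 2 / 2 := by positivity
            linarith
          · push Not at hp
            linarith
      _ = _ := by
          rw [Finset.sum_add_distrib, Finset.sum_const, Finset.card_product, nsmul_eq_mul,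
            Finset.sum_ite, Finset.sum_const, Finset.sum_const_zero, nsmul_eq_mul]
          push_cast
          ring
  have h4 : ∑ i ∈ S, ∑ j ∈ S, ‖(A : ℂ)⁻¹ * ∑ z ∈ T, ps A
      (((((i * h : ℕ) : ℤ) : ZMod A) * x z + (K i : ZMod A) * z) -
      ((((j * h : ℕ) : ℤ) : ZMod A) * x z + (K j : ZMod A) * z))‖ = ∑ p ∈ S ×ˢ S, g p := by
    rw [Finset.sum_product_right]
    refine Finset.sum_congr rfl fun i _ => Finset.sum_congr rfl fun j _ => ?_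
    rw [h2 j i]
  have h5 : σ ^ 2 * (S.card : ℝ) ^ 2 ≤ ∑ p ∈ S ×ˢ S, g p := by
    rw [← h4]
    exact h1
  linarith

theorem se_pairs (A : ℕ) [NeZero A] (x : ZMod A → ZMod A) (T : Finset (ZMod A)) (h : ℕ)
    (B : Finset ℕ) (X θ σ : ℝ) (K : ℕ → ℤ) (hX : 1 ≤ X) (hθ : 0 < θ) (hσ : 0 < σ)
    (hB : ∀ d ∈ B, (d : ℝ) ≤ X) (hBc : θ * X ≤ B.card)
    (hK : ∀ d ∈ B, σ ≤ ‖ft A (fT A x T (d * h : ℕ)) (K d : ZMod A)‖)
    (E : ℕ) (hE : 1 ≤ E) (hEX : (E : ℝ) ≤ X) :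
    σ ^ 2 * θ ^ 2 * X * E / 4 ≤ (((B ×ˢ B).filter fun p : ℕ × ℕ => p.1 / E = p.2 / E ∧
      σ ^ 2 / 2 ≤ ‖ft A (fT A x T (((p.2 : ℤ) - p.1) * h))
        ((K p.2 - K p.1 : ℤ) : ZMod A)‖).card : ℝ) := by
  classical
  have hE0 : (0 : ℝ) < E := by exact_mod_cast hE
  set P : Finset (ℕ × ℕ) := (B ×ˢ B).filter fun p : ℕ × ℕ => p.1 / E = p.2 / E ∧
      σ ^ 2 / 2 ≤ ‖ft A (fT A x T (((p.2 : ℤ) - p.1) * h))
        ((K p.2 - K p.1 : ℤ) : ZMod A)‖ with hP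
  set m : ℕ := ⌊X⌋₊ / E + 1 with hm
  have hX0 : 0 ≤ X := by linarith
  have hmaps : ∀ d ∈ B, d / E ∈ range m := by
    intro d hd
    have h1 : d ≤ ⌊X⌋₊ := Nat.le_floor (hB d hd)
    rw [Finset.mem_range, hm, Nat.lt_succ_iff]
    exact Nat.div_le_div_right h1
  set Bi : ℕ → Finset ℕ := fun i => B.filter fun d => d / E = i with hBi
  have c1 : (B.card : ℝ) = ∑ i ∈ range m, ((Bi i).card : ℝ) := by
    have := Finset.card_eq_sum_card_fiberwise (f := fun d => d / E) (s := B) (t := range m)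
      (by intro d hd; exact hmaps d hd)
    exact_mod_cast this
  have c2 : (P.card : ℝ) = ∑ i ∈ range m, ((P.filter fun p => p.1 / E = i).card : ℝ) := by
    have := Finset.card_eq_sum_card_fiberwise (f := fun p : ℕ × ℕ => p.1 / E) (s := P)
      (t := range m) (by
        intro p hp
        have hp' := Finset.mem_filter.mp (Finset.mem_coe.mp hp)
        exact hmaps p.1 (Finset.mem_product.mp hp'.1).1)
    exact_mod_cast this
  have c3 : ∀ i ∈ range m, σ ^ 2 / 2 * ((Bi i).card : ℝ) ^ 2 ≤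
      ((P.filter fun p => p.1 / E = i).card : ℝ) := by
    intro i _
    refine (se_class A x T h (Bi i) σ K hσ ?_).trans ?_
    · intro d hd
      exact hK d (Finset.mem_filter.mp hd).1
    · have hsub : ((Bi i ×ˢ Bi i).filter fun p : ℕ × ℕ =>
          σ ^ 2 / 2 ≤ ‖ft A (fT A x T (((p.2 : ℤ) - p.1) * h))
            ((K p.2 - K p.1 : ℤ) : ZMod A)‖) ⊆ P.filter fun p => p.1 / E = i := by
        intro p hp
        obtain ⟨hp1, hp2⟩ := Finset.mem_filter.mp hp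
        obtain ⟨hp3, hp4⟩ := Finset.mem_product.mp hp1
        obtain ⟨hp5, hp6⟩ := Finset.mem_filter.mp hp3
        obtain ⟨hp7, hp8⟩ := Finset.mem_filter.mp hp4
        exact Finset.mem_filter.mpr ⟨Finset.mem_filter.mpr
          ⟨Finset.mem_product.mpr ⟨hp5, hp7⟩, hp6.trans hp8.symm, hp2⟩, hp6⟩
      exact_mod_cast Finset.card_le_card hsub
  have c4 : (B.card : ℝ) ^ 2 ≤ m * ∑ i ∈ range m, ((Bi i).card : ℝ) ^ 2 := by
    rw [c1]
    have := sq_sum_le_card_mul_sum_sq (s := range m) (f := fun i => ((Bi i).card : ℝ))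
    rw [Finset.card_range] at this
    exact this
  have c5 : (m : ℝ) ≤ 2 * X / E := by
    have h1 : ((⌊X⌋₊ / E : ℕ) : ℝ) ≤ X / E := by
      refine Nat.cast_div_le.trans ?_
      gcongr
      exact Nat.floor_le hX0
    have h2 : (1 : ℝ) ≤ X / E := by
      rw [le_div_iff₀ hE0]
      linarith
    rw [hm]
    push_cast
    have : 2 * X / E = X / E + X / E := by ring
    linarith
  have c6 : σ ^ 2 / 2 * ∑ i ∈ range m, ((Bi i).card : ℝ) ^ 2 ≤ P.card := by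
    rw [c2, Finset.mul_sum]
    exact Finset.sum_le_sum c3
  have hS0 : 0 ≤ ∑ i ∈ range m, ((Bi i).card : ℝ) ^ 2 := Finset.sum_nonneg fun i _ => by
    positivity
  have c7 : (θ * X) ^ 2 ≤ 2 * X / E * ∑ i ∈ range m, ((Bi i).card : ℝ) ^ 2 := by
    calc (θ * X) ^ 2 ≤ (B.card : ℝ) ^ 2 := by gcongr
      _ ≤ m * ∑ i ∈ range m, ((Bi i).card : ℝ) ^ 2 := c4
      _ ≤ _ := mul_le_mul_of_nonneg_right c5 hS0
  have c8 : θ ^ 2 * X * E / 2 ≤ ∑ i ∈ range m, ((Bi i).card : ℝ) ^ 2 := by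
    have hXpos : 0 < X := by linarith
    clear_value Bi m
    generalize (∑ i ∈ range m, ((Bi i).card : ℝ) ^ 2) = W at c7
    have h1 : (θ * X) ^ 2 * E ≤ 2 * X * W := by
      have := mul_le_mul_of_nonneg_right c7 hE0.le
      calc (θ * X) ^ 2 * E ≤ 2 * X / E * W * E := this
        _ = _ := by field_simp
    have h2 : X * (θ ^ 2 * X * E / 2) ≤ X * W := by
      nlinarith
    exact le_of_mul_le_mul_left h2 hXpos
  calc σ ^ 2 * θ ^ 2 * X * E / 4 = σ ^ 2 / 2 * (θ ^ 2 * X * E / 2) := by ring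
    _ ≤ σ ^ 2 / 2 * ∑ i ∈ range m, ((Bi i).card : ℝ) ^ 2 := by gcongr
    _ ≤ P.card := c6

open Classical in
theorem popdiff (A : ℕ) [NeZero A] (x : ZMod A → ZMod A) (T : Finset (ZMod A)) (h : ℕ)
    (B : Finset ℕ) (X θ σ Km : ℝ) (K : ℕ → ℤ) (hX : 1 ≤ X) (hθ : 0 < θ) (hσ : 0 < σ)
    (hσ1 : σ ≤ 1) (hB : ∀ d ∈ B, (d : ℝ) ≤ X) (hBc : θ * X ≤ B.card)
    (hK : ∀ d ∈ B, |(K d : ℝ)| ≤ Km ∧
      σ ≤ ‖ft A (fT A x T (d * h : ℕ)) (K d : ZMod A)‖) (hKm : 4 * Km < A)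
    (E : ℕ) (hE : 48 / (σ ^ 2 * θ ^ 2) ≤ E) (hEX : (E : ℝ) ≤ X)
    (Exc : Finset ℤ) (hExc : Exc.card ≤ 3) :
    ∃ e ψ : ℤ, e ∉ Exc ∧ |e| < E ∧ |(ψ : ℝ)| ≤ 2 * Km ∧
      σ ^ 6 * θ ^ 2 / 64 * X ≤
        ((B.filter fun d : ℕ => ∃ d' ∈ B, (d' : ℤ) = (d : ℤ) + e ∧ K d' = K d + ψ).card : ℝ) := by
  have hE0 : (0 : ℝ) < E := lt_of_lt_of_le (by positivity) hE
  have hE1 : 1 ≤ E := by exact_mod_cast hE0
  have hX0 : 0 < X := by linarith
  have hpairs := se_pairs A x T h B X θ σ K hX hθ hσ hB hBc (fun d hd => (hK d hd).2) E hE1 hEX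
  set P : Finset (ℕ × ℕ) := (B ×ˢ B).filter fun p : ℕ × ℕ => p.1 / E = p.2 / E ∧
      σ ^ 2 / 2 ≤ ‖ft A (fT A x T (((p.2 : ℤ) - p.1) * h))
        ((K p.2 - K p.1 : ℤ) : ZMod A)‖ with hP
  have hPm : ∀ p ∈ P, p.1 ∈ B ∧ p.2 ∈ B ∧ p.1 / E = p.2 / E ∧
      σ ^ 2 / 2 ≤ ‖ft A (fT A x T (((p.2 : ℤ) - p.1) * h))
        ((K p.2 - K p.1 : ℤ) : ZMod A)‖ := by
    intro p hp
    obtain ⟨h1, h2, h3⟩ := Finset.mem_filter.mp hp
    obtain ⟨h4, h5⟩ := Finset.mem_product.mp h1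
    exact ⟨h4, h5, h2, h3⟩
  -- exceptional differences
  set P1 : Finset (ℕ × ℕ) := P.filter fun p => (p.2 : ℤ) - p.1 ∉ Exc with hP1
  set P0 : Finset (ℕ × ℕ) := P.filter fun p => ¬ ((p.2 : ℤ) - p.1 ∉ Exc) with hP0
  have hsplit : (P.card : ℝ) = P1.card + P0.card := by
    have := Finset.card_filter_add_card_filter_not (s := P) (fun p => (p.2 : ℤ) - p.1 ∉ Exc)
    rw [← this, Nat.cast_add]
  have hBcard : (B.card : ℝ) ≤ 2 * X := by
    have h1 : B ⊆ range (⌊X⌋₊ + 1) := by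
      intro d hd
      rw [Finset.mem_range, Nat.lt_succ_iff]
      exact Nat.le_floor (hB d hd)
    have h2 := Finset.card_le_card h1
    rw [Finset.card_range] at h2
    have h3 : (B.card : ℝ) ≤ (⌊X⌋₊ : ℝ) + 1 := by exact_mod_cast h2
    have h4 := Nat.floor_le hX0.le
    linarith
  have hP0c : (P0.card : ℝ) ≤ 6 * X := by
    have h1 : P0.card ≤ (Exc ×ˢ B).card := by
      refine Finset.card_le_card_of_injOn (fun p : ℕ × ℕ => ((p.2 : ℤ) - p.1, p.1)) ?_ ?_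
      · intro p hp
        obtain ⟨hp1, hp2⟩ := Finset.mem_filter.mp (Finset.mem_coe.mp hp)
        push Not at hp2
        exact Finset.mem_coe.mpr (Finset.mem_product.mpr ⟨hp2, (hPm p hp1).1⟩)
      · intro p _ q _ hpq
        simp only [Prod.mk.injEq] at hpq
        obtain ⟨h1, h2⟩ := hpq
        refine Prod.ext h2 ?_
        rw [h2] at h1
        have : (p.2 : ℤ) = q.2 := by linarith
        exact_mod_cast this
    rw [Finset.card_product] at h1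
    have h2 : (P0.card : ℝ) ≤ (Exc.card : ℝ) * B.card := by exact_mod_cast h1
    have h3 : (Exc.card : ℝ) ≤ 3 := by exact_mod_cast hExc
    calc (P0.card : ℝ) ≤ (Exc.card : ℝ) * B.card := h2
      _ ≤ 3 * (2 * X) := by gcongr
      _ = 6 * X := by ring
  have hEE : 48 ≤ σ ^ 2 * θ ^ 2 * E := by
    have h1 : 0 < σ ^ 2 * θ ^ 2 := by positivity
    rw [div_le_iff₀ h1] at hE
    linarith
  have hP1c : σ ^ 2 * θ ^ 2 * X * E / 8 ≤ P1.card := by
    have h1 : 6 * X ≤ σ ^ 2 * θ ^ 2 * X * E / 8 := by nlinarith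
    linarith
  -- the map to (e, ψ)
  set φ : ℕ × ℕ → ℤ × ℤ := fun p => ((p.2 : ℤ) - p.1, K p.2 - K p.1) with hφ
  set Im : Finset (ℤ × ℤ) := P1.image φ with hIm
  have hP1m : ∀ p ∈ P1, p ∈ P ∧ (p.2 : ℤ) - p.1 ∉ Exc := fun p hp => Finset.mem_filter.mp hp
  have habs : ∀ p ∈ P, |(p.2 : ℤ) - p.1| < E := by
    intro p hp
    obtain ⟨_, _, h3, _⟩ := hPm p hp
    have h4 : p.1 < (p.1 / E + 1) * E := Nat.lt_mul_of_div_lt (Nat.lt_succ_self _) hE1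
    have h5 : p.2 < (p.2 / E + 1) * E := Nat.lt_mul_of_div_lt (Nat.lt_succ_self _) hE1
    have h6 : p.1 / E * E ≤ p.1 := Nat.div_mul_le_self _ _
    have h7 : p.2 / E * E ≤ p.2 := Nat.div_mul_le_self _ _
    rw [h3] at h4 h6
    rw [abs_lt]
    constructor
    · have : p.1 < p.2 + E := by nlinarith
      omega
    · have : p.2 < p.1 + E := by nlinarith
      omega
  have hψ : ∀ p ∈ P, |((K p.2 - K p.1 : ℤ) : ℝ)| ≤ 2 * Km := by
    intro p hp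
    obtain ⟨h1, h2, _, _⟩ := hPm p hp
    have h3 := (hK _ h1).1
    have h4 := (hK _ h2).1
    push_cast
    calc |(K p.2 : ℝ) - K p.1| ≤ |(K p.2 : ℝ)| + |(K p.1 : ℝ)| := abs_sub _ _
      _ ≤ 2 * Km := by linarith
  have hImc : (Im.card : ℝ) ≤ 8 * E / σ ^ 4 := by
    have h1 : Im.card = ∑ e ∈ Ioo (-(E : ℤ)) E, (Im.filter fun q => q.1 = e).card := by
      refine Finset.card_eq_sum_card_fiberwise (f := fun q : ℤ × ℤ => q.1) ?_
      intro q hq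
      obtain ⟨p, hp, rfl⟩ := Finset.mem_image.mp (Finset.mem_coe.mp hq)
      have := habs p (hP1m p hp).1
      rw [abs_lt] at this
      exact Finset.mem_coe.mpr (Finset.mem_Ioo.mpr this)
    have h2 : ∀ e ∈ Ioo (-(E : ℤ)) E, ((Im.filter fun q => q.1 = e).card : ℝ) ≤ 4 / σ ^ 4 := by
      intro e _
      have h3 := se_large A x T (e * h) (σ ^ 2 / 2) (by positivity)
      have h4 : (Im.filter fun q => q.1 = e).card ≤
          (univ.filter fun v : ZMod A => σ ^ 2 / 2 ≤ ‖ft A (fT A x T (e * h)) v‖).card := by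
        refine Finset.card_le_card_of_injOn (fun q : ℤ × ℤ => (q.2 : ZMod A)) ?_ ?_
        · intro q hq
          obtain ⟨hq1, hq2⟩ := Finset.mem_filter.mp (Finset.mem_coe.mp hq)
          obtain ⟨p, hp, rfl⟩ := Finset.mem_image.mp hq1
          obtain ⟨_, _, _, h8⟩ := hPm p (hP1m p hp).1
          refine Finset.mem_coe.mpr (Finset.mem_filter.mpr ⟨Finset.mem_univ _, ?_⟩)
          simp only [hφ] at hq2 ⊢
          rw [← hq2]
          exact h8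
        · intro q hq r hr hqr
          obtain ⟨hq1, hq2⟩ := Finset.mem_filter.mp (Finset.mem_coe.mp hq)
          obtain ⟨hr1, hr2⟩ := Finset.mem_filter.mp (Finset.mem_coe.mp hr)
          obtain ⟨p, hp, rfl⟩ := Finset.mem_image.mp hq1
          obtain ⟨p', hp', rfl⟩ := Finset.mem_image.mp hr1
          refine Prod.ext (hq2.trans hr2.symm) ?_
          simp only [hφ] at hqr ⊢
          have h9 := hψ p (hP1m p hp).1
          have h10 := hψ p' (hP1m p' hp').1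
          have h11 : (A : ℤ) ∣ (K p'.2 - K p'.1) - (K p.2 - K p.1) :=
            (ZMod.intCast_eq_intCast_iff_dvd_sub _ _ _).mp hqr
          have h12 : |(K p'.2 - K p'.1) - (K p.2 - K p.1)| < (A : ℤ) := by
            have : |(((K p'.2 - K p'.1) - (K p.2 - K p.1) : ℤ) : ℝ)| < (A : ℝ) := by
              rw [Int.cast_sub]
              calc |((K p'.2 - K p'.1 : ℤ) : ℝ) - ((K p.2 - K p.1 : ℤ) : ℝ)|
                  ≤ |((K p'.2 - K p'.1 : ℤ) : ℝ)| + |((K p.2 - K p.1 : ℤ) : ℝ)| := abs_sub _ _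
                _ ≤ 4 * Km := by linarith
                _ < A := hKm
            exact_mod_cast this
          have h13 := Int.eq_zero_of_abs_lt_dvd h11 h12
          linarith
      have h5 : ((Im.filter fun q => q.1 = e).card : ℝ) ≤ 1 / (σ ^ 2 / 2) ^ 2 :=
        le_trans (by exact_mod_cast h4) h3
      calc ((Im.filter fun q => q.1 = e).card : ℝ) ≤ 1 / (σ ^ 2 / 2) ^ 2 := h5
        _ = 4 / σ ^ 4 := by
          field_simp
          ring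
    rw [h1]
    push_cast
    calc ∑ e ∈ Ioo (-(E : ℤ)) E, ((Im.filter fun q => q.1 = e).card : ℝ)
        ≤ ∑ e ∈ Ioo (-(E : ℤ)) E, 4 / σ ^ 4 := Finset.sum_le_sum h2
      _ = ((Ioo (-(E : ℤ)) E).card : ℝ) * (4 / σ ^ 4) := by
          rw [Finset.sum_const, nsmul_eq_mul]
      _ ≤ (2 * E) * (4 / σ ^ 4) := by
          gcongr
          rw [Int.card_Ioo]
          have : ((E : ℤ) - -(E : ℤ) - 1).toNat ≤ 2 * E := by omega
          exact_mod_cast this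
      _ = 8 * E / σ ^ 4 := by ring
  -- pigeonhole
  have hpig : ∃ q ∈ Im, σ ^ 6 * θ ^ 2 / 64 * X ≤ ((P1.filter fun p => φ p = q).card : ℝ) := by
    by_contra hcon
    push Not at hcon
    have h1 : P1.card = ∑ q ∈ Im, (P1.filter fun p => φ p = q).card :=
      Finset.card_eq_sum_card_image φ P1
    have hpos : 0 < σ ^ 2 * θ ^ 2 * X * E / 8 := by positivity
    have hP1pos : (0 : ℝ) < P1.card := lt_of_lt_of_le hpos hP1c
    have hIne : Im.Nonempty := by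
      have : P1.Nonempty := Finset.card_pos.mp (by exact_mod_cast hP1pos)
      exact this.image φ
    have h2 : (P1.card : ℝ) < ∑ q ∈ Im, (σ ^ 6 * θ ^ 2 / 64 * X) := by
      rw [h1]
      push_cast
      exact Finset.sum_lt_sum_of_nonempty hIne hcon
    rw [Finset.sum_const, nsmul_eq_mul] at h2
    have h3 : (Im.card : ℝ) * (σ ^ 6 * θ ^ 2 / 64 * X) ≤
        8 * E / σ ^ 4 * (σ ^ 6 * θ ^ 2 / 64 * X) := by gcongr
    have h4 : 8 * E / σ ^ 4 * (σ ^ 6 * θ ^ 2 / 64 * X) = σ ^ 2 * θ ^ 2 * X * E / 8 := by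
      field_simp
      ring
    linarith
  obtain ⟨q, hq, hqc⟩ := hpig
  obtain ⟨p, hp, hpq⟩ := Finset.mem_image.mp hq
  refine ⟨q.1, q.2, ?_, ?_, ?_, ?_⟩
  · rw [← hpq]
    exact (hP1m p hp).2
  · rw [← hpq]
    exact habs p (hP1m p hp).1
  · rw [← hpq]
    exact hψ p (hP1m p hp).1
  · refine hqc.trans ?_
    have : (P1.filter fun p => φ p = q).card ≤ (B.filter fun d : ℕ =>
        ∃ d' ∈ B, (d' : ℤ) = (d : ℤ) + q.1 ∧ K d' = K d + q.2).card := by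
      refine Finset.card_le_card_of_injOn (fun p : ℕ × ℕ => p.1) ?_ ?_
      · intro r hr
        obtain ⟨hr1, hr2⟩ := Finset.mem_filter.mp (Finset.mem_coe.mp hr)
        obtain ⟨h1, h2, _, _⟩ := hPm r (hP1m r hr1).1
        refine Finset.mem_coe.mpr (Finset.mem_filter.mpr ⟨h1, r.2, h2, ?_, ?_⟩)
        · rw [← hr2]
          simp only [hφ]
          ring
        · rw [← hr2]
          simp only [hφ]
          ring
      · intro r hr s hs hrs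
        obtain ⟨hr1, hr2⟩ := Finset.mem_filter.mp (Finset.mem_coe.mp hr)
        obtain ⟨hs1, hs2⟩ := Finset.mem_filter.mp (Finset.mem_coe.mp hs)
        simp only at hrs
        have h1 : φ r = φ s := hr2.trans hs2.symm
        simp only [hφ, Prod.mk.injEq] at h1
        refine Prod.ext hrs ?_
        have h2 := h1.1
        rw [hrs] at h2
        have : (r.2 : ℤ) = s.2 := by linarith
        exact_mod_cast this
    exact_mod_cast this

/-! ### step E -/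

theorem se_alg (d e1 e2 k00 k10 k01 k11 ψ1 ψ2 : ℤ) (h10 : (d + e1) * k10 = d * k00 + ψ1)
    (h01 : (d + e2) * k01 = d * k00 + ψ2)
    (h11 : (d + e2 + e1) * k11 = (d + e2) * k01 + ψ1) :
    (d + e1 + e2) * (k11 - k10 - k01 + k00) =
        -(e2 * (k10 - k00) + e1 * (k01 - k00)) ∧
      4 * (e2 * ψ1 - e1 * ψ2) - (k11 - k10 - k01 + k00) * (e2 ^ 2 - e1 ^ 2) =
        (2 * d + e1 + e2) * (2 * (e2 * (k10 - k00) - e1 * (k01 - k00)) -
          (e1 - e2) * (k11 - k10 - k01 + k00)) := by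
  constructor
  · linear_combination h11 - h10
  · linear_combination (-2 * e1 - 2 * e2) * h10 + 4 * e1 * h01 + 2 * (e1 - e2) * h11

theorem se_est (X E Km d e1 e2 k00 k10 k01 k11 ψ1 ψ2 : ℝ) (hX : 1 ≤ X) (hKm : 1 ≤ Km)
    (hE : 100 * E ≤ X) (h10 : (d + e1) * k10 = d * k00 + ψ1)
    (h01 : (d + e2) * k01 = d * k00 + ψ2)
    (hc : (d + e1 + e2) * (k11 - k10 - k01 + k00) =
        -(e2 * (k10 - k00) + e1 * (k01 - k00)))
    (hd10 : X / 4 ≤ d + e1) (hd01 : X / 4 ≤ d + e2) (hd11 : X / 4 ≤ d + e1 + e2)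
    (he1 : |e1| ≤ E) (he2 : |e2| ≤ E) (hψ1 : |ψ1| ≤ 2 * Km) (hψ2 : |ψ2| ≤ 2 * Km)
    (hk : |k00| * X ≤ 4 * Km) :
    |k11 - k10 - k01 + k00| ≤ 128 * E * Km / X ^ 2 := by
  have hX0 : 0 < X := by linarith
  have hE0 : 0 ≤ E := (abs_nonneg _).trans he1
  have hkE : ∀ e : ℝ, |e| ≤ E → |e * k00| ≤ Km / 25 := by
    intro e he
    rw [abs_mul]
    calc |e| * |k00| ≤ E * |k00| := by gcongr
      _ ≤ X / 100 * |k00| := by
          gcongr
          linarith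
      _ ≤ Km / 25 := by linarith
  have ha : |k10 - k00| * X ≤ 9 * Km := by
    have h1 : (d + e1) * (k10 - k00) = ψ1 - e1 * k00 := by linear_combination h10
    have h2 : X / 4 * |k10 - k00| ≤ |ψ1 - e1 * k00| := by
      rw [← h1, abs_mul, abs_of_nonneg (by linarith : 0 ≤ d + e1)]
      gcongr
    have h3 : |ψ1 - e1 * k00| ≤ 2 * Km + Km / 25 :=
      (abs_sub _ _).trans (add_le_add hψ1 (hkE e1 he1))
    nlinarith
  have hb : |k01 - k00| * X ≤ 9 * Km := by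
    have h1 : (d + e2) * (k01 - k00) = ψ2 - e2 * k00 := by linear_combination h01
    have h2 : X / 4 * |k01 - k00| ≤ |ψ2 - e2 * k00| := by
      rw [← h1, abs_mul, abs_of_nonneg (by linarith : 0 ≤ d + e2)]
      gcongr
    have h3 : |ψ2 - e2 * k00| ≤ 2 * Km + Km / 25 :=
      (abs_sub _ _).trans (add_le_add hψ2 (hkE e2 he2))
    nlinarith
  have hc2 : X / 4 * |k11 - k10 - k01 + k00| ≤ |e2 * (k10 - k00) + e1 * (k01 - k00)| := by
    rw [← abs_neg (e2 * (k10 - k00) + e1 * (k01 - k00)), ← hc, abs_mul,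
      abs_of_nonneg (by linarith : 0 ≤ d + e1 + e2)]
    gcongr
  have hc3 : |e2 * (k10 - k00) + e1 * (k01 - k00)| ≤ E * |k10 - k00| + E * |k01 - k00| := by
    refine (abs_add_le _ _).trans ?_
    rw [abs_mul, abs_mul]
    gcongr
  rw [le_div_iff₀ (by positivity)]
  have h4 : |k11 - k10 - k01 + k00| * X ^ 2 = 4 * (X / 4 * |k11 - k10 - k01 + k00|) * X := by
    ring
  rw [h4]
  calc 4 * (X / 4 * |k11 - k10 - k01 + k00|) * X
      ≤ 4 * (E * |k10 - k00| + E * |k01 - k00|) * X := by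
        gcongr
        exact hc2.trans hc3
    _ = 4 * E * (|k10 - k00| * X) + 4 * E * (|k01 - k00| * X) := by ring
    _ ≤ 4 * E * (9 * Km) + 4 * E * (9 * Km) := by gcongr
    _ ≤ 128 * E * Km := by nlinarith [mul_nonneg hE0 (by linarith : (0 : ℝ) ≤ Km)]

/-- counting elements with a nonzero multiple -/
theorem se_bad (B2 : Finset ℕ) (cc : ℕ → ℤ) (e1 e2 Ψ : ℤ) (C0 τ0 W : ℝ) (hC0 : 0 ≤ C0)
    (hτ0 : 0 ≤ τ0) (hcc : ∀ d ∈ B2, |(cc d : ℝ)| ≤ C0)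
    (hW : ∀ c : ℤ, |(c : ℝ)| ≤ C0 → |((4 * Ψ - c * (e2 ^ 2 - e1 ^ 2) : ℤ) : ℝ)| ≤ W)
    (hdiv : ∀ n : ℕ, n ≠ 0 → (n : ℝ) ≤ W → (n.divisors.card : ℝ) ≤ τ0)
    (hs : ∀ d ∈ B2, 0 < 2 * (d : ℤ) + e1 + e2)
    (hdvd : ∀ d ∈ B2, 2 * (d : ℤ) + e1 + e2 ∣ 4 * Ψ - cc d * (e2 ^ 2 - e1 ^ 2)) :
    ((B2.filter fun d => 4 * Ψ - cc d * (e2 ^ 2 - e1 ^ 2) ≠ 0).card : ℝ) ≤
      (2 * C0 + 1) * τ0 := by
  classical
  set Bad := B2.filter fun d => 4 * Ψ - cc d * (e2 ^ 2 - e1 ^ 2) ≠ 0 with hBad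
  set n0 : ℤ := ⌊C0⌋ with hn0
  have hn00 : 0 ≤ n0 := Int.floor_nonneg.mpr hC0
  have h1 : Bad.card = ∑ c ∈ Icc (-n0) n0, (Bad.filter fun d => cc d = c).card := by
    refine Finset.card_eq_sum_card_fiberwise (f := cc) ?_
    intro d hd
    have hd1 := hcc d (Finset.mem_filter.mp (Finset.mem_coe.mp hd)).1
    have hd2 : |cc d| ≤ n0 := by
      rw [hn0, Int.le_floor]
      rw [Int.cast_abs]
      exact hd1
    exact Finset.mem_coe.mpr (Finset.mem_Icc.mpr (abs_le.mp hd2))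
  have h2 : ∀ c ∈ Icc (-n0) n0, ((Bad.filter fun d => cc d = c).card : ℝ) ≤ τ0 := by
    intro c hc
    rcases Finset.eq_empty_or_nonempty (Bad.filter fun d => cc d = c) with hemp | ⟨d0, hd0⟩
    · rw [hemp]
      simpa using hτ0
    · have hcC : |(c : ℝ)| ≤ C0 := by
        have := abs_le.mpr (Finset.mem_Icc.mp hc)
        rw [hn0, Int.le_floor, Int.cast_abs] at this
        exact this
      obtain ⟨hd1, hd2⟩ := Finset.mem_filter.mp hd0
      obtain ⟨hd3, hd4⟩ := Finset.mem_filter.mp hd1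
      rw [hd2] at hd4
      set n := (4 * Ψ - c * (e2 ^ 2 - e1 ^ 2)).natAbs with hn
      have hn1 : n ≠ 0 := Int.natAbs_ne_zero.mpr hd4
      have hn2 : (n : ℝ) ≤ W := by
        rw [hn, Nat.cast_natAbs, Int.cast_abs]
        exact hW c hcC
      refine le_trans ?_ (hdiv n hn1 hn2)
      have : (Bad.filter fun d => cc d = c).card ≤ n.divisors.card := by
        refine Finset.card_le_card_of_injOn (fun d : ℕ => (2 * (d : ℤ) + e1 + e2).toNat) ?_ ?_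
        · intro d hd
          obtain ⟨he1, he2⟩ := Finset.mem_filter.mp (Finset.mem_coe.mp hd)
          obtain ⟨he3, he4⟩ := Finset.mem_filter.mp he1
          refine Finset.mem_coe.mpr (Nat.mem_divisors.mpr ⟨?_, hn1⟩)
          have h5 := hdvd d he3
          rw [he2] at h5
          have h6 := hs d he3
          have h7 : (((2 * (d : ℤ) + e1 + e2).toNat : ℕ) : ℤ) = 2 * (d : ℤ) + e1 + e2 :=
            Int.toNat_of_nonneg h6.le
          have h8 : (((2 * (d : ℤ) + e1 + e2).toNat : ℕ) : ℤ) ∣ (n : ℤ) := by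
            rw [h7, hn, Int.dvd_natAbs]
            exact h5
          exact_mod_cast h8
        · intro d hd d' hd' hdd
          obtain ⟨he1, _⟩ := Finset.mem_filter.mp (Finset.mem_coe.mp hd)
          obtain ⟨he1', _⟩ := Finset.mem_filter.mp (Finset.mem_coe.mp hd')
          have h6 := hs d (Finset.mem_filter.mp he1).1
          have h6' := hs d' (Finset.mem_filter.mp he1').1
          simp only at hdd
          omega
      exact_mod_cast this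
  rw [h1]
  push_cast
  calc ∑ c ∈ Icc (-n0) n0, ((Bad.filter fun d => cc d = c).card : ℝ)
      ≤ ∑ c ∈ Icc (-n0) n0, τ0 := Finset.sum_le_sum h2
    _ = ((Icc (-n0) n0).card : ℝ) * τ0 := by rw [Finset.sum_const, nsmul_eq_mul]
    _ ≤ (2 * C0 + 1) * τ0 := by
        refine mul_le_mul_of_nonneg_right ?_ hτ0
        rw [Int.card_Icc]
        have h3 : (((n0 + 1 - -n0).toNat : ℕ) : ℝ) = 2 * (n0 : ℝ) + 1 := by
          have : (((n0 + 1 - -n0).toNat : ℕ) : ℤ) = 2 * n0 + 1 := by omega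
          exact_mod_cast this
        rw [h3]
        have := Int.floor_le C0
        linarith

/-- the leading coefficient vanishes -/
theorem se_lead (X Km θ2 : ℝ) (E : ℝ) (Good : Finset ℕ) (k : ℕ → ℤ) (e1 e2 ψ1 c0 : ℤ)
    (hX : 1 ≤ X) (hKm : 1 ≤ Km) (hE : 100 * E ≤ X) (he1 : |(e1 : ℝ)| ≤ E)
    (he2 : |(e2 : ℝ)| ≤ E) (hθX : 8 ≤ θ2 * X) (hX3 : 256 * E ^ 2 * Km < θ2 * X ^ 3)
    (hG : θ2 / 2 * X ≤ Good.card)
    (hd : ∀ d ∈ Good, X / 4 ≤ (d : ℝ) ∧ |(k d : ℝ)| * X ≤ 4 * Km ∧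
      4 * e1 * e2 * k d = 4 * e2 * ψ1 + (d + e1) * c0 * (2 * d + e1 + 3 * e2)) : c0 = 0 := by
  by_contra hc0
  have hX0 : 0 < X := by linarith
  have hE0 : 0 ≤ E := (abs_nonneg _).trans he1
  have hne : Good.Nonempty := by
    rw [← Finset.card_pos]
    have : (0 : ℝ) < Good.card := by linarith
    exact_mod_cast this
  set dm := Good.min' hne with hdm
  set dM := Good.max' hne with hdM
  have hm := hd dm (Finset.min'_mem _ hne)
  have hM := hd dM (Finset.max'_mem _ hne)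
  have hle : dm ≤ dM := Finset.min'_le_max' _ hne
  have hcard : (Good.card : ℝ) ≤ (dM : ℝ) - dm + 1 := by
    have h1 : Good ⊆ Icc dm dM := fun d hd =>
      Finset.mem_Icc.mpr ⟨Finset.min'_le _ _ hd, Finset.le_max' _ _ hd⟩
    have h2 := Finset.card_le_card h1
    rw [Nat.card_Icc] at h2
    have h3 : Good.card + dm ≤ dM + 1 := by omega
    have h4 : (Good.card : ℝ) + dm ≤ dM + 1 := by exact_mod_cast h3
    linarith
  have hgap : 3 / 8 * (θ2 * X) ≤ (dM : ℝ) - dm := by linarith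
  have hident : (4 * e1 * e2 * (k dM - k dm) : ℤ) =
      c0 * ((dM - dm) * (2 * (dM + dm) + 3 * (e1 + e2))) := by
    linear_combination hM.2.2 - hm.2.2
  have hidentR : (4 * e1 * e2 * (k dM - k dm) : ℝ) =
      c0 * ((dM - dm) * (2 * (dM + dm) + 3 * (e1 + e2))) := by exact_mod_cast hident
  have hc1 : (1 : ℝ) ≤ |(c0 : ℝ)| := by
    have := Int.one_le_abs hc0
    exact_mod_cast this
  have hrhs : 3 / 8 * (θ2 * X) * (94 / 100 * X) ≤
      |(c0 : ℝ) * ((dM - dm) * (2 * (dM + dm) + 3 * (e1 + e2)))| := by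
    have h1 := abs_le.mp he1
    have h2 := abs_le.mp he2
    have h3 : 94 / 100 * X ≤ 2 * ((dM : ℝ) + dm) + 3 * (e1 + e2) := by
      linarith [hm.1, hM.1]
    have h4 : 0 ≤ (dM : ℝ) - dm := by
      have : (dm : ℝ) ≤ dM := by exact_mod_cast hle
      linarith
    have h5 : 3 / 8 * (θ2 * X) * (94 / 100 * X) ≤
        ((dM : ℝ) - dm) * (2 * (dM + dm) + 3 * (e1 + e2)) := by
      have h6 : 0 ≤ 94 / 100 * X := by positivity
      exact mul_le_mul hgap h3 h6 h4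
    have h7 : 0 ≤ ((dM : ℝ) - dm) * (2 * (dM + dm) + 3 * (e1 + e2)) :=
      mul_nonneg h4 (by linarith)
    rw [abs_mul, abs_of_nonneg h7]
    calc 3 / 8 * (θ2 * X) * (94 / 100 * X) ≤ 1 * (((dM : ℝ) - dm) *
          (2 * (dM + dm) + 3 * (e1 + e2))) := by rw [one_mul]; exact h5
      _ ≤ _ := mul_le_mul_of_nonneg_right hc1 h7
  have hlhs : |(4 * e1 * e2 * (k dM - k dm) : ℝ)| * X ≤ 32 * E ^ 2 * Km := by
    rw [abs_mul, abs_mul, abs_mul, abs_of_nonneg (by norm_num : (0 : ℝ) ≤ 4)]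
    have h1 : |(k dM : ℝ) - k dm| * X ≤ 8 * Km := by
      have := abs_sub (k dM : ℝ) (k dm : ℝ)
      nlinarith [hm.2.1, hM.2.1]
    calc 4 * |(e1 : ℝ)| * |(e2 : ℝ)| * |(k dM : ℝ) - k dm| * X
        = 4 * |(e1 : ℝ)| * |(e2 : ℝ)| * (|(k dM : ℝ) - k dm| * X) := by ring
      _ ≤ 4 * E * E * (8 * Km) := by gcongr
      _ = 32 * E ^ 2 * Km := by ring
  rw [hidentR] at hlhs
  have hfin : 3 / 8 * (θ2 * X) * (94 / 100 * X) * X ≤ 32 * E ^ 2 * Km :=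
    le_trans (by gcongr) hlhs
  nlinarith

theorem se_W (E Km C0 : ℝ) (e1 e2 ψ1 ψ2 c : ℤ) (hE1r : |(e1 : ℝ)| ≤ E)
    (hE2r : |(e2 : ℝ)| ≤ E) (hψ1 : |(ψ1 : ℝ)| ≤ 2 * Km) (hψ2 : |(ψ2 : ℝ)| ≤ 2 * Km)
    (hcC : |(c : ℝ)| ≤ C0) :
    |((4 * (e2 * ψ1 - e1 * ψ2) - c * (e2 ^ 2 - e1 ^ 2) : ℤ) : ℝ)| ≤
        16 * E * Km + 2 * E ^ 2 * C0 := by
  have hE0 : 0 ≤ E := (abs_nonneg _).trans hE1r
  have hC00 : 0 ≤ C0 := (abs_nonneg _).trans hcC
  push_cast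
  have g1 : |(e2 : ℝ) * ψ1| ≤ E * (2 * Km) := by
    rw [abs_mul]
    gcongr
  have g2 : |(e1 : ℝ) * ψ2| ≤ E * (2 * Km) := by
    rw [abs_mul]
    gcongr
  have g3 : |(e2 : ℝ) ^ 2 - e1 ^ 2| ≤ 2 * E ^ 2 := by
    have g4 : (e2 : ℝ) ^ 2 ≤ E ^ 2 := sq_le_sq' (by linarith [abs_le.mp hE2r]) (abs_le.mp hE2r).2
    have g5 : (e1 : ℝ) ^ 2 ≤ E ^ 2 := sq_le_sq' (by linarith [abs_le.mp hE1r]) (abs_le.mp hE1r).2
    rw [abs_le]
    constructor <;> nlinarith [sq_nonneg (e1 : ℝ), sq_nonneg (e2 : ℝ)]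
  have g6 : |(c : ℝ) * ((e2 : ℝ) ^ 2 - e1 ^ 2)| ≤ C0 * (2 * E ^ 2) := by
    rw [abs_mul]
    gcongr
  rw [abs_le] at g1 g2 g6 ⊢
  constructor <;> linarith [g1.1, g1.2, g2.1, g2.2, g6.1, g6.2]

theorem se_one (E Km C0 : ℝ) (hE : 1 ≤ E) (hKm : 1 ≤ Km) (hC0 : 0 ≤ C0) :
    (1 : ℝ) ≤ 16 * E * Km + 2 * E ^ 2 * C0 := by
  have h1 : (1 : ℝ) ≤ E * Km := by nlinarith
  have h4 : 0 ≤ 2 * E ^ 2 * C0 := by positivity
  nlinarith

open Classical in
theorem stepE (A : ℕ) [NeZero A] (x : ZMod A → ZMod A) (T : Finset (ZMod A)) (h : ℕ)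
    (D : Finset ℕ) (X θ θ1 θ2 σ Km τ0 : ℝ) (K : ℕ → ℤ) (hX : 1 ≤ X) (hθ : 0 < θ) (hσ : 0 < σ)
    (hσ1 : σ ≤ 1) (hθ1 : θ ≤ 1) (hD : ∀ d ∈ D, X / 4 ≤ d ∧ (d : ℝ) ≤ X) (hDc : θ * X ≤ D.card)
    (hKd : ∀ d ∈ D, (d : ℤ) ∣ K d)
    (hK : ∀ d ∈ D, |(K d : ℝ)| ≤ Km ∧
      σ ≤ ‖ft A (fT A x T (d * h : ℕ)) (K d : ZMod A)‖) (hKm : 4 * Km < A) (hKm1 : 1 ≤ Km)
    (h1 : θ1 = σ ^ 6 * θ ^ 2 / 64) (h2 : θ2 = σ ^ 6 * θ1 ^ 2 / 64)
    (E : ℕ) (hE : 48 / (σ ^ 2 * θ1 ^ 2) ≤ E) (hEX : 100 * (E : ℝ) ≤ X)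
    (hdiv : ∀ n : ℕ, n ≠ 0 → (n : ℝ) ≤ 16 * E * Km + 2 * E ^ 2 * (128 * E * Km / X ^ 2) →
      (n.divisors.card : ℝ) ≤ τ0)
    (hc : (2 * (128 * E * Km / X ^ 2) + 1) * τ0 ≤ θ2 * X / 2)
    (hX3 : 256 * E ^ 2 * Km < θ2 * X ^ 3) (hθX : 8 ≤ θ2 * X) :
    ∃ κ : ℤ, ∃ D' ⊆ D, θ2 / 2 * X ≤ D'.card ∧ ∀ d ∈ D', K d = (d : ℤ) * κ := by
  have hX0 : 0 < X := by linarith
  have hθ1pos : 0 < θ1 := by rw [h1]; positivity
  have hθ2pos : 0 < θ2 := by rw [h2]; positivity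
  have hE0 : (0 : ℝ) < E := lt_of_lt_of_le (by positivity) hE
  have hE1 : (1 : ℝ) ≤ E := by
    have : 1 ≤ E := by exact_mod_cast hE0
    exact_mod_cast this
  have hσ6 : σ ^ 6 ≤ 1 := pow_le_one₀ hσ.le hσ1
  have hθ2' : θ ^ 2 ≤ θ := by nlinarith
  have hθ1θ : θ1 ≤ θ := by
    rw [h1]
    have : σ ^ 6 * θ ^ 2 ≤ 1 * θ := mul_le_mul hσ6 hθ2' (by positivity) (by norm_num)
    linarith
  have hE' : 48 / (σ ^ 2 * θ ^ 2) ≤ E := by
    refine le_trans ?_ hE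
    gcongr
  have hEX' : (E : ℝ) ≤ X := by linarith
  obtain ⟨e1, ψ1, he1, he1E, hψ1, hB1⟩ := popdiff A x T h D X θ σ Km K hX hθ hσ hσ1
    (fun d hd => (hD d hd).2) hDc hK hKm E hE' hEX' {0} (by simp)
  rw [← h1] at hB1
  set B1 := D.filter fun d : ℕ => ∃ d' ∈ D, (d' : ℤ) = (d : ℤ) + e1 ∧ K d' = K d + ψ1 with hB1d
  have hB1D : ∀ d ∈ B1, d ∈ D := fun d hd => (Finset.mem_filter.mp hd).1
  obtain ⟨e2, ψ2, he2, he2E, hψ2, hB2⟩ := popdiff A x T h B1 X θ1 σ Km K hX hθ1pos hσ hσ1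
    (fun d hd => (hD d (hB1D d hd)).2) hB1 (fun d hd => hK d (hB1D d hd)) hKm E hE hEX'
    {0, e1, -e1} Finset.card_le_three
  rw [← h2] at hB2
  set B2 := B1.filter fun d : ℕ => ∃ d' ∈ B1, (d' : ℤ) = (d : ℤ) + e2 ∧ K d' = K d + ψ2 with hB2d
  simp only [Finset.mem_insert, Finset.mem_singleton, not_or] at he1 he2
  obtain ⟨he20, he21, he22⟩ := he2
  have hE1r : |(e1 : ℝ)| ≤ E := by
    have : |e1| ≤ (E : ℤ) := he1E.le
    exact_mod_cast this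
  have hE2r : |(e2 : ℝ)| ≤ E := by
    have : |e2| ≤ (E : ℤ) := he2E.le
    exact_mod_cast this
  -- the quotients
  set κ : ℤ → ℤ := fun t => K t.toNat / t with hκ
  have hκD : ∀ d ∈ D, (d : ℤ) * κ d = K d := by
    intro d hd
    simp only [hκ, Int.toNat_natCast]
    exact Int.mul_ediv_cancel' (hKd d hd)
  have hκX : ∀ d ∈ D, |(κ d : ℝ)| * X ≤ 4 * Km := by
    intro d hd
    have h3 : ((d : ℝ)) * κ d = K d := by exact_mod_cast hκD d hd
    have h4 := (hK d hd).1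
    rw [← h3, abs_mul, abs_of_nonneg (by positivity : (0 : ℝ) ≤ d)] at h4
    have h5 : X / 4 * |(κ d : ℝ)| ≤ d * |(κ d : ℝ)| :=
      mul_le_mul_of_nonneg_right (hD d hd).1 (abs_nonneg _)
    linarith
  have key : ∀ d ∈ B2, d ∈ D ∧ (d + e1) * κ (d + e1) = d * κ d + ψ1 ∧
      (d + e2) * κ (d + e2) = d * κ d + ψ2 ∧
      (d + e2 + e1) * κ (d + e2 + e1) = (d + e2) * κ (d + e2) + ψ1 ∧
      X / 4 ≤ (d : ℝ) + e1 ∧ X / 4 ≤ (d : ℝ) + e2 ∧ X / 4 ≤ (d : ℝ) + e1 + e2 := by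
    intro d hd
    obtain ⟨hd1, d01, hd01, h01a, h01b⟩ := Finset.mem_filter.mp hd
    obtain ⟨hdD, d10, hd10, h10a, h10b⟩ := Finset.mem_filter.mp hd1
    obtain ⟨hd01D, d11, hd11, h11a, h11b⟩ := Finset.mem_filter.mp hd01
    have k0 := hκD d hdD
    have k10 := hκD d10 hd10
    have k01 := hκD d01 hd01D
    have k11 := hκD d11 hd11
    rw [h10a] at k10
    rw [h01a] at k01
    rw [h11a, h01a] at k11
    refine ⟨hdD, ?_, ?_, ?_, ?_, ?_, ?_⟩
    · rw [k10, k0, h10b]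
    · rw [k01, k0, h01b]
    · rw [k11, k01, h11b]
    · have := (hD d10 hd10).1
      have h3 : (d10 : ℝ) = d + e1 := by exact_mod_cast h10a
      linarith
    · have := (hD d01 hd01D).1
      have h3 : (d01 : ℝ) = d + e2 := by exact_mod_cast h01a
      linarith
    · have := (hD d11 hd11).1
      have h3 : (d01 : ℝ) = d + e2 := by exact_mod_cast h01a
      have h4 : (d11 : ℝ) = d01 + e1 := by exact_mod_cast h11a
      linarith
  set cc : ℕ → ℤ := fun d => κ (d + e2 + e1) - κ (d + e1) - κ (d + e2) + κ d with hccd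
  set C0 : ℝ := 128 * E * Km / X ^ 2 with hC0
  have hC00 : 0 ≤ C0 := by positivity
  have alg : ∀ d ∈ B2, (d + e1 + e2) * cc d =
      -(e2 * (κ (d + e1) - κ d) + e1 * (κ (d + e2) - κ d)) ∧
      4 * (e2 * ψ1 - e1 * ψ2) - cc d * (e2 ^ 2 - e1 ^ 2) =
        (2 * d + e1 + e2) * (2 * (e2 * (κ (d + e1) - κ d) - e1 * (κ (d + e2) - κ d)) -
          (e1 - e2) * cc d) := by
    intro d hd
    obtain ⟨_, h10, h01, h11, _⟩ := key d hd
    exact se_alg d e1 e2 _ _ _ _ ψ1 ψ2 h10 h01 h11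
  have hcc : ∀ d ∈ B2, |(cc d : ℝ)| ≤ C0 := by
    intro d hd
    obtain ⟨hdD, h10, h01, h11, hx1, hx2, hx3⟩ := key d hd
    have ha := (alg d hd).1
    have h10' : ((d : ℝ) + e1) * κ (d + e1) = d * κ d + ψ1 := by exact_mod_cast h10
    have h01' : ((d : ℝ) + e2) * κ (d + e2) = d * κ d + ψ2 := by exact_mod_cast h01
    have ha' : ((d : ℝ) + e1 + e2) * (κ (d + e2 + e1) - κ (d + e1) - κ (d + e2) + κ d) =
        -(e2 * (κ (d + e1) - κ d) + e1 * (κ (d + e2) - κ d)) := by exact_mod_cast ha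
    have := se_est X E Km d e1 e2 (κ d) (κ (d + e1)) (κ (d + e2)) (κ (d + e2 + e1)) ψ1 ψ2 hX
      hKm1 hEX h10' h01' ha' hx1 hx2 hx3 hE1r hE2r hψ1 hψ2 (hκX d hdD)
    rw [hC0]
    simp only [hccd]
    push_cast
    exact this
  have hs : ∀ d ∈ B2, 0 < 2 * (d : ℤ) + e1 + e2 := by
    intro d hd
    obtain ⟨_, _, _, _, hx1, hx2, _⟩ := key d hd
    have : (0 : ℝ) < 2 * (d : ℝ) + e1 + e2 := by linarith
    exact_mod_cast this
  have hW : ∀ c : ℤ, |(c : ℝ)| ≤ C0 →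
      |((4 * (e2 * ψ1 - e1 * ψ2) - c * (e2 ^ 2 - e1 ^ 2) : ℤ) : ℝ)| ≤
        16 * E * Km + 2 * E ^ 2 * C0 := by
    intro c hcC
    exact se_W E Km C0 e1 e2 ψ1 ψ2 c hE1r hE2r hψ1 hψ2 hcC
  have hτ0 : 0 ≤ τ0 := by
    have h3 := hdiv 1 one_ne_zero (by
      rw [Nat.cast_one]
      exact se_one E Km C0 hE1 hKm1 hC00)
    exact le_trans (by positivity) h3
  have hbad := se_bad B2 cc e1 e2 (e2 * ψ1 - e1 * ψ2) C0 τ0 (16 * E * Km + 2 * E ^ 2 * C0) hC00 hτ0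
    hcc hW hdiv hs (fun d hd => by rw [(alg d hd).2]; exact dvd_mul_right _ _)
  set Good := B2.filter fun d => ¬ (4 * (e2 * ψ1 - e1 * ψ2) - cc d * (e2 ^ 2 - e1 ^ 2) ≠ 0)
    with hGood
  have hsplit : (B2.card : ℝ) = ((B2.filter fun d => 4 * (e2 * ψ1 - e1 * ψ2) -
      cc d * (e2 ^ 2 - e1 ^ 2) ≠ 0).card : ℝ) + Good.card := by
    have := Finset.card_filter_add_card_filter_not (s := B2)
      (fun d => 4 * (e2 * ψ1 - e1 * ψ2) - cc d * (e2 ^ 2 - e1 ^ 2) ≠ 0)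
    rw [← this, Nat.cast_add]
  have hGc : θ2 / 2 * X ≤ Good.card := by linarith
  have hGm : ∀ d ∈ Good, d ∈ B2 ∧ 4 * (e2 * ψ1 - e1 * ψ2) - cc d * (e2 ^ 2 - e1 ^ 2) = 0 := by
    intro d hd
    obtain ⟨h3, h4⟩ := Finset.mem_filter.mp hd
    exact ⟨h3, not_not.mp h4⟩
  have hGne : Good.Nonempty := by
    rw [← Finset.card_pos]
    have : (0 : ℝ) < Good.card := by linarith
    exact_mod_cast this
  obtain ⟨d0, hd0⟩ := hGne
  have hee : e2 ^ 2 - e1 ^ 2 ≠ 0 := by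
    intro h0
    have h3 : (e2 - e1) * (e2 + e1) = 0 := by linear_combination h0
    rcases mul_eq_zero.mp h3 with h4 | h4
    · exact he21 (by linarith)
    · exact he22 (by linarith)
  have hcconst : ∀ d ∈ Good, cc d = cc d0 := by
    intro d hd
    have h3 := (hGm d hd).2
    have h4 := (hGm d0 hd0).2
    have h5 : (cc d - cc d0) * (e2 ^ 2 - e1 ^ 2) = 0 := by linear_combination h4 - h3
    rcases mul_eq_zero.mp h5 with h6 | h6
    · linarith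
    · exact absurd h6 hee
  have hM : ∀ d ∈ Good, 4 * e2 * (κ (d + e1) - κ d) = -(cc d0 * (2 * d + e1 + 3 * e2)) := by
    intro d hd
    obtain ⟨hdB, h3⟩ := hGm d hd
    obtain ⟨a1, a2⟩ := alg d hdB
    rw [h3] at a2
    rw [hcconst d hd] at a1 a2
    have h4 : 2 * (e2 * (κ (d + e1) - κ d) - e1 * (κ (d + e2) - κ d)) -
        (e1 - e2) * cc d0 = 0 := by
      rcases mul_eq_zero.mp a2.symm with h5 | h5
      · exact absurd h5 (hs d hdB).ne'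
      · exact h5
    linear_combination h4 + 2 * a1
  have hquad : ∀ d ∈ Good, X / 4 ≤ (d : ℝ) ∧ |(κ d : ℝ)| * X ≤ 4 * Km ∧
      4 * e1 * e2 * κ d = 4 * e2 * ψ1 + (d + e1) * cc d0 * (2 * d + e1 + 3 * e2) := by
    intro d hd
    obtain ⟨hdB, _⟩ := hGm d hd
    obtain ⟨hdD, h10, _⟩ := key d hdB
    refine ⟨(hD d hdD).1, hκX d hdD, ?_⟩
    linear_combination (4 * e2) * h10 - (d + e1) * hM d hd
  have hc0 : cc d0 = 0 := se_lead X Km θ2 E Good (fun d => κ d) e1 e2 ψ1 (cc d0) hX hKm1 hEX hE1r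
    hE2r hθX hX3 hGc hquad
  refine ⟨κ d0, Good, ?_, hGc, ?_⟩
  · intro d hd
    exact (key d (hGm d hd).1).1
  · intro d hd
    have hdD := (key d (hGm d hd).1).1
    have q1 := (hquad d hd).2.2
    have q0 := (hquad d0 hd0).2.2
    rw [hc0] at q1 q0
    have h3 : 4 * e1 * e2 * (κ d - κ d0) = 0 := by linear_combination q1 - q0
    have h4 : κ d - κ d0 = 0 := by
      rcases mul_eq_zero.mp h3 with h5 | h5
      · exact absurd h5 (mul_ne_zero (mul_ne_zero (by norm_num) he1) he20)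
      · exact h5
    rw [← hκD d hdD, show κ (d : ℤ) = κ (d0 : ℤ) by linarith]

end Stz
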