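import Pool.Agent.Helper89.Stz.StepE

/-!
# MP_65a63f_an, module B7

`stepF` : from large coefficients to a line, `stepG` : the line contradicts the `L²` bound.
-/

set_option autoImplicit false

namespace Stz

open Finset

/-! ### the exponential -/

/-- `t ↦ exp (2 π i t)` -/
noncomputable def eeG (t : ℝ) : ℂ := Complex.exp (Complex.I * ((2 * Real.pi * t : ℝ) : ℂ))

theorem eeG_add (s t : ℝ) : eeG (s + t) = eeG s * eeG t := by
  unfold eeG
  rw [← Complex.exp_add]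
  congr 1
  push_cast
  ring

theorem eeG_norm (t : ℝ) : ‖eeG t‖ = 1 := by
  unfold eeG
  exact Complex.norm_exp_I_mul_ofReal _

theorem eeG_int (q : ℤ) : eeG q = 1 := by
  unfold eeG
  rw [Complex.exp_eq_one_iff]
  refine ⟨q, ?_⟩
  push_cast
  ring

theorem eeG_lip (s t : ℝ) : ‖eeG s - eeG t‖ ≤ 2 * Real.pi * |s - t| := by
  have h1 : eeG s - eeG t = eeG t * (eeG (s - t) - 1) := by
    rw [mul_sub, ← eeG_add, mul_one]
    congr 2
    ring
  rw [h1, norm_mul, eeG_norm, one_mul]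
  unfold eeG
  refine Real.norm_exp_I_mul_ofReal_sub_one_le.trans ?_
  rw [Real.norm_eq_abs, abs_mul, abs_of_pos (by positivity : (0 : ℝ) < 2 * Real.pi)]

theorem sf_ps_int (A : ℕ) [NeZero A] (k : ℤ) : ps A (k : ZMod A) = eeG ((k : ℝ) / A) := by
  unfold ps eeG
  rw [ZMod.stdAddChar_coe]
  congr 1
  push_cast
  ring

theorem sf_nrm_le_half (A : ℕ) [NeZero A] (y : ZMod A) : nrm A y ≤ 1 / 2 := by
  have hA0 : (0 : ℝ) < A := Nat.cast_pos.mpr (Nat.pos_of_ne_zero (NeZero.ne A))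
  unfold nrm
  rw [div_le_div_iff₀ hA0 (by norm_num)]
  have h := y.valMinAbs_mem_Ioc
  have h1 : |y.valMinAbs| * 2 ≤ (A : ℤ) := by
    rcases abs_cases y.valMinAbs with ⟨h2, _⟩ | ⟨h2, _⟩
    · rw [h2]
      exact h.2
    · rw [h2]
      linarith [h.1]
  have h3 : |(y.valMinAbs : ℝ)| * 2 ≤ (A : ℝ) := by exact_mod_cast h1
  linarith

theorem sf_sub_one (A : ℕ) [NeZero A] (y : ZMod A) : 4 * nrm A y ≤ ‖ps A y - 1‖ := by
  have hA0 : (0 : ℝ) < A := Nat.cast_pos.mpr (Nat.pos_of_ne_zero (NeZero.ne A))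
  have h1 : ps A y = eeG ((y.valMinAbs : ℝ) / A) := by
    rw [← sf_ps_int, ZMod.coe_valMinAbs]
  have hhalf := sf_nrm_le_half A y
  have h2 : nrm A y = |(y.valMinAbs : ℝ) / A| := by
    unfold nrm
    rw [abs_div, abs_of_pos hA0]
  rw [h1]
  rw [h2] at hhalf ⊢
  generalize (y.valMinAbs : ℝ) / A = t at hhalf ⊢
  unfold eeG
  rw [Complex.norm_exp_I_mul_ofReal_sub_one, Real.norm_eq_abs, abs_mul,
    abs_of_pos (by norm_num : (0 : ℝ) < 2)]
  have h3 : 2 * Real.pi * t / 2 = Real.pi * t := by ring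
  rw [h3]
  have h4 : |Real.pi * t| ≤ Real.pi / 2 := by
    rw [abs_mul, abs_of_pos Real.pi_pos]
    have := Real.pi_pos
    nlinarith
  have h5 := Real.mul_abs_le_abs_sin h4
  have h6 : 2 / Real.pi * |Real.pi * t| = 2 * |t| := by
    rw [abs_mul, abs_of_pos Real.pi_pos]
    have := Real.pi_pos.ne'
    field_simp
  linarith

theorem sf_ps_nat_mul (A : ℕ) [NeZero A] (j : ℕ) (y : ZMod A) :
    ps A ((j : ZMod A) * y) = ps A y ^ j := by
  induction j with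
  | zero => simp [se_ps_zero]
  | succ j ih =>
      rw [pow_succ, ← ih, ← se_ps_add]
      congr 1
      push_cast
      ring

/-- geometric sums -/
theorem sf_geom (A : ℕ) [NeZero A] (y : ZMod A) (L : ℕ) :
    2 * nrm A y * ‖∑ j ∈ range L, ps A ((j : ZMod A) * y)‖ ≤ 1 := by
  simp_rw [sf_ps_nat_mul]
  have h1 := geom_sum_mul (ps A y) L
  have h2 : ‖∑ i ∈ range L, ps A y ^ i‖ * ‖ps A y - 1‖ ≤ 2 := by
    rw [← norm_mul, h1]
    refine (norm_sub_le _ _).trans ?_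
    rw [norm_pow, se_ps_norm, one_pow, norm_one]
    norm_num
  have h3 := sf_sub_one A y
  have h4 : ‖∑ i ∈ range L, ps A y ^ i‖ * (4 * nrm A y) ≤
      ‖∑ i ∈ range L, ps A y ^ i‖ * ‖ps A y - 1‖ := by gcongr
  linarith

/-- Fejer type identity -/
theorem sf_fejer (A : ℕ) [NeZero A] (T : Finset (ZMod A)) (u : ZMod A → ZMod A) (L : ℕ) :
    ∑ j ∈ range L, ∑ k ∈ range L,
        ‖(A : ℂ)⁻¹ * ∑ z ∈ T, ps A ((((j : ℤ) - k : ℤ) : ZMod A) * u z)‖ ^ 2 =
      (A : ℝ)⁻¹ ^ 2 * ∑ z ∈ T, ∑ w ∈ T, ‖∑ j ∈ range L, ps A ((j : ZMod A) * (u z - u w))‖ ^ 2 := by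
  have key : ((∑ j ∈ range L, ∑ k ∈ range L,
        ‖(A : ℂ)⁻¹ * ∑ z ∈ T, ps A ((((j : ℤ) - k : ℤ) : ZMod A) * u z)‖ ^ 2 : ℝ) : ℂ) =
      (((A : ℝ)⁻¹ ^ 2 * ∑ z ∈ T, ∑ w ∈ T,
        ‖∑ j ∈ range L, ps A ((j : ZMod A) * (u z - u w))‖ ^ 2 : ℝ) : ℂ) := by
    push_cast
    have h1 : ∀ j k : ℕ, ((‖(A : ℂ)⁻¹ * ∑ z ∈ T,
        ps A (((j : ZMod A) - (k : ZMod A)) * u z)‖ : ℂ)) ^ 2 =
        (A : ℂ)⁻¹ ^ 2 * ∑ z ∈ T, ∑ w ∈ T, ps A ((j : ZMod A) * (u z - u w)) *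
          ps A (-((k : ZMod A) * (u z - u w))) := by
      intro j k
      rw [← Complex.mul_conj', map_mul, map_sum, map_inv₀, Complex.conj_natCast,
        mul_mul_mul_comm, Finset.sum_mul_sum, sq]
      congr 1
      refine Finset.sum_congr rfl fun z _ => Finset.sum_congr rfl fun w _ => ?_
      rw [se_ps_conj, ← se_ps_add, ← se_ps_add]
      congr 1
      ring
    have h2 : ∀ z w : ZMod A, ((‖∑ j ∈ range L, ps A ((j : ZMod A) * (u z - u w))‖ : ℂ)) ^ 2 =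
        ∑ j ∈ range L, ∑ k ∈ range L, ps A ((j : ZMod A) * (u z - u w)) *
          ps A (-((k : ZMod A) * (u z - u w))) := by
      intro z w
      rw [← Complex.mul_conj', map_sum, Finset.sum_mul_sum]
      refine Finset.sum_congr rfl fun j _ => Finset.sum_congr rfl fun k _ => ?_
      rw [se_ps_conj]
    calc ∑ j ∈ range L, ∑ k ∈ range L, ((‖(A : ℂ)⁻¹ * ∑ z ∈ T,
          ps A (((j : ZMod A) - (k : ZMod A)) * u z)‖ : ℂ)) ^ 2
        = ∑ j ∈ range L, ∑ k ∈ range L, (A : ℂ)⁻¹ ^ 2 * ∑ z ∈ T, ∑ w ∈ T,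
          ps A ((j : ZMod A) * (u z - u w)) * ps A (-((k : ZMod A) * (u z - u w))) :=
          Finset.sum_congr rfl fun j _ => Finset.sum_congr rfl fun k _ => h1 j k
      _ = (A : ℂ)⁻¹ ^ 2 * ∑ j ∈ range L, ∑ k ∈ range L, ∑ z ∈ T, ∑ w ∈ T,
          ps A ((j : ZMod A) * (u z - u w)) * ps A (-((k : ZMod A) * (u z - u w))) := by
          rw [Finset.mul_sum]
          refine Finset.sum_congr rfl fun j _ => ?_
          rw [Finset.mul_sum]
      _ = (A : ℂ)⁻¹ ^ 2 * ∑ z ∈ T, ∑ w ∈ T, ∑ j ∈ range L, ∑ k ∈ range L,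
          ps A ((j : ZMod A) * (u z - u w)) * ps A (-((k : ZMod A) * (u z - u w))) := by
          congr 1
          calc ∑ j ∈ range L, ∑ k ∈ range L, ∑ z ∈ T, ∑ w ∈ T,
                ps A ((j : ZMod A) * (u z - u w)) * ps A (-((k : ZMod A) * (u z - u w)))
              = ∑ j ∈ range L, ∑ z ∈ T, ∑ k ∈ range L, ∑ w ∈ T,
                ps A ((j : ZMod A) * (u z - u w)) * ps A (-((k : ZMod A) * (u z - u w))) :=
                Finset.sum_congr rfl fun j _ => Finset.sum_comm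
            _ = ∑ z ∈ T, ∑ j ∈ range L, ∑ k ∈ range L, ∑ w ∈ T,
                ps A ((j : ZMod A) * (u z - u w)) * ps A (-((k : ZMod A) * (u z - u w))) :=
                Finset.sum_comm
            _ = ∑ z ∈ T, ∑ j ∈ range L, ∑ w ∈ T, ∑ k ∈ range L,
                ps A ((j : ZMod A) * (u z - u w)) * ps A (-((k : ZMod A) * (u z - u w))) :=
                Finset.sum_congr rfl fun z _ => Finset.sum_congr rfl fun j _ => Finset.sum_comm
            _ = _ := Finset.sum_congr rfl fun z _ => Finset.sum_comm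
      _ = _ := by
          congr 1
          exact Finset.sum_congr rfl fun z _ => Finset.sum_congr rfl fun w _ => (h2 z w).symm
  exact_mod_cast key

/-! ### step F -/

theorem sf_lower (A : ℕ) [NeZero A] (T : Finset (ZMod A)) (u : ZMod A → ZMod A) (M : ℕ)
    (D : Finset ℕ) (σ : ℝ) (hσ : 0 ≤ σ) (hD : ∀ d ∈ D, 1 ≤ d ∧ d ≤ M)
    (hK : ∀ d ∈ D, σ ≤ ‖(A : ℂ)⁻¹ * ∑ z ∈ T, ps A ((d : ZMod A) * u z)‖) :
    2 * M * σ ^ 2 * D.card ≤ ∑ j ∈ range (2 * M), ∑ k ∈ range (2 * M),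
        ‖(A : ℂ)⁻¹ * ∑ z ∈ T, ps A ((((j : ℤ) - k : ℤ) : ZMod A) * u z)‖ ^ 2 := by
  classical
  set f : ℕ × ℕ → ℝ := fun p =>
    ‖(A : ℂ)⁻¹ * ∑ z ∈ T, ps A ((((p.1 : ℤ) - p.2 : ℤ) : ZMod A) * u z)‖ ^ 2 with hf
  have hf0 : ∀ p, 0 ≤ f p := fun p => by positivity
  have hsum : ∑ j ∈ range (2 * M), ∑ k ∈ range (2 * M),
        ‖(A : ℂ)⁻¹ * ∑ z ∈ T, ps A ((((j : ℤ) - k : ℤ) : ZMod A) * u z)‖ ^ 2 =
      ∑ p ∈ range (2 * M) ×ˢ range (2 * M), f p := by
    rw [Finset.sum_product]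
  rw [hsum]
  set S1 : Finset (ℕ × ℕ) := (D ×ˢ range M).image fun p => (p.1 + p.2, p.2) with hS1
  set S2 : Finset (ℕ × ℕ) := (D ×ˢ range M).image fun p => (p.2, p.1 + p.2) with hS2
  have hdis : Disjoint S1 S2 := by
    rw [Finset.disjoint_left]
    intro p hp1 hp2
    obtain ⟨q, hq, rfl⟩ := Finset.mem_image.mp hp1
    obtain ⟨r, hr, hr2⟩ := Finset.mem_image.mp hp2
    have h1 := (hD _ (Finset.mem_product.mp hq).1).1
    have h2 := (hD _ (Finset.mem_product.mp hr).1).1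
    simp only [Prod.mk.injEq] at hr2
    omega
  have hsub : S1 ∪ S2 ⊆ range (2 * M) ×ˢ range (2 * M) := by
    intro p hp
    rcases Finset.mem_union.mp hp with hp | hp
    · obtain ⟨q, hq, rfl⟩ := Finset.mem_image.mp hp
      have h1 := (hD _ (Finset.mem_product.mp hq).1).2
      have h2 := Finset.mem_range.mp (Finset.mem_product.mp hq).2
      simp only [Finset.mem_product, Finset.mem_range]
      omega
    · obtain ⟨q, hq, rfl⟩ := Finset.mem_image.mp hp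
      have h1 := (hD _ (Finset.mem_product.mp hq).1).2
      have h2 := Finset.mem_range.mp (Finset.mem_product.mp hq).2
      simp only [Finset.mem_product, Finset.mem_range]
      omega
  have hs1 : (M : ℝ) * σ ^ 2 * D.card ≤ ∑ p ∈ S1, f p := by
    rw [hS1, Finset.sum_image]
    · have h1 : ∀ p ∈ D ×ˢ range M, σ ^ 2 ≤ f (p.1 + p.2, p.2) := by
        intro p hp
        have h2 := hK _ (Finset.mem_product.mp hp).1
        have h3 : f (p.1 + p.2, p.2) =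
            ‖(A : ℂ)⁻¹ * ∑ z ∈ T, ps A ((p.1 : ZMod A) * u z)‖ ^ 2 := by
          simp only [hf]
          congr 3
          refine Finset.sum_congr rfl fun z _ => ?_
          congr 1
          push_cast
          ring
        rw [h3]
        gcongr
      calc (M : ℝ) * σ ^ 2 * D.card = ∑ p ∈ D ×ˢ range M, σ ^ 2 := by
            rw [Finset.sum_const, Finset.card_product, Finset.card_range, nsmul_eq_mul]
            push_cast
            ring
        _ ≤ _ := Finset.sum_le_sum h1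
    · intro p _ q _ hpq
      simp only [Prod.mk.injEq] at hpq
      exact Prod.ext (by omega) hpq.2
  have hs2 : (M : ℝ) * σ ^ 2 * D.card ≤ ∑ p ∈ S2, f p := by
    rw [hS2, Finset.sum_image]
    · have h1 : ∀ p ∈ D ×ˢ range M, σ ^ 2 ≤ f (p.2, p.1 + p.2) := by
        intro p hp
        have h2 := hK _ (Finset.mem_product.mp hp).1
        have h3 : f (p.2, p.1 + p.2) =
            ‖(A : ℂ)⁻¹ * ∑ z ∈ T, ps A ((p.1 : ZMod A) * u z)‖ ^ 2 := by
          simp only [hf]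
          rw [← Complex.norm_conj]
          congr 2
          rw [map_mul, map_inv₀, Complex.conj_natCast, map_sum]
          congr 1
          refine Finset.sum_congr rfl fun z _ => ?_
          rw [se_ps_conj]
          congr 1
          push_cast
          ring
        rw [h3]
        gcongr
      calc (M : ℝ) * σ ^ 2 * D.card = ∑ p ∈ D ×ˢ range M, σ ^ 2 := by
            rw [Finset.sum_const, Finset.card_product, Finset.card_range, nsmul_eq_mul]
            push_cast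
            ring
        _ ≤ _ := Finset.sum_le_sum h1
    · intro p _ q _ hpq
      simp only [Prod.mk.injEq] at hpq
      exact Prod.ext (by omega) hpq.1
  calc 2 * M * σ ^ 2 * D.card = (M : ℝ) * σ ^ 2 * D.card + M * σ ^ 2 * D.card := by ring
    _ ≤ ∑ p ∈ S1, f p + ∑ p ∈ S2, f p := add_le_add hs1 hs2
    _ = ∑ p ∈ S1 ∪ S2, f p := (Finset.sum_union hdis).symm
    _ ≤ _ := Finset.sum_le_sum_of_subset_of_nonneg hsub fun p _ _ => hf0 p

open Classical in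
theorem sf_upper (A : ℕ) [NeZero A] (T : Finset (ZMod A)) (u : ZMod A → ZMod A) (M : ℕ)
    (r : ℝ) (hr : 0 < r) :
    (A : ℝ)⁻¹ ^ 2 * ∑ z ∈ T, ∑ w ∈ T,
        ‖∑ j ∈ range (2 * M), ps A ((j : ZMod A) * (u z - u w))‖ ^ 2 ≤
      4 * M ^ 2 * ((A : ℝ)⁻¹ ^ 2 * ∑ w ∈ T, ((T.filter fun z => nrm A (u z - u w) ≤ r).card : ℝ)) +
        1 / (4 * r ^ 2) := by
  have hA0 : (0 : ℝ) < A := Nat.cast_pos.mpr (Nat.pos_of_ne_zero (NeZero.ne A))
  have h1 : ∀ z w : ZMod A, ‖∑ j ∈ range (2 * M), ps A ((j : ZMod A) * (u z - u w))‖ ^ 2 ≤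
      (if nrm A (u z - u w) ≤ r then 4 * (M : ℝ) ^ 2 else 0) + 1 / (4 * r ^ 2) := by
    intro z w
    have h0 : 0 ≤ 1 / (4 * r ^ 2) := by positivity
    split_ifs with hc
    · have h2 : ‖∑ j ∈ range (2 * M), ps A ((j : ZMod A) * (u z - u w))‖ ≤ 2 * M := by
        refine (norm_sum_le _ _).trans ?_
        simp only [se_ps_norm, Finset.sum_const, Finset.card_range, nsmul_eq_mul, mul_one]
        push_cast
        exact le_refl _
      have h3 : ‖∑ j ∈ range (2 * M), ps A ((j : ZMod A) * (u z - u w))‖ ^ 2 ≤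
          (2 * (M : ℝ)) ^ 2 := by gcongr
      nlinarith
    · push Not at hc
      have h2 := sf_geom A (u z - u w) (2 * M)
      set G := ‖∑ j ∈ range (2 * M), ps A ((j : ZMod A) * (u z - u w))‖ with hG
      have hG0 : 0 ≤ G := norm_nonneg _
      have h3 : 2 * r * G ≤ 1 := le_trans (by gcongr) h2
      rw [zero_add, le_div_iff₀ (by positivity)]
      have h4 : (2 * r * G) ^ 2 ≤ 1 := pow_le_one₀ (by positivity) h3
      nlinarith
  have hcard : (T.card : ℝ) ≤ A := by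
    have := Finset.card_le_univ T
    rw [ZMod.card] at this
    exact_mod_cast this
  have h2 : ∑ z ∈ T, ∑ w ∈ T,
        ‖∑ j ∈ range (2 * M), ps A ((j : ZMod A) * (u z - u w))‖ ^ 2 ≤
      4 * M ^ 2 * (∑ w ∈ T, ((T.filter fun z => nrm A (u z - u w) ≤ r).card : ℝ)) +
        A ^ 2 * (1 / (4 * r ^ 2)) := by
    rw [Finset.sum_comm, Finset.mul_sum]
    calc ∑ w ∈ T, ∑ z ∈ T, ‖∑ j ∈ range (2 * M), ps A ((j : ZMod A) * (u z - u w))‖ ^ 2
        ≤ ∑ w ∈ T, ∑ z ∈ T, ((if nrm A (u z - u w) ≤ r then 4 * (M : ℝ) ^ 2 else 0) +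
          1 / (4 * r ^ 2)) := Finset.sum_le_sum fun w _ => Finset.sum_le_sum fun z _ => h1 z w
      _ = ∑ w ∈ T, (4 * (M : ℝ) ^ 2 * ((T.filter fun z => nrm A (u z - u w) ≤ r).card : ℝ) +
          T.card * (1 / (4 * r ^ 2))) := by
          refine Finset.sum_congr rfl fun w _ => ?_
          rw [Finset.sum_add_distrib, Finset.sum_const, nsmul_eq_mul, Finset.sum_ite,
            Finset.sum_const, Finset.sum_const_zero, nsmul_eq_mul, add_zero]
          ring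
      _ = ∑ w ∈ T, (4 * (M : ℝ) ^ 2 * ((T.filter fun z => nrm A (u z - u w) ≤ r).card : ℝ)) +
          T.card * (T.card * (1 / (4 * r ^ 2))) := by
          rw [Finset.sum_add_distrib, Finset.sum_const, nsmul_eq_mul]
      _ ≤ _ := by
          have h3 : (T.card : ℝ) * (T.card * (1 / (4 * r ^ 2))) ≤ A ^ 2 * (1 / (4 * r ^ 2)) := by
            rw [← mul_assoc]
            have h4 : (T.card : ℝ) * T.card ≤ A ^ 2 := by
              rw [sq]
              exact mul_le_mul hcard hcard (Nat.cast_nonneg _) hA0.le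
            exact mul_le_mul_of_nonneg_right h4 (by positivity)
          linarith
  calc _ ≤ (A : ℝ)⁻¹ ^ 2 * (4 * M ^ 2 * (∑ w ∈ T,
        ((T.filter fun z => nrm A (u z - u w) ≤ r).card : ℝ)) + A ^ 2 * (1 / (4 * r ^ 2))) := by
        gcongr
    _ = _ := by
        rw [mul_add]
        congr 1
        · ring
        · field_simp

theorem stepF (A : ℕ) [NeZero A] (x : ZMod A → ZMod A) (T : Finset (ZMod A)) (h : ℕ) (κ : ℤ)
    (D : Finset ℕ) (X θ σ ω : ℝ) (hX : 2 ≤ X) (hθ : 0 < θ) (hσ : 0 < σ) (hω : 0 < ω)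
    (hD : ∀ d ∈ D, 1 ≤ d ∧ (d : ℝ) ≤ X) (hDc : θ * X ≤ D.card)
    (hK : ∀ d ∈ D, σ ≤ ‖ft A (fT A x T (d * h : ℕ)) ((d * κ : ℤ) : ZMod A)‖)
    (hω2 : 1 ≤ 4 * ω ^ 2 * σ ^ 2 * θ) :
    ∃ (T2 : Finset (ZMod A)) (y0 : ZMod A), T2 ⊆ T ∧ σ ^ 2 * θ / 8 ≤ mu A T2 ∧
      ∀ z ∈ T2, nrm A ((h : ZMod A) * x z + (κ : ZMod A) * z - y0) ≤ ω / X := by
  classical
  have hA0 : (0 : ℝ) < A := Nat.cast_pos.mpr (Nat.pos_of_ne_zero (NeZero.ne A))
  have hX0 : 0 < X := by linarith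
  set M : ℕ := ⌊X⌋₊ with hM
  have hM2 : 2 ≤ M := Nat.le_floor (by exact_mod_cast hX)
  have hMX : (M : ℝ) ≤ X := Nat.floor_le hX0.le
  have hXM : X < M + 1 := Nat.lt_floor_add_one X
  have hM2r : (2 : ℝ) ≤ M := by exact_mod_cast hM2
  set u : ZMod A → ZMod A := fun z => (h : ZMod A) * x z + (κ : ZMod A) * z with hu
  have hlow := sf_lower A T u M D σ hσ.le
    (fun d hd => ⟨(hD d hd).1, Nat.le_floor (hD d hd).2⟩) (by
      intro d hd
      have h1 := hK d hd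
      rw [se_ft] at h1
      have h2 : ∑ z ∈ T, ps A ((((d * h : ℕ) : ℤ) : ZMod A) * x z +
          (((d : ℤ) * κ : ℤ) : ZMod A) * z) = ∑ z ∈ T, ps A ((d : ZMod A) * u z) := by
        refine Finset.sum_congr rfl fun z _ => ?_
        congr 1
        simp only [hu]
        push_cast
        ring
      rw [h2] at h1
      exact h1)
  rw [sf_fejer] at hlow
  have hup := sf_upper A T u M (ω / X) (by positivity)
  set P : ℝ := (A : ℝ)⁻¹ ^ 2 * ∑ w ∈ T,
    ((T.filter fun z => nrm A (u z - u w) ≤ ω / X).card : ℝ) with hP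
  have h3 : 1 / (4 * (ω / X) ^ 2) ≤ X ^ 2 * (σ ^ 2 * θ) := by
    rw [div_le_iff₀ (by positivity)]
    have : X ^ 2 * (σ ^ 2 * θ) * (4 * (ω / X) ^ 2) = 4 * ω ^ 2 * σ ^ 2 * θ := by
      field_simp
    rw [this]
    exact hω2
  have h4 : 2 * M * σ ^ 2 * (θ * X) ≤ 4 * M ^ 2 * P + X ^ 2 * (σ ^ 2 * θ) := by
    calc 2 * M * σ ^ 2 * (θ * X) ≤ 2 * M * σ ^ 2 * D.card := by gcongr
      _ ≤ _ := hlow.trans (hup.trans (by linarith))
  have hPge : σ ^ 2 * θ / 8 ≤ P := by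
    have hs : 0 < σ ^ 2 * θ := by positivity
    have h5 : σ ^ 2 * θ * (2 * M * X - X ^ 2) ≤ 4 * M ^ 2 * P := by nlinarith
    have h6 : (M : ℝ) ^ 2 / 2 ≤ 2 * M * X - X ^ 2 := by nlinarith
    have h7 : σ ^ 2 * θ * ((M : ℝ) ^ 2 / 2) ≤ 4 * M ^ 2 * P :=
      le_trans (by gcongr) h5
    have h8 : (0 : ℝ) < 4 * M ^ 2 := by positivity
    have h9 : 4 * (M : ℝ) ^ 2 * (σ ^ 2 * θ / 8) ≤ 4 * M ^ 2 * P := by linarith
    exact le_of_mul_le_mul_left h9 h8
  have hcard : (T.card : ℝ) ≤ A := by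
    have := Finset.card_le_univ T
    rw [ZMod.card] at this
    exact_mod_cast this
  have hex : ∃ w ∈ T, σ ^ 2 * θ / 8 * A ≤
      ((T.filter fun z => nrm A (u z - u w) ≤ ω / X).card : ℝ) := by
    by_contra hcon
    push Not at hcon
    have hs : 0 < σ ^ 2 * θ / 8 := by positivity
    rcases Finset.eq_empty_or_nonempty T with hT | hT
    · rw [hP, hT] at hPge
      simp at hPge
      linarith
    · have h5 : ∑ w ∈ T, ((T.filter fun z => nrm A (u z - u w) ≤ ω / X).card : ℝ) <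
          ∑ w ∈ T, σ ^ 2 * θ / 8 * A := Finset.sum_lt_sum_of_nonempty hT hcon
      rw [Finset.sum_const, nsmul_eq_mul] at h5
      have h6 : (T.card : ℝ) * (σ ^ 2 * θ / 8 * A) ≤ A * (σ ^ 2 * θ / 8 * A) := by gcongr
      have h7 : P < (A : ℝ)⁻¹ ^ 2 * (A * (σ ^ 2 * θ / 8 * A)) := by
        rw [hP]
        exact mul_lt_mul_of_pos_left (lt_of_lt_of_le h5 h6) (by positivity)
      have h8 : (A : ℝ)⁻¹ ^ 2 * (A * (σ ^ 2 * θ / 8 * A)) = σ ^ 2 * θ / 8 := by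
        field_simp
      linarith
  obtain ⟨w, _, hw⟩ := hex
  refine ⟨T.filter fun z => nrm A (u z - u w) ≤ ω / X, u w, Finset.filter_subset _ _, ?_, ?_⟩
  · unfold mu
    rw [le_div_iff₀ hA0]
    exact hw
  · intro z hz
    exact (Finset.mem_filter.mp hz).2

/-! ### step G -/

/-- `L²` bound for sums with bounded multiplicity of the frequencies -/
theorem sg_l2 (B : ℕ) [NeZero B] {ι : Type*} (P : Finset ι) (α : ι → ℂ) (k : ι → ZMod B)
    (rm : ℝ) (hrm : ∀ p ∈ P, ∀ Q : Finset ι, Q ⊆ P → (∀ q ∈ Q, k q = k p) → (Q.card : ℝ) ≤ rm) :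
    ∑ w : ZMod B, ‖∑ p ∈ P, α p * ps B (k p * w)‖ ^ 2 ≤ B * rm * ∑ p ∈ P, ‖α p‖ ^ 2 := by
  classical
  have e1 : ((∑ w : ZMod B, ‖∑ p ∈ P, α p * ps B (k p * w)‖ ^ 2 : ℝ) : ℂ) =
      ∑ p ∈ P, ∑ q ∈ P, (if k q = k p then (B : ℂ) * (α p * (starRingEnd ℂ) (α q)) else 0) := by
    push_cast
    have h1 : ∀ w : ZMod B, ((‖∑ p ∈ P, α p * ps B (k p * w)‖ : ℂ)) ^ 2 =
        ∑ p ∈ P, ∑ q ∈ P, α p * (starRingEnd ℂ) (α q) * ps B (w * (k p - k q)) := by
      intro w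
      rw [← Complex.mul_conj', map_sum, Finset.sum_mul_sum]
      refine Finset.sum_congr rfl fun p _ => Finset.sum_congr rfl fun q _ => ?_
      rw [map_mul, se_ps_conj, show w * (k p - k q) = k p * w + -(k q * w) by ring, se_ps_add]
      ring
    simp_rw [h1]
    rw [Finset.sum_comm]
    refine Finset.sum_congr rfl fun p _ => ?_
    rw [Finset.sum_comm]
    refine Finset.sum_congr rfl fun q _ => ?_
    rw [← Finset.mul_sum, se_orth]
    by_cases hkk : k q = k p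
    · rw [if_pos hkk, if_pos (by rw [hkk, sub_self])]
      ring
    · rw [if_neg hkk, if_neg (fun h0 => hkk (sub_eq_zero.mp h0).symm), mul_zero]
  have e2 : ∑ w : ZMod B, ‖∑ p ∈ P, α p * ps B (k p * w)‖ ^ 2 ≤
      ∑ p ∈ P, ∑ q ∈ P, (if k q = k p then (B : ℝ) * (‖α p‖ * ‖α q‖) else 0) := by
    have h0 : 0 ≤ ∑ w : ZMod B, ‖∑ p ∈ P, α p * ps B (k p * w)‖ ^ 2 :=
      Finset.sum_nonneg fun _ _ => by positivity
    calc ∑ w : ZMod B, ‖∑ p ∈ P, α p * ps B (k p * w)‖ ^ 2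
        = ‖((∑ w : ZMod B, ‖∑ p ∈ P, α p * ps B (k p * w)‖ ^ 2 : ℝ) : ℂ)‖ := by
          rw [Complex.norm_real, Real.norm_of_nonneg h0]
      _ = ‖∑ p ∈ P, ∑ q ∈ P,
          (if k q = k p then (B : ℂ) * (α p * (starRingEnd ℂ) (α q)) else 0)‖ := by rw [e1]
      _ ≤ ∑ p ∈ P, ∑ q ∈ P,
          ‖(if k q = k p then (B : ℂ) * (α p * (starRingEnd ℂ) (α q)) else 0)‖ :=
          (norm_sum_le _ _).trans (Finset.sum_le_sum fun p _ => norm_sum_le _ _)
      _ = _ := by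
          refine Finset.sum_congr rfl fun p _ => Finset.sum_congr rfl fun q _ => ?_
          split_ifs
          · rw [norm_mul, norm_mul, Complex.norm_natCast, Complex.norm_conj]
          · simp
  have e3 : ∑ p ∈ P, ∑ q ∈ P, (if k q = k p then (B : ℝ) * (‖α p‖ * ‖α q‖) else 0) ≤
      ∑ p ∈ P, ∑ q ∈ P, (if k q = k p then (B : ℝ) * ((‖α p‖ ^ 2 + ‖α q‖ ^ 2) / 2) else 0) := by
    refine Finset.sum_le_sum fun p _ => Finset.sum_le_sum fun q _ => ?_
    split_ifs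
    · have : ‖α p‖ * ‖α q‖ ≤ (‖α p‖ ^ 2 + ‖α q‖ ^ 2) / 2 := by
        nlinarith [sq_nonneg (‖α p‖ - ‖α q‖)]
      gcongr
    · exact le_refl _
  have e4 : ∑ p ∈ P, ∑ q ∈ P, (if k q = k p then (B : ℝ) * ((‖α p‖ ^ 2 + ‖α q‖ ^ 2) / 2) else 0) =
      ∑ p ∈ P, ∑ q ∈ P, (if k q = k p then (B : ℝ) * ‖α p‖ ^ 2 else 0) := by
    have h1 : ∑ p ∈ P, ∑ q ∈ P, (if k q = k p then (B : ℝ) * ‖α q‖ ^ 2 else 0) =
        ∑ p ∈ P, ∑ q ∈ P, (if k q = k p then (B : ℝ) * ‖α p‖ ^ 2 else 0) := by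
      rw [Finset.sum_comm]
      refine Finset.sum_congr rfl fun p _ => Finset.sum_congr rfl fun q _ => ?_
      by_cases hkk : k q = k p
      · rw [if_pos hkk, if_pos hkk.symm]
      · rw [if_neg hkk, if_neg (fun h0 => hkk h0.symm)]
    have h2 : ∀ p q : ι, (if k q = k p then (B : ℝ) * ((‖α p‖ ^ 2 + ‖α q‖ ^ 2) / 2) else 0) =
        ((if k q = k p then (B : ℝ) * ‖α p‖ ^ 2 else 0) +
          (if k q = k p then (B : ℝ) * ‖α q‖ ^ 2 else 0)) / 2 := by
      intro p q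
      split_ifs <;> ring
    simp_rw [h2, ← Finset.sum_div, Finset.sum_add_distrib]
    rw [h1]
    ring
  have e5 : ∑ p ∈ P, ∑ q ∈ P, (if k q = k p then (B : ℝ) * ‖α p‖ ^ 2 else 0) ≤
      B * rm * ∑ p ∈ P, ‖α p‖ ^ 2 := by
    rw [Finset.mul_sum]
    refine Finset.sum_le_sum fun p hp => ?_
    rw [Finset.sum_ite, Finset.sum_const, Finset.sum_const_zero, nsmul_eq_mul, add_zero]
    have h1 := hrm p hp (P.filter fun q => k q = k p) (Finset.filter_subset _ _)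
      (fun q hq => (Finset.mem_filter.mp hq).2)
    calc ((P.filter fun q => k q = k p).card : ℝ) * ((B : ℝ) * ‖α p‖ ^ 2)
        ≤ rm * ((B : ℝ) * ‖α p‖ ^ 2) := by gcongr
      _ = _ := by ring
  linarith

/-- one dimensional net -/
theorem sg_net (t ρ : ℝ) (J : ℕ) (hJ : 1 ≤ J) (ht : |t| ≤ ρ) :
    ∃ j ∈ range J, |t - (2 * (j : ℝ) + 1 - J) * ρ / J| ≤ ρ / J := by
  have hρ0 : 0 ≤ ρ := (abs_nonneg _).trans ht
  have hJ0 : (0 : ℝ) < J := by exact_mod_cast hJ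
  rcases hρ0.eq_or_lt with h0 | hpos
  · refine ⟨0, Finset.mem_range.mpr hJ, ?_⟩
    have h1 : t = 0 := by
      rw [← h0] at ht
      exact abs_eq_zero.mp (le_antisymm ht (abs_nonneg _))
    rw [h1, ← h0]
    simp
  · obtain ⟨h1, h2⟩ := abs_le.mp ht
    set s : ℝ := (t + ρ) * J / (2 * ρ) with hs
    have hs0 : 0 ≤ s := by
      have : 0 ≤ t + ρ := by linarith
      positivity
    have hsJ : s ≤ J := by
      rw [hs, div_le_iff₀ (by positivity)]
      nlinarith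
    have ht' : t = 2 * ρ * s / J - ρ := by
      rw [hs]
      field_simp
      ring
    have hform : ∀ j : ℝ, 0 ≤ s - j → s - j ≤ 1 →
        |t - (2 * j + 1 - J) * ρ / J| ≤ ρ / J := by
      intro j h3 h4
      have h5 : t - (2 * j + 1 - J) * ρ / J = (ρ / J) * (2 * (s - j) - 1) := by
        rw [ht']
        field_simp
        ring
      rw [h5, abs_mul, abs_of_nonneg (by positivity : 0 ≤ ρ / J)]
      have h6 : |2 * (s - j) - 1| ≤ 1 := by
        rw [abs_le]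
        constructor <;> linarith
      calc ρ / J * |2 * (s - j) - 1| ≤ ρ / J * 1 := by gcongr
        _ = ρ / J := mul_one _
    by_cases hc : ⌊s⌋₊ < J
    · refine ⟨⌊s⌋₊, Finset.mem_range.mpr hc, hform _ ?_ ?_⟩
      · linarith [Nat.floor_le hs0]
      · linarith [Nat.lt_floor_add_one s]
    · push Not at hc
      have h3 : (J : ℝ) ≤ s := (Nat.le_floor_iff hs0).mp hc
      have h4 : s = J := le_antisymm hsJ h3
      refine ⟨J - 1, Finset.mem_range.mpr (by omega), hform _ ?_ ?_⟩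
      · rw [h4, Nat.cast_sub hJ]
        push_cast
        linarith
      · rw [h4, Nat.cast_sub hJ]
        push_cast
        linarith

/-- the exponential sum with a real second variable -/
noncomputable def sgFr (A : ℕ) [NeZero A] (I : Finset ℕ) (N : ℕ) (a : ℕ → ℕ → ℂ) (z : ZMod A)
    (g : ℝ) : ℂ :=
  ∑ n ∈ I, ∑ m ∈ range N, a n m * ps A (((n ^ 2 + m ^ 2 : ℕ) : ZMod A) * z) * eeG (m * g)

theorem sg_F_eq (A : ℕ) [NeZero A] (I : Finset ℕ) (N : ℕ) (a : ℕ → ℕ → ℂ) (z y : ZMod A) :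
    F A I N a z y = sgFr A I N a z ((y.val : ℝ) / A) := by
  unfold F sgFr
  refine Finset.sum_congr rfl fun n _ => Finset.sum_congr rfl fun m _ => ?_
  rw [se_ps_add, ← mul_assoc]
  congr 1
  have h1 : (m : ZMod A) * y = (((m : ℤ) * (y.val : ℤ) : ℤ) : ZMod A) := by
    push_cast
    rw [ZMod.natCast_zmod_val]
  rw [h1, sf_ps_int]
  congr 1
  push_cast
  ring

theorem sg_Fr_per (A : ℕ) [NeZero A] (I : Finset ℕ) (N : ℕ) (a : ℕ → ℕ → ℂ) (z : ZMod A)
    (g : ℝ) (q : ℤ) : sgFr A I N a z (g + q) = sgFr A I N a z g := by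
  unfold sgFr
  refine Finset.sum_congr rfl fun n _ => Finset.sum_congr rfl fun m _ => ?_
  congr 1
  rw [mul_add, eeG_add]
  have h1 : (m : ℝ) * (q : ℝ) = ((((m : ℤ) * q : ℤ)) : ℝ) := by push_cast; ring
  rw [h1, eeG_int, mul_one]

theorem sg_Fr_diff (A : ℕ) [NeZero A] (I : Finset ℕ) (N : ℕ) (a : ℕ → ℕ → ℂ) (z : ZMod A)
    (s t δ : ℝ) (hst : |s - t| ≤ δ) :
    ‖sgFr A I N a z s - sgFr A I N a z t‖ ^ 2 ≤
      (∑ m ∈ range N, ‖∑ n ∈ I, a n m * ps A (((n ^ 2 + m ^ 2 : ℕ) : ZMod A) * z)‖ ^ 2) *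
        (N * (2 * Real.pi * (N * δ)) ^ 2) := by
  have hδ0 : 0 ≤ δ := (abs_nonneg _).trans hst
  have h1 : sgFr A I N a z s - sgFr A I N a z t = ∑ m ∈ range N,
      (∑ n ∈ I, a n m * ps A (((n ^ 2 + m ^ 2 : ℕ) : ZMod A) * z)) *
        (eeG (m * s) - eeG (m * t)) := by
    unfold sgFr
    rw [Finset.sum_comm, Finset.sum_comm (s := I), ← Finset.sum_sub_distrib]
    refine Finset.sum_congr rfl fun m _ => ?_
    rw [← Finset.sum_sub_distrib, Finset.sum_mul]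
    refine Finset.sum_congr rfl fun n _ => ?_
    ring
  rw [h1]
  calc _ ≤ (∑ m ∈ range N, ‖∑ n ∈ I, a n m * ps A (((n ^ 2 + m ^ 2 : ℕ) : ZMod A) * z)‖ *
        ‖eeG (m * s) - eeG (m * t)‖) ^ 2 := by
        refine pow_le_pow_left₀ (norm_nonneg _) ?_ 2
        refine (norm_sum_le _ _).trans (Finset.sum_le_sum fun m _ => ?_)
        rw [norm_mul]
    _ ≤ (∑ m ∈ range N, ‖∑ n ∈ I, a n m * ps A (((n ^ 2 + m ^ 2 : ℕ) : ZMod A) * z)‖ ^ 2) *
        (∑ m ∈ range N, ‖eeG (m * s) - eeG (m * t)‖ ^ 2) :=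
        Finset.sum_mul_sq_le_sq_mul_sq _ _ _
    _ ≤ _ := by
        refine mul_le_mul_of_nonneg_left ?_ (Finset.sum_nonneg fun _ _ => by positivity)
        calc ∑ m ∈ range N, ‖eeG (m * s) - eeG (m * t)‖ ^ 2
            ≤ ∑ m ∈ range N, (2 * Real.pi * (N * δ)) ^ 2 := by
              refine Finset.sum_le_sum fun m hm => ?_
              refine pow_le_pow_left₀ (norm_nonneg _) ?_ 2
              refine (eeG_lip _ _).trans ?_
              have hmN : (m : ℝ) ≤ N := by exact_mod_cast (Finset.mem_range.mp hm).le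
              have h2 : |(m : ℝ) * s - m * t| ≤ N * δ := by
                rw [← mul_sub, abs_mul, Nat.abs_cast]
                gcongr
              gcongr
          _ = _ := by
              rw [Finset.sum_const, Finset.card_range, nsmul_eq_mul]

theorem sg_b (A N : ℕ) [NeZero A] (I : Finset ℕ) (hI : ∀ n ∈ I, n ^ 2 < A)
    (a : ℕ → ℕ → ℂ) :
    ∑ z : ZMod A, ∑ m ∈ range N,
      ‖∑ n ∈ I, a n m * ps A (((n ^ 2 + m ^ 2 : ℕ) : ZMod A) * z)‖ ^ 2 ≤ A * nsq I N a := by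
  rw [Finset.sum_comm]
  unfold nsq
  rw [Finset.sum_comm (s := I), Finset.mul_sum]
  refine Finset.sum_le_sum fun m _ => ?_
  have h1 := sg_l2 A I (fun n => a n m) (fun n => ((n ^ 2 + m ^ 2 : ℕ) : ZMod A)) 1 (by
    intro p hp Q hQ hQk
    have h2 : Q ⊆ {p} := by
      intro q hq
      rw [Finset.mem_singleton]
      have h3 := hQk q hq
      have h4 : ((q ^ 2 : ℕ) : ZMod A) = ((p ^ 2 : ℕ) : ZMod A) := by
        push_cast at h3 ⊢
        exact add_right_cancel h3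
      have h5 : q ^ 2 = p ^ 2 := by
        have h6 := (ZMod.natCast_eq_natCast_iff' _ _ _).mp h4
        rwa [Nat.mod_eq_of_lt (hI q (hQ hq)), Nat.mod_eq_of_lt (hI p hp)] at h6
      exact Nat.pow_left_injective (by norm_num : (2 : ℕ) ≠ 0) h5
    have h3 := Finset.card_le_card h2
    rw [Finset.card_singleton] at h3
    exact_mod_cast h3)
  rw [mul_one] at h1
  exact h1

theorem sg_main (A N : ℕ) [NeZero A] (I : Finset ℕ) (a : ℕ → ℕ → ℂ) (h : ℕ) (hh : 1 ≤ h)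
    (κ : ℤ) (rm : ℝ)
    (hbig : ∀ n ∈ I, ∀ m < N, 2 * |(h * (n ^ 2 + m ^ 2) - κ * m : ℤ)| < h * A)
    (hrm : ∀ k : ℤ, (((I ×ˢ range N).filter fun p : ℕ × ℕ =>
      (h * (p.1 ^ 2 + p.2 ^ 2) - κ * p.2 : ℤ) = k).card : ℝ) ≤ rm) (y c : ℝ) :
    ∑ z : ZMod A, ‖sgFr A I N a z ((y - κ * z.val) / (A * h) + c)‖ ^ 2 ≤
      h * A * rm * nsq I N a := by
  have hA0 : (0 : ℝ) < A := Nat.cast_pos.mpr (Nat.pos_of_ne_zero (NeZero.ne A))
  have hh0 : (0 : ℝ) < h := by exact_mod_cast hh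
  have hne : NeZero (h * A) := ⟨Nat.mul_ne_zero (by omega) (NeZero.ne A)⟩
  set P : Finset (ℕ × ℕ) := I ×ˢ range N with hP
  set kk : ℕ × ℕ → ℤ := fun p => (h * (p.1 ^ 2 + p.2 ^ 2) - κ * p.2 : ℤ) with hkk
  set α : ℕ × ℕ → ℂ := fun p => a p.1 p.2 * eeG (p.2 * (y / (A * h) + c)) with hα
  have hα2 : ∑ p ∈ P, ‖α p‖ ^ 2 = nsq I N a := by
    unfold nsq
    rw [hP, Finset.sum_product]
    refine Finset.sum_congr rfl fun n _ => Finset.sum_congr rfl fun m _ => ?_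
    simp only [hα]
    rw [norm_mul, eeG_norm, mul_one]
  have h1 := sg_l2 (h * A) P α (fun p => ((kk p : ℤ) : ZMod (h * A))) rm (by
    intro p hp Q hQ hQk
    refine le_trans ?_ (hrm (kk p))
    have h2 : Q ⊆ P.filter fun q => kk q = kk p := by
      intro q hq
      refine Finset.mem_filter.mpr ⟨hQ hq, ?_⟩
      have h3 := hQk q hq
      have hb : ∀ r ∈ P, 2 * |kk r| < ((h * A : ℕ) : ℤ) := by
        intro r hr
        obtain ⟨hr1, hr2⟩ := Finset.mem_product.mp hr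
        have := hbig r.1 hr1 r.2 (Finset.mem_range.mp hr2)
        push_cast
        exact this
      have hb1 := hb q (hQ hq)
      have hb2 := hb p hp
      have h4 : ((h * A : ℕ) : ℤ) ∣ kk p - kk q :=
        (ZMod.intCast_eq_intCast_iff_dvd_sub _ _ _).mp h3
      have h5 : |kk p - kk q| < ((h * A : ℕ) : ℤ) := by
        have := abs_sub (kk p) (kk q)
        linarith
      have h6 := Int.eq_zero_of_abs_lt_dvd h4 h5
      linarith
    exact_mod_cast Finset.card_le_card h2)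
  rw [hα2] at h1
  have h2 : ∀ z : ZMod A, sgFr A I N a z ((y - κ * z.val) / (A * h) + c) =
      ∑ p ∈ P, α p * ps (h * A) (((kk p : ℤ) : ZMod (h * A)) * ((z.val : ℕ) : ZMod (h * A))) := by
    intro z
    unfold sgFr
    rw [hP, Finset.sum_product]
    refine Finset.sum_congr rfl fun n _ => Finset.sum_congr rfl fun m _ => ?_
    have h3 : (((n ^ 2 + m ^ 2 : ℕ) : ZMod A) * z) =
        ((((n ^ 2 + m ^ 2) * (z.val : ℤ) : ℤ)) : ZMod A) := by
      push_cast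
      rw [ZMod.natCast_zmod_val]
    have h4 : (((kk (n, m) : ℤ) : ZMod (h * A)) * ((z.val : ℕ) : ZMod (h * A))) =
        ((kk (n, m) * (z.val : ℤ) : ℤ) : ZMod (h * A)) := by
      push_cast
      ring
    rw [h3, h4, sf_ps_int, sf_ps_int]
    simp only [hα, hkk]
    rw [mul_assoc, mul_assoc, ← eeG_add, ← eeG_add]
    congr 2
    push_cast
    field_simp
    ring
  have hinj : Function.Injective (fun z : ZMod A => ((z.val : ℕ) : ZMod (h * A))) := by
    intro z z' hz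
    simp only at hz
    have h3 := (ZMod.natCast_eq_natCast_iff' _ _ _).mp hz
    have hlt : ∀ w : ZMod A, w.val < h * A := fun w =>
      lt_of_lt_of_le (ZMod.val_lt w) (Nat.le_mul_of_pos_left A hh)
    rw [Nat.mod_eq_of_lt (hlt z), Nat.mod_eq_of_lt (hlt z')] at h3
    exact ZMod.val_injective A h3
  calc ∑ z : ZMod A, ‖sgFr A I N a z ((y - κ * z.val) / (A * h) + c)‖ ^ 2
      = ∑ z : ZMod A, ‖∑ p ∈ P, α p * ps (h * A)
        (((kk p : ℤ) : ZMod (h * A)) * ((z.val : ℕ) : ZMod (h * A)))‖ ^ 2 :=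
        Finset.sum_congr rfl fun z _ => by rw [h2 z]
    _ = ∑ w ∈ (univ : Finset (ZMod A)).image (fun z : ZMod A => ((z.val : ℕ) : ZMod (h * A))),
        ‖∑ p ∈ P, α p * ps (h * A) (((kk p : ℤ) : ZMod (h * A)) * w)‖ ^ 2 := by
        rw [Finset.sum_image (fun z _ z' _ hz => hinj hz)]
    _ ≤ ∑ w : ZMod (h * A), ‖∑ p ∈ P, α p * ps (h * A)
        (((kk p : ℤ) : ZMod (h * A)) * w)‖ ^ 2 :=
        Finset.sum_le_sum_of_subset_of_nonneg (Finset.subset_univ _) fun _ _ _ => by positivity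
    _ ≤ ((h * A : ℕ) : ℝ) * rm * nsq I N a := h1
    _ = _ := by push_cast; ring

theorem sg_cell (A h : ℕ) (X' Y' Z' κ v : ℤ) (hA : 0 < A) (hh : 1 ≤ h)
    (hdvd : (A : ℤ) ∣ h * X' + κ * Z' - Y' - v) :
    ∃ i ∈ range h, ∃ q : ℤ, (X' : ℝ) / A - q =
      ((Y' : ℝ) - κ * Z') / (A * h) + (i : ℝ) / h + (v : ℝ) / A / h := by
  have hA0 : (0 : ℝ) < A := by exact_mod_cast hA
  have hh0 : (0 : ℝ) < h := by exact_mod_cast hh
  obtain ⟨w, hw⟩ := hdvd
  have hhZ : (0 : ℤ) < h := by exact_mod_cast hh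
  refine ⟨(w % h).toNat, ?_, w / h, ?_⟩
  · rw [Finset.mem_range]
    have h1 := Int.emod_nonneg w hhZ.ne'
    have h2 := Int.emod_lt_of_pos w hhZ
    omega
  · have h1 := Int.emod_nonneg w hhZ.ne'
    have h2 : (((w % h).toNat : ℕ) : ℝ) = ((w % h : ℤ) : ℝ) := by
      have : (((w % h).toNat : ℕ) : ℤ) = w % h := Int.toNat_of_nonneg h1
      exact_mod_cast this
    rw [h2]
    have h3 : (w : ℝ) = (h : ℝ) * ((w / h : ℤ) : ℝ) + ((w % h : ℤ) : ℝ) := by
      have : w = h * (w / h) + w % h := (Int.mul_ediv_add_emod w h).symm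
      exact_mod_cast this
    have h4 : (h : ℝ) * X' + κ * Z' - Y' - v = A * w := by exact_mod_cast hw
    rw [h3] at h4
    generalize ((w / h : ℤ) : ℝ) = q at h4 ⊢
    generalize ((w % h : ℤ) : ℝ) = r at h4 ⊢
    field_simp
    linarith

theorem sg_tsum (A : ℕ) [NeZero A] (T : Finset (ZMod A)) (lam : ℝ) (H1 H2 : ZMod A → ℝ) (C : ℝ)
    (hC : 0 ≤ C) (h1 : ∀ z, 0 ≤ H1 z) (h2 : ∀ z, 0 ≤ H2 z)
    (hpt : ∀ z ∈ T, lam ^ 2 ≤ 2 * H1 z + 2 * (H2 z * C)) :
    (T.card : ℝ) * lam ^ 2 ≤ 2 * (∑ z, H1 z) + 2 * ((∑ z, H2 z) * C) := by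
  calc (T.card : ℝ) * lam ^ 2 = ∑ z ∈ T, lam ^ 2 := by
        rw [Finset.sum_const, nsmul_eq_mul]
    _ ≤ ∑ z ∈ T, (2 * H1 z + 2 * (H2 z * C)) := Finset.sum_le_sum hpt
    _ ≤ ∑ z : ZMod A, (2 * H1 z + 2 * (H2 z * C)) := by
        refine Finset.sum_le_sum_of_subset_of_nonneg (Finset.subset_univ _) fun z _ _ => ?_
        have h3 := h1 z
        have h4 := mul_nonneg (h2 z) hC
        linarith
    _ = _ := by
        rw [Finset.sum_add_distrib, ← Finset.mul_sum, ← Finset.mul_sum, Finset.sum_mul]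

theorem stepG (A N : ℕ) [NeZero A] (hN : 1 ≤ N) (I : Finset ℕ) (hI : ∀ n ∈ I, n ^ 2 < A)
    (a : ℕ → ℕ → ℂ) (ha : nsq I N a ≤ 1) (x : ZMod A → ZMod A) (T : Finset (ZMod A)) (lam : ℝ)
    (hlam : 0 ≤ lam) (hT : ∀ z ∈ T, lam ≤ ‖F A I N a z (x z)‖) (h : ℕ) (hh : 1 ≤ h) (κ : ℤ)
    (y0 : ZMod A) (ρ : ℝ) (hρ0 : 0 ≤ ρ)
    (hρ : ∀ z ∈ T, nrm A ((h : ZMod A) * x z + (κ : ZMod A) * z - y0) ≤ ρ) (rm : ℝ)
    (hbig : ∀ n ∈ I, ∀ m < N, 2 * |(h * (n ^ 2 + m ^ 2) - κ * m : ℤ)| < h * A)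
    (hrm : ∀ k : ℤ, (((I ×ˢ range N).filter fun p : ℕ × ℕ =>
      (h * (p.1 ^ 2 + p.2 ^ 2) - κ * p.2 : ℤ) = k).card : ℝ) ≤ rm) (J : ℕ) (hJ : 1 ≤ J) :
    lam ^ 2 * mu A T ≤ 2 * h ^ 2 * J * rm + 400 * N ^ 3 * ρ ^ 2 / (h * J) := by
  have hA : 0 < A := Nat.pos_of_ne_zero (NeZero.ne A)
  have hA0 : (0 : ℝ) < A := Nat.cast_pos.mpr hA
  have hh0 : (0 : ℝ) < h := by exact_mod_cast hh
  have hh1 : (1 : ℝ) ≤ h := by exact_mod_cast hh
  have hJ0 : (0 : ℝ) < J := by exact_mod_cast hJ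
  have hJ1 : (1 : ℝ) ≤ J := by exact_mod_cast hJ
  have hrm0 : 0 ≤ rm := le_trans (by positivity) (hrm 0)
  have hnsq0 : 0 ≤ nsq I N a := by
    unfold nsq
    positivity
  set δ : ℝ := ρ / (h * J) with hδ
  have hδ0 : 0 ≤ δ := by positivity
  set g : ZMod A → ℕ → ℕ → ℝ := fun z i j =>
    ((y0.val : ℝ) - κ * z.val) / (A * h) + ((i : ℝ) / h + (2 * (j : ℝ) + 1 - J) * ρ / J / h)
    with hg
  set bb : ZMod A → ℝ := fun z => ∑ m ∈ range N,
    ‖∑ n ∈ I, a n m * ps A (((n ^ 2 + m ^ 2 : ℕ) : ZMod A) * z)‖ ^ 2 with hbb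
  have hbb0 : ∀ z, 0 ≤ bb z := fun z => by positivity
  -- pointwise bound
  have hpt : ∀ z ∈ T, lam ^ 2 ≤ 2 * (∑ i ∈ range h, ∑ j ∈ range J,
      ‖sgFr A I N a z (g z i j)‖ ^ 2) + 2 * (bb z * (N * (2 * Real.pi * (N * δ)) ^ 2)) := by
    intro z hz
    set v : ℤ := ((h : ZMod A) * x z + (κ : ZMod A) * z - y0).valMinAbs with hv
    have hvρ : |(v : ℝ) / A| ≤ ρ := by
      have := hρ z hz
      unfold nrm at this
      rw [abs_div, abs_of_pos hA0]
      exact this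
    have hdvd : (A : ℤ) ∣ h * ((x z).val : ℤ) + κ * (z.val : ℤ) - (y0.val : ℤ) - v := by
      rw [← ZMod.intCast_zmod_eq_zero_iff_dvd]
      push_cast
      rw [ZMod.natCast_zmod_val, ZMod.natCast_zmod_val, ZMod.natCast_zmod_val, hv,
        ZMod.coe_valMinAbs, sub_self]
    obtain ⟨i, hi, q, hq⟩ := sg_cell A h _ _ _ κ v hA hh hdvd
    obtain ⟨j, hj, hj2⟩ := sg_net ((v : ℝ) / A) ρ J hJ hvρ
    have hclose : |((x z).val : ℝ) / A - (g z i j + q)| ≤ δ := by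
      have h1 : ((x z).val : ℝ) / A - (g z i j + q) =
          ((v : ℝ) / A - (2 * (j : ℝ) + 1 - J) * ρ / J) / h := by
        push_cast at hq
        simp only [hg]
        linear_combination hq
      rw [h1, abs_div, abs_of_pos hh0, hδ, div_le_iff₀ hh0]
      refine hj2.trans (le_of_eq ?_)
      field_simp
    have hd := sg_Fr_diff A I N a z (((x z).val : ℝ) / A) (g z i j + q) δ hclose
    rw [sg_Fr_per, ← sg_F_eq] at hd
    have h1 : ‖F A I N a z (x z)‖ ≤ ‖sgFr A I N a z (g z i j)‖ +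
        ‖F A I N a z (x z) - sgFr A I N a z (g z i j)‖ := by
      have := norm_add_le (sgFr A I N a z (g z i j))
        (F A I N a z (x z) - sgFr A I N a z (g z i j))
      rwa [add_sub_cancel] at this
    have h2 : lam ^ 2 ≤ 2 * ‖sgFr A I N a z (g z i j)‖ ^ 2 +
        2 * ‖F A I N a z (x z) - sgFr A I N a z (g z i j)‖ ^ 2 := by
      have h3 : lam ^ 2 ≤ (‖sgFr A I N a z (g z i j)‖ +
          ‖F A I N a z (x z) - sgFr A I N a z (g z i j)‖) ^ 2 :=
        pow_le_pow_left₀ hlam ((hT z hz).trans h1) 2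
      nlinarith [sq_nonneg (‖sgFr A I N a z (g z i j)‖ -
        ‖F A I N a z (x z) - sgFr A I N a z (g z i j)‖)]
    have h3 : ‖sgFr A I N a z (g z i j)‖ ^ 2 ≤ ∑ i ∈ range h, ∑ j ∈ range J,
        ‖sgFr A I N a z (g z i j)‖ ^ 2 := by
      refine le_trans ?_ (Finset.single_le_sum (f := fun i => ∑ j ∈ range J,
        ‖sgFr A I N a z (g z i j)‖ ^ 2) (fun _ _ => by positivity) hi)
      exact Finset.single_le_sum (f := fun j => ‖sgFr A I N a z (g z i j)‖ ^ 2)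
        (fun _ _ => by positivity) hj
    linarith
  have hB0 : 0 ≤ (N : ℝ) * (2 * Real.pi * (N * δ)) ^ 2 := by positivity
  -- summation
  have hsum : (T.card : ℝ) * lam ^ 2 ≤ 2 * (h * J * (h * A * rm * nsq I N a)) +
      2 * (A * nsq I N a * (N * (2 * Real.pi * (N * δ)) ^ 2)) := by
    refine (sg_tsum A T lam _ bb _ hB0 (fun z => ?_) hbb0 hpt).trans ?_
    · exact Finset.sum_nonneg fun i _ => Finset.sum_nonneg fun j _ => sq_nonneg _
    · refine add_le_add ?_ ?_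
      · refine mul_le_mul_of_nonneg_left ?_ (by norm_num)
        rw [Finset.sum_comm]
        have h1 : ∀ i ∈ range h, ∑ z : ZMod A, ∑ j ∈ range J, ‖sgFr A I N a z (g z i j)‖ ^ 2 ≤
            J * (h * A * rm * nsq I N a) := by
          intro i _
          rw [Finset.sum_comm]
          have h2 : ∀ j ∈ range J, ∑ z : ZMod A, ‖sgFr A I N a z (g z i j)‖ ^ 2 ≤
              h * A * rm * nsq I N a := fun j _ =>
            sg_main A N I a h hh κ rm hbig hrm (y0.val : ℝ)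
              ((i : ℝ) / h + (2 * (j : ℝ) + 1 - J) * ρ / J / h)
          refine (Finset.sum_le_sum h2).trans ?_
          rw [Finset.sum_const, Finset.card_range, nsmul_eq_mul]
        refine (Finset.sum_le_sum h1).trans ?_
        rw [Finset.sum_const, Finset.card_range, nsmul_eq_mul]
        exact le_of_eq (by ring)
      · refine mul_le_mul_of_nonneg_left ?_ (by norm_num)
        exact mul_le_mul_of_nonneg_right (sg_b A N I hI a) hB0
  have hsum2 : (T.card : ℝ) * lam ^ 2 ≤ A * (2 * h ^ 2 * J * rm +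
      2 * (N * (2 * Real.pi * (N * δ)) ^ 2)) := by
    refine hsum.trans ?_
    have h1 : 2 * (h * J * (h * A * rm * nsq I N a)) ≤ A * (2 * h ^ 2 * J * rm) := by
      calc 2 * ((h : ℝ) * J * (h * A * rm * nsq I N a)) = A * (2 * h ^ 2 * J * rm) * nsq I N a := by
            ring
        _ ≤ A * (2 * h ^ 2 * J * rm) * 1 := by gcongr
        _ = _ := mul_one _
    have h2 : 2 * (A * nsq I N a * (N * (2 * Real.pi * (N * δ)) ^ 2)) ≤
        A * (2 * (N * (2 * Real.pi * (N * δ)) ^ 2)) := by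
      calc 2 * ((A : ℝ) * nsq I N a * (N * (2 * Real.pi * (N * δ)) ^ 2)) =
            A * (2 * (N * (2 * Real.pi * (N * δ)) ^ 2)) * nsq I N a := by ring
        _ ≤ A * (2 * (N * (2 * Real.pi * (N * δ)) ^ 2)) * 1 := by gcongr
        _ = _ := mul_one _
    linarith
  have hπ : Real.pi ^ 2 ≤ 10 := by
    have h1 := Real.pi_lt_d2
    have h2 := Real.pi_pos
    nlinarith
  have herr : 2 * (N * (2 * Real.pi * (N * δ)) ^ 2) ≤ 400 * N ^ 3 * ρ ^ 2 / (h * J) := by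
    have h1 : 2 * ((N : ℝ) * (2 * Real.pi * (N * δ)) ^ 2) = 8 * Real.pi ^ 2 * (N ^ 3 * δ ^ 2) := by
      ring
    have h2 : δ ^ 2 ≤ ρ ^ 2 / (h * J) := by
      rw [hδ, div_pow]
      refine div_le_div_of_nonneg_left (by positivity) (by positivity) ?_
      have h3 : (1 : ℝ) ≤ h * J := one_le_mul_of_one_le_of_one_le hh1 hJ1
      nlinarith
    have h4 : 8 * Real.pi ^ 2 * ((N : ℝ) ^ 3 * δ ^ 2) ≤ 8 * 10 * (N ^ 3 * (ρ ^ 2 / (h * J))) := by
      gcongr
    rw [h1]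
    refine h4.trans ?_
    have h5 : 400 * (N : ℝ) ^ 3 * ρ ^ 2 / (h * J) = 400 * (N ^ 3 * (ρ ^ 2 / (h * J))) := by ring
    rw [h5]
    have h6 : 0 ≤ (N : ℝ) ^ 3 * (ρ ^ 2 / (h * J)) := by positivity
    linarith
  unfold mu
  have h1 : lam ^ 2 * ((T.card : ℝ) / A) = (T.card : ℝ) * lam ^ 2 / A := by ring
  rw [h1, div_le_iff₀ hA0]
  refine hsum2.trans ?_
  rw [mul_comm]
  gcongr

end Stz
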