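import Pool.Agent.Helper89.Stz.CL1
import Pool.Agent.Helper80.Stz.Four
import Pool.Agent.Helper89.Stz.StepE
import Pool.Agent.Helper89.Stz.StepFG

set_option autoImplicit false

namespace Stz

open Finset

theorem abs_valMinAbs_cast (A : ℕ) [NeZero A] (k : ℤ) (hk : 2 * |k| ≤ A) :
    |((k : ZMod A)).valMinAbs| = |k| := by
  rcases lt_or_ge (-(A : ℤ)) (2 * k) with h | h
  · have h1 : ((k : ZMod A)).valMinAbs = k := by
      rw [ZMod.valMinAbs_spec]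
      refine ⟨rfl, ?_, ?_⟩
      · linarith
      · have := le_abs_self k; linarith
    rw [h1]
  · have h2 : 2 * k = -(A : ℤ) := by
      have := neg_abs_le k; linarith
    have h1 : ((k : ZMod A)).valMinAbs = -k := by
      rw [ZMod.valMinAbs_spec]
      constructor
      · have : ((k - (-k) : ℤ) : ZMod A) = 0 := by
          rw [show k - (-k) = 2 * k by ring, h2]; simp
        rw [Int.cast_sub, sub_eq_zero] at this
        exact this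
      · constructor
        · have hA : (0 : ℤ) < A := by exact_mod_cast Nat.pos_of_ne_zero (NeZero.ne A)
          linarith
        · linarith
    rw [h1, abs_neg]

theorem mu_le_one (A : ℕ) [NeZero A] (s : Finset (ZMod A)) : mu A s ≤ 1 := by
  unfold mu
  rw [div_le_one (by exact_mod_cast Nat.pos_of_ne_zero (NeZero.ne A))]
  have := Finset.card_le_univ s
  rw [ZMod.card] at this
  exact_mod_cast this

theorem mu_nonneg (A : ℕ) (s : Finset (ZMod A)) : 0 ≤ mu A s := by unfold mu; positivity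

open Classical in
/-- final contradiction -/
theorem CL_part2 (ζ : ℝ) (hζ : (10 : ℝ) ^ 12 ≤ ζ) (N b A : ℕ) [NeZero A]
    (hNζ : (N : ℝ) = ζ ^ (20000 : ℤ)) (hb : (b : ℝ) ≤ ζ ^ (25000 : ℤ))
    (hA : Good ((N + 1) ^ 60) A) (a : ℕ → ℕ → ℂ)
    (ha : nsq (Icc (b + 1) (b + N)) N a ≤ 1) (x : ZMod A → ZMod A) (T : Finset (ZMod A))
    (lam : ℝ) (hlam : 0 < lam) (hT : ∀ z ∈ T, lam ≤ ‖F A (Icc (b + 1) (b + N)) N a z (x z)‖)
    (hlam2 : ζ ^ (19999 : ℤ) ≤ lam ^ 2)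
    (V : ℝ) (hV : ∀ k : ℤ, tv A (fT A x T k) ≤ V) (hV1 : V ≤ ζ ^ (56000 : ℤ))
    (Y3 : ℕ) (Q3 : Finset ℕ)
    (hY3 : ζ ^ (9965 : ℤ) ≤ Y3) (hY3' : (2 * Y3 : ℝ) ≤ ζ ^ (9966 : ℤ))
    (hQ3 : ∀ q ∈ Q3, q.Prime ∧ Y3 ≤ q ∧ q ≤ 2 * Y3) (hc3 : ζ ^ (9965 : ℤ) ≤ Q3.card)
    (h : ℕ) (hh1 : 1 ≤ h) (hh2 : (h : ℝ) ≤ ζ ^ (62 : ℤ))
    (hcount : ζ ^ (-61 : ℤ) / 16 * Q3.offDiag.card ≤
      ((Q3.offDiag.filter fun p => ∃ k : ℤ, (p.1 : ℤ) ∣ k ∧ (p.2 : ℤ) ∣ k ∧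
        2 * |k| ≤ A ∧ ζ ^ (-61 : ℤ) / 16 ≤
          ‖ft A (fT A x T (p.1 * p.2 * h : ℕ)) (k : ZMod A)‖ ^ 2).card : ℝ))
    (hdiv : ∀ n : ℕ, n ≠ 0 → (n : ℝ) ≤ ζ ^ (60000 : ℤ) → (n.divisors.card : ℝ) ≤ ζ ^ (2 : ℤ))
    (hr2 : ∀ (R : ℤ), 1 ≤ R → (R : ℝ) ≤ ζ ^ (120000 : ℤ) → ∀ S : Finset (ℤ × ℤ),
      (∀ p ∈ S, p.1 ^ 2 + p.2 ^ 2 = R) → (S.card : ℝ) ≤ ζ ^ (2 : ℤ)) : False := by
  have h1 : (1 : ℝ) ≤ ζ := by linarith
  have h0 : (0 : ℝ) < ζ := by linarith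
  have hA0 : 0 < A := Nat.pos_of_ne_zero (NeZero.ne A)
  have hN1 : 1 ≤ N := by
    have : (1 : ℝ) ≤ N := by rw [hNζ]; exact one_le_zpow₀ h1 (by norm_num)
    exact_mod_cast this
  have hNpos : (0 : ℝ) < N := by exact_mod_cast hN1
  have hAge : (N + 1) ^ 60 ≤ A := Nat.le_of_dvd hA0 (hA _ (Nat.one_le_pow _ _ (by omega)) le_rfl)
  have hAge' : ((N : ℝ) + 1) ^ 60 ≤ A := by exact_mod_cast hAge
  have hAζ : ζ ^ (1200000 : ℤ) ≤ A := by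
    refine le_trans ?_ hAge'
    calc ζ ^ (1200000 : ℤ) = (ζ ^ (20000 : ℤ)) ^ 60 := by rw [w_pow]; norm_num
      _ ≤ ((N : ℝ) + 1) ^ 60 := by
        rw [← hNζ]; exact pow_le_pow_left₀ hNpos.le (by linarith) 60
  set P := Q3.offDiag.filter fun p => ∃ k : ℤ, (p.1 : ℤ) ∣ k ∧ (p.2 : ℤ) ∣ k ∧
        2 * |k| ≤ A ∧ ζ ^ (-61 : ℤ) / 16 ≤
          ‖ft A (fT A x T (p.1 * p.2 * h : ℕ)) (k : ZMod A)‖ ^ 2 with hP
  set D := P.image fun p => p.1 * p.2 with hD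
  have hPD : P.card ≤ 2 * D.card := by
    refine Finset.card_le_mul_card_image P 2 ?_
    intro d hd
    obtain ⟨p0, hp0, rfl⟩ := mem_image.1 hd
    have hp0' := (mem_filter.1 hp0).1
    rw [mem_offDiag] at hp0'
    obtain ⟨hq1, hq2, hne⟩ := hp0'
    have hpr1 := (hQ3 _ hq1).1
    have hpr2 := (hQ3 _ hq2).1
    have hsub : (P.filter fun p => p.1 * p.2 = p0.1 * p0.2) ⊆ {p0, (p0.2, p0.1)} := by
      intro p hp
      obtain ⟨hp1, hp2⟩ := mem_filter.1 hp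
      have hp1' := (mem_filter.1 hp1).1
      rw [mem_offDiag] at hp1'
      have hpp1 := (hQ3 _ hp1'.1).1
      have hpp2 := (hQ3 _ hp1'.2.1).1
      have hdvd : p.1 ∣ p0.1 * p0.2 := ⟨p.2, hp2.symm⟩
      rcases (hpp1.dvd_mul).1 hdvd with hd1 | hd1
      · have he : p.1 = p0.1 := (Nat.prime_dvd_prime_iff_eq hpp1 hpr1).1 hd1
        have he2 : p.2 = p0.2 := by
          rw [he] at hp2
          exact Nat.eq_of_mul_eq_mul_left hpr1.pos hp2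
        simp [Prod.ext_iff, he, he2]
      · have he : p.1 = p0.2 := (Nat.prime_dvd_prime_iff_eq hpp1 hpr2).1 hd1
        have he2 : p.2 = p0.1 := by
          rw [he, mul_comm p0.1 p0.2] at hp2
          exact Nat.eq_of_mul_eq_mul_left hpr2.pos hp2
        simp [Prod.ext_iff, he, he2]
    exact (card_le_card hsub).trans (card_le_two)
  -- the chosen frequencies
  have hex : ∀ d ∈ D, ∃ k : ℤ, (d : ℤ) ∣ k ∧ 2 * |k| ≤ A ∧ ζ ^ (-61 : ℤ) / 16 ≤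
      ‖ft A (fT A x T (d * h : ℕ)) (k : ZMod A)‖ ^ 2 := by
    intro d hd
    obtain ⟨p, hp, rfl⟩ := mem_image.1 hd
    obtain ⟨hp1, k, hk1, hk2, hk3, hk4⟩ := mem_filter.1 hp
    refine ⟨k, ?_, hk3, hk4⟩
    rw [mem_offDiag] at hp1
    have hcop : Nat.Coprime p.1 p.2 :=
      (Nat.coprime_primes (hQ3 _ hp1.1).1 (hQ3 _ hp1.2.1).1).2 hp1.2.2
    have hcop' : IsCoprime (p.1 : ℤ) (p.2 : ℤ) := Nat.isCoprime_iff_coprime.2 hcop
    push_cast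
    exact hcop'.mul_dvd hk1 hk2
  choose! K hKd hKA hKft using hex
  have hσ : 0 < ζ ^ (-31 : ℤ) := w_pos h1 _
  have hKσ : ∀ d ∈ D, ζ ^ (-31 : ℤ) ≤ ‖ft A (fT A x T (d * h : ℕ)) (K d : ZMod A)‖ := by
    intro d hd
    have h2 := hKft d hd
    have h3 : (ζ ^ (-31 : ℤ)) ^ 2 ≤ ‖ft A (fT A x T (d * h : ℕ)) (K d : ZMod A)‖ ^ 2 := by
      refine le_trans ?_ h2
      rw [w_pow, le_div_iff₀ (by norm_num)]
      calc ζ ^ ((-31 : ℤ) * (2 : ℕ)) * 16 = 16 * ζ ^ (-62 : ℤ) := by norm_num; ring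
        _ ≤ ζ ^ (-61 : ℤ) := cw_le h1 (by linarith) (by norm_num)
    exact (pow_le_pow_iff_left₀ hσ.le (norm_nonneg _) (by norm_num)).1 h3
  have hKm : ∀ d ∈ D, |(K d : ℝ)| ≤ ζ ^ (56031 : ℤ) := by
    intro d hd
    by_cases hk0 : K d = 0
    · rw [hk0]; simp only [Int.cast_zero, abs_zero]; exact (w_pos h1 _).le
    have habs := abs_valMinAbs_cast A (K d) (hKA d hd)
    have hne : ((K d : ℤ) : ZMod A) ≠ 0 := by
      intro hz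
      rw [hz] at habs
      simp at habs
      exact hk0 (abs_eq_zero.1 habs.symm)
    have h2 := ft_le_tv A (fT A x T (d * h : ℕ)) (K d : ZMod A) hne
    have habs' : |(((K d : ZMod A)).valMinAbs : ℝ)| = |(K d : ℝ)| := by exact_mod_cast habs
    rw [habs'] at h2
    have hkpos : 0 < |(K d : ℝ)| := abs_pos.2 (by exact_mod_cast hk0)
    have h3 : ζ ^ (-31 : ℤ) ≤ V / (4 * |(K d : ℝ)|) :=
      (hKσ d hd).trans (h2.trans (div_le_div_of_nonneg_right (hV _) (by positivity)))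
    rw [le_div_iff₀ (by positivity)] at h3
    have h4 : ζ ^ (-31 : ℤ) * |(K d : ℝ)| ≤ ζ ^ (56000 : ℤ) := by
      have : 0 ≤ ζ ^ (-31 : ℤ) * |(K d : ℝ)| := by positivity
      linarith
    calc |(K d : ℝ)| = ζ ^ (31 : ℤ) * (ζ ^ (-31 : ℤ) * |(K d : ℝ)|) := by
          rw [← mul_assoc, w_mul h1]; norm_num
      _ ≤ ζ ^ (31 : ℤ) * ζ ^ (56000 : ℤ) := mul_le_mul_of_nonneg_left h4 (w_pos h1 _).le
      _ = ζ ^ (56031 : ℤ) := by rw [w_mul h1]; norm_num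
  -- the range of `d`
  set X : ℝ := (2 * Y3 : ℝ) ^ 2 with hX
  have hX1 : ζ ^ (19930 : ℤ) ≤ X := by
    calc ζ ^ (19930 : ℤ) = (ζ ^ (9965 : ℤ)) ^ 2 := by rw [w_pow]; norm_num
      _ ≤ (2 * Y3 : ℝ) ^ 2 := by have := w_pos h1 9965; gcongr; linarith
  have hX2 : X ≤ ζ ^ (19932 : ℤ) := by
    calc X ≤ (ζ ^ (9966 : ℤ)) ^ 2 := by rw [hX]; gcongr
      _ = ζ ^ (19932 : ℤ) := by rw [w_pow]; norm_num
  have hXpos : 0 < X := (w_pos h1 _).trans_le hX1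
  have hDX : ∀ d ∈ D, X / 4 ≤ d ∧ (d : ℝ) ≤ X := by
    intro d hd
    obtain ⟨p, hp, rfl⟩ := mem_image.1 hd
    obtain ⟨h2, h3⟩ := mem_offDiag_le hQ3 (mem_filter.1 hp).1
    push_cast
    refine ⟨?_, h3⟩
    rw [hX]; nlinarith
  have hDcard : ζ ^ (-64 : ℤ) * X ≤ D.card := by
    have hQ2 : 2 ≤ Q3.card := by
      have : (2 : ℝ) ≤ Q3.card := by
        calc (2 : ℝ) ≤ ζ := by linarith
          _ = ζ ^ (1 : ℤ) := (zpow_one ζ).symm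
          _ ≤ ζ ^ (9965 : ℤ) := w_le h1 (by norm_num)
          _ ≤ _ := hc3
      exact_mod_cast this
    have h2 := offDiag_card_ge Q3 hQ2
    have h3 : ζ ^ (19930 : ℤ) ≤ (Q3.card : ℝ) ^ 2 := by
      calc ζ ^ (19930 : ℤ) = (ζ ^ (9965 : ℤ)) ^ 2 := by rw [w_pow]; norm_num
        _ ≤ _ := by have := w_pos h1 9965; gcongr
    have h4 : (P.card : ℝ) ≤ 2 * D.card := by exact_mod_cast hPD
    have h5 : ζ ^ (-61 : ℤ) / 16 * (ζ ^ (19930 : ℤ) / 2) ≤ P.card := by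
      refine le_trans ?_ hcount
      refine mul_le_mul_of_nonneg_left ?_ (div_nonneg (w_pos h1 _).le (by norm_num))
      linarith
    have h6 : ζ ^ (-61 : ℤ) / 16 * (ζ ^ (19930 : ℤ) / 2) = ζ ^ (19869 : ℤ) / 32 := by
      have : ζ ^ (-61 : ℤ) * ζ ^ (19930 : ℤ) = ζ ^ (19869 : ℤ) := by rw [w_mul h1]; norm_num
      rw [← this]; ring
    calc ζ ^ (-64 : ℤ) * X ≤ ζ ^ (-64 : ℤ) * ζ ^ (19932 : ℤ) :=
          mul_le_mul_of_nonneg_left hX2 (w_pos h1 _).le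
      _ = ζ ^ (19868 : ℤ) := by rw [w_mul h1]; norm_num
      _ ≤ ζ ^ (19869 : ℤ) / 64 := by
          rw [le_div_iff₀ (by norm_num)]
          calc ζ ^ (19868 : ℤ) * 64 = 64 * ζ ^ (19868 : ℤ) := by ring
            _ ≤ _ := cw_le h1 (by linarith) (by norm_num)
      _ ≤ D.card := by rw [h6] at h5; linarith
  -- parameters of step E
  have hE0 : (ζ ^ (-31 : ℤ)) ^ 6 * (ζ ^ (-64 : ℤ)) ^ 2 / 64 = ζ ^ (-314 : ℤ) / 64 := by
    rw [w_pow, w_pow, w_mul h1]; norm_num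
  set θ1 : ℝ := ζ ^ (-314 : ℤ) / 64 with hθ1
  have hE1 : (ζ ^ (-31 : ℤ)) ^ 6 * θ1 ^ 2 / 64 = ζ ^ (-814 : ℤ) / 262144 := by
    rw [hθ1, div_pow, w_pow, w_pow]
    rw [show ζ ^ ((-31 : ℤ) * (6 : ℕ)) * (ζ ^ ((-314 : ℤ) * (2 : ℕ)) / 64 ^ 2) / 64 =
      (ζ ^ ((-31 : ℤ) * (6 : ℕ)) * ζ ^ ((-314 : ℤ) * (2 : ℕ))) / 262144 by ring, w_mul h1]
    norm_num
  set θ2 : ℝ := ζ ^ (-814 : ℤ) / 262144 with hθ2
  have hθ2pos : 0 < θ2 := by rw [hθ2]; have := w_pos h1 (-814); positivity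
  set E : ℕ := ⌈48 / ((ζ ^ (-31 : ℤ)) ^ 2 * θ1 ^ 2)⌉₊ with hEdef
  have hEval : 48 / ((ζ ^ (-31 : ℤ)) ^ 2 * θ1 ^ 2) = 196608 * ζ ^ (690 : ℤ) := by
    rw [hθ1, div_pow, w_pow, w_pow]
    have h2 : ζ ^ ((-31 : ℤ) * (2 : ℕ)) * (ζ ^ ((-314 : ℤ) * (2 : ℕ)) / 64 ^ 2) =
        (ζ ^ (690 : ℤ))⁻¹ / 4096 := by
      rw [w_inv, mul_div_assoc', w_mul h1]; norm_num
    rw [h2]
    have := w_pos h1 690
    field_simp
    norm_num
  have hEle : (E : ℝ) ≤ ζ ^ (691 : ℤ) := by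
    have h2 : (E : ℝ) < 48 / ((ζ ^ (-31 : ℤ)) ^ 2 * θ1 ^ 2) + 1 := by
      apply Nat.ceil_lt_add_one
      rw [hEval]; have := w_pos h1 690; positivity
    rw [hEval] at h2
    have h3 : (1 : ℝ) ≤ ζ ^ (690 : ℤ) := one_le_zpow₀ h1 (by norm_num)
    have h4 : 196609 * ζ ^ (690 : ℤ) ≤ ζ ^ (691 : ℤ) := cw_le h1 (by linarith) (by norm_num)
    linarith
  have hE0' : (0 : ℝ) ≤ E := by positivity
  have hX2' : ζ ^ (39860 : ℤ) ≤ X ^ 2 := by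
    calc ζ ^ (39860 : ℤ) = (ζ ^ (19930 : ℤ)) ^ 2 := by rw [w_pow]; norm_num
      _ ≤ X ^ 2 := by have := w_pos h1 19930; gcongr
  have hcm : 128 * E * ζ ^ (56031 : ℤ) / X ^ 2 ≤ 128 * ζ ^ (16862 : ℤ) := by
    rw [div_le_iff₀ (by positivity)]
    calc 128 * (E : ℝ) * ζ ^ (56031 : ℤ) ≤ 128 * ζ ^ (691 : ℤ) * ζ ^ (56031 : ℤ) := by
          have := w_pos h1 56031; gcongr
      _ = 128 * (ζ ^ (691 : ℤ) * ζ ^ (56031 : ℤ)) := by ring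
      _ = 128 * (ζ ^ (16862 : ℤ) * ζ ^ (39860 : ℤ)) := by rw [w_mul h1, w_mul h1]; norm_num
      _ = 128 * ζ ^ (16862 : ℤ) * ζ ^ (39860 : ℤ) := by ring
      _ ≤ 128 * ζ ^ (16862 : ℤ) * X ^ 2 := by have := w_pos h1 16862; gcongr
  obtain ⟨κ, D', hD'D, hD'card, hκ⟩ := stepE A x T h D X (ζ ^ (-64 : ℤ)) θ1 θ2 (ζ ^ (-31 : ℤ))
    (ζ ^ (56031 : ℤ)) (ζ ^ (2 : ℤ)) K
    ((one_le_zpow₀ h1 (by norm_num)).trans hX1) (w_pos h1 _) hσ (by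
      calc ζ ^ (-31 : ℤ) ≤ ζ ^ (0 : ℤ) := w_le h1 (by norm_num)
        _ = 1 := zpow_zero _) (by
      calc ζ ^ (-64 : ℤ) ≤ ζ ^ (0 : ℤ) := w_le h1 (by norm_num)
        _ = 1 := zpow_zero _) hDX hDcard hKd (fun d hd => ⟨hKm d hd, hKσ d hd⟩) (by
      calc 4 * ζ ^ (56031 : ℤ) ≤ ζ ^ (56032 : ℤ) := cw_le h1 (by linarith) (by norm_num)
        _ < ζ ^ (1200000 : ℤ) := zpow_lt_zpow_right₀ (by linarith) (by norm_num)
        _ ≤ A := hAζ) (one_le_zpow₀ h1 (by norm_num)) hE0.symm hE1.symm E (Nat.le_ceil _) (by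
      calc 100 * (E : ℝ) ≤ 100 * ζ ^ (691 : ℤ) := by gcongr
        _ ≤ ζ ^ (19930 : ℤ) := cw_le h1 (by linarith) (by norm_num)
        _ ≤ X := hX1) (by
      intro n hn hn2
      refine hdiv n hn (hn2.trans ?_)
      have h2 : 16 * (E : ℝ) * ζ ^ (56031 : ℤ) ≤ 16 * ζ ^ (56722 : ℤ) := by
        calc 16 * (E : ℝ) * ζ ^ (56031 : ℤ) ≤ 16 * ζ ^ (691 : ℤ) * ζ ^ (56031 : ℤ) := by
              have := w_pos h1 56031; gcongr
          _ = 16 * (ζ ^ (691 : ℤ) * ζ ^ (56031 : ℤ)) := by ring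
          _ = _ := by rw [w_mul h1]; norm_num
      have h3 : 2 * (E : ℝ) ^ 2 * (128 * E * ζ ^ (56031 : ℤ) / X ^ 2) ≤
          256 * ζ ^ (18244 : ℤ) := by
        calc 2 * (E : ℝ) ^ 2 * (128 * E * ζ ^ (56031 : ℤ) / X ^ 2) ≤
              2 * (ζ ^ (691 : ℤ)) ^ 2 * (128 * ζ ^ (16862 : ℤ)) := by
              have := w_pos h1 691
              have := w_pos h1 16862
              gcongr
          _ = 256 * ((ζ ^ (691 : ℤ)) ^ 2 * ζ ^ (16862 : ℤ)) := by ring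
          _ = 256 * ζ ^ (18244 : ℤ) := by rw [w_pow, w_mul h1]; norm_num
      have h4 : 16 * ζ ^ (56722 : ℤ) ≤ ζ ^ (59998 : ℤ) := cw_le h1 (by linarith) (by norm_num)
      have h5 : 256 * ζ ^ (18244 : ℤ) ≤ ζ ^ (59998 : ℤ) := cw_le h1 (by linarith) (by norm_num)
      have h6 : 2 * ζ ^ (59998 : ℤ) ≤ ζ ^ (60000 : ℤ) := cw_le h1 (by linarith) (by norm_num)
      linarith) (by
      have h2 : (2 * (128 * E * ζ ^ (56031 : ℤ) / X ^ 2) + 1) * ζ ^ (2 : ℤ) ≤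
          257 * ζ ^ (16864 : ℤ) := by
        have h3 : (1 : ℝ) ≤ ζ ^ (16862 : ℤ) := one_le_zpow₀ h1 (by norm_num)
        calc (2 * (128 * E * ζ ^ (56031 : ℤ) / X ^ 2) + 1) * ζ ^ (2 : ℤ) ≤
              (257 * ζ ^ (16862 : ℤ)) * ζ ^ (2 : ℤ) := by
              refine mul_le_mul_of_nonneg_right ?_ (w_pos h1 _).le
              linarith
          _ = 257 * (ζ ^ (16862 : ℤ) * ζ ^ (2 : ℤ)) := by ring
          _ = _ := by rw [w_mul h1]; norm_num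
      refine h2.trans ?_
      have h4 : θ2 * ζ ^ (19930 : ℤ) / 2 ≤ θ2 * X / 2 := by gcongr
      refine le_trans ?_ h4
      have h5 : θ2 * ζ ^ (19930 : ℤ) = ζ ^ (19116 : ℤ) / 262144 := by
        rw [hθ2, div_mul_eq_mul_div, w_mul h1]; norm_num
      rw [h5, div_div, le_div_iff₀ (by norm_num)]
      calc 257 * ζ ^ (16864 : ℤ) * (262144 * 2) = 134742016 * ζ ^ (16864 : ℤ) := by ring
        _ ≤ ζ ^ (19116 : ℤ) := cw_le h1 (by linarith) (by norm_num)) (by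
      have h2 : 256 * (E : ℝ) ^ 2 * ζ ^ (56031 : ℤ) ≤ 256 * ζ ^ (57413 : ℤ) := by
        calc 256 * (E : ℝ) ^ 2 * ζ ^ (56031 : ℤ) ≤
              256 * (ζ ^ (691 : ℤ)) ^ 2 * ζ ^ (56031 : ℤ) := by
              have := w_pos h1 56031; gcongr
          _ = 256 * ((ζ ^ (691 : ℤ)) ^ 2 * ζ ^ (56031 : ℤ)) := by ring
          _ = _ := by rw [w_pow, w_mul h1]; norm_num
      refine lt_of_le_of_lt h2 ?_
      have h3 : ζ ^ (59790 : ℤ) ≤ X ^ 3 := by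
        calc ζ ^ (59790 : ℤ) = (ζ ^ (19930 : ℤ)) ^ 3 := by rw [w_pow]; norm_num
          _ ≤ X ^ 3 := by have := w_pos h1 19930; gcongr
      have h4 : θ2 * ζ ^ (59790 : ℤ) ≤ θ2 * X ^ 3 := by gcongr
      refine lt_of_lt_of_le ?_ h4
      have h5 : θ2 * ζ ^ (59790 : ℤ) = ζ ^ (58976 : ℤ) / 262144 := by
        rw [hθ2, div_mul_eq_mul_div, w_mul h1]; norm_num
      rw [h5, lt_div_iff₀ (by norm_num)]
      calc 256 * ζ ^ (57413 : ℤ) * 262144 = 67108864 * ζ ^ (57413 : ℤ) := by ring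
        _ ≤ ζ ^ (57414 : ℤ) := cw_le h1 (by linarith) (by norm_num)
        _ < ζ ^ (58976 : ℤ) := zpow_lt_zpow_right₀ (by linarith) (by norm_num)) (by
      have h4 : θ2 * ζ ^ (19930 : ℤ) ≤ θ2 * X := by gcongr
      refine le_trans ?_ h4
      have h5 : θ2 * ζ ^ (19930 : ℤ) = ζ ^ (19116 : ℤ) / 262144 := by
        rw [hθ2, div_mul_eq_mul_div, w_mul h1]; norm_num
      rw [h5, le_div_iff₀ (by norm_num)]
      calc (8 : ℝ) * 262144 = 2097152 * ζ ^ (0 : ℤ) := by norm_num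
        _ ≤ ζ ^ (19116 : ℤ) := cw_le h1 (by linarith) (by norm_num))
  -- step F
  have hD'1 : ∀ d ∈ D', 1 ≤ d ∧ (d : ℝ) ≤ X := by
    intro d hd
    obtain ⟨h2, h3⟩ := hDX d (hD'D hd)
    refine ⟨?_, h3⟩
    have : (0 : ℝ) < d := lt_of_lt_of_le (by positivity) h2
    exact_mod_cast this
  have hX2'' : 2 ≤ X := by
    calc (2 : ℝ) ≤ ζ := by linarith
      _ = ζ ^ (1 : ℤ) := (zpow_one ζ).symm
      _ ≤ ζ ^ (19930 : ℤ) := w_le h1 (by norm_num)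
      _ ≤ X := hX1
  obtain ⟨T2, y0, hT2T, hT2mu, hT2⟩ := stepF A x T h κ D' X (θ2 / 2) (ζ ^ (-31 : ℤ))
    (ζ ^ (440 : ℤ)) hX2'' (by positivity) hσ (w_pos h1 _) hD'1 hD'card (by
      intro d hd
      have h2 := hKσ d (hD'D hd)
      rw [hκ d hd] at h2
      exact h2) (by
      rw [hθ2, w_pow, w_pow]
      have h2 : 4 * ζ ^ ((440 : ℤ) * (2 : ℕ)) * ζ ^ ((-31 : ℤ) * (2 : ℕ)) *
          (ζ ^ (-814 : ℤ) / 262144 / 2) = ζ ^ (4 : ℤ) / 131072 := by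
        have : ζ ^ ((440 : ℤ) * (2 : ℕ)) * ζ ^ ((-31 : ℤ) * (2 : ℕ)) * ζ ^ (-814 : ℤ) =
            ζ ^ (4 : ℤ) := by rw [w_mul h1, w_mul h1]; norm_num
        rw [← this]; ring
      rw [h2, le_div_iff₀ (by norm_num)]
      calc (1 : ℝ) * 131072 = 131072 * ζ ^ (0 : ℤ) := by norm_num
        _ ≤ ζ ^ (4 : ℤ) := cw_le h1 (by linarith) (by norm_num))
  have hT2mu' : ζ ^ (-877 : ℤ) ≤ mu A T2 := by
    refine le_trans ?_ hT2mu
    rw [hθ2, w_pow]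
    have h2 : ζ ^ ((-31 : ℤ) * (2 : ℕ)) * (ζ ^ (-814 : ℤ) / 262144 / 2) / 8 =
        ζ ^ (-876 : ℤ) / 4194304 := by
      have : ζ ^ ((-31 : ℤ) * (2 : ℕ)) * ζ ^ (-814 : ℤ) = ζ ^ (-876 : ℤ) := by
        rw [w_mul h1]; norm_num
      rw [← this]; ring
    rw [h2, le_div_iff₀ (by norm_num)]
    calc ζ ^ (-877 : ℤ) * 4194304 = 4194304 * ζ ^ (-877 : ℤ) := by ring
      _ ≤ _ := cw_le h1 (by linarith) (by norm_num)
  have hρ : ∀ z ∈ T2, nrm A ((h : ZMod A) * x z + (κ : ZMod A) * z - y0) ≤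
      ζ ^ (-19490 : ℤ) := by
    intro z hz
    refine (hT2 z hz).trans ?_
    rw [div_le_iff₀ hXpos]
    calc ζ ^ (440 : ℤ) = ζ ^ (-19490 : ℤ) * ζ ^ (19930 : ℤ) := by rw [w_mul h1]; norm_num
      _ ≤ ζ ^ (-19490 : ℤ) * X := mul_le_mul_of_nonneg_left hX1 (w_pos h1 _).le
  -- size of `κ`
  have hD'ne : D'.Nonempty := by
    rw [← card_pos]
    have : (0 : ℝ) < D'.card := lt_of_lt_of_le (by positivity) hD'card
    exact_mod_cast this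
  have hκle : |(κ : ℝ)| ≤ ζ ^ (56031 : ℤ) := by
    obtain ⟨d, hd⟩ := hD'ne
    have h2 := hKm d (hD'D hd)
    rw [hκ d hd] at h2
    push_cast at h2
    rw [abs_mul] at h2
    have h3 : (1 : ℝ) ≤ |(d : ℝ)| := by
      rw [Nat.abs_cast]; exact_mod_cast (hD'1 d hd).1
    nlinarith [abs_nonneg (κ : ℝ)]
  set I := Icc (b + 1) (b + N) with hIdef
  have hnle : ∀ n ∈ I, (n : ℝ) ≤ 2 * ζ ^ (25000 : ℤ) := by
    intro n hn
    have h2 : n ≤ b + N := (mem_Icc.1 hn).2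
    have h3 : (n : ℝ) ≤ b + N := by exact_mod_cast h2
    have h4 : (N : ℝ) ≤ ζ ^ (25000 : ℤ) := by rw [hNζ]; exact w_le h1 (by norm_num)
    linarith
  have hI : ∀ n ∈ I, n ^ 2 < A := by
    intro n hn
    have h2 := hnle n hn
    have h3 : (n : ℝ) ^ 2 < A := by
      calc (n : ℝ) ^ 2 ≤ (2 * ζ ^ (25000 : ℤ)) ^ 2 := by gcongr
        _ = 4 * ζ ^ (50000 : ℤ) := by rw [mul_pow, w_pow]; norm_num
        _ ≤ ζ ^ (50001 : ℤ) := cw_le h1 (by linarith) (by norm_num)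
        _ < ζ ^ (1200000 : ℤ) := zpow_lt_zpow_right₀ (by linarith) (by norm_num)
        _ ≤ A := hAζ
    exact_mod_cast h3
  have hhpos : (0 : ℝ) < h := by exact_mod_cast hh1
  have hh1' : (1 : ℝ) ≤ h := by exact_mod_cast hh1
  have hbig : ∀ n ∈ I, ∀ m < N, 2 * |(h * (n ^ 2 + m ^ 2) - κ * m : ℤ)| < h * A := by
    intro n hn m hm
    have hnn := hnle n hn
    have hmm : (m : ℝ) ≤ ζ ^ (20000 : ℤ) := by
      rw [← hNζ]; exact_mod_cast hm.le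
    have hreal : 2 * |(h : ℝ) * ((n : ℝ) ^ 2 + (m : ℝ) ^ 2) - κ * m| < h * A := by
      have h2 : |(h : ℝ) * ((n : ℝ) ^ 2 + (m : ℝ) ^ 2) - κ * m| ≤
          h * ((n : ℝ) ^ 2 + (m : ℝ) ^ 2) + |(κ : ℝ)| * m := by
        refine (abs_sub _ _).trans ?_
        rw [abs_mul, abs_mul, abs_of_nonneg hhpos.le, abs_of_nonneg (by positivity : (0 : ℝ) ≤
          (n : ℝ) ^ 2 + (m : ℝ) ^ 2), abs_of_nonneg (by positivity : (0 : ℝ) ≤ (m : ℝ))]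
      have h3 : (n : ℝ) ^ 2 ≤ 4 * ζ ^ (50000 : ℤ) := by
        calc (n : ℝ) ^ 2 ≤ (2 * ζ ^ (25000 : ℤ)) ^ 2 := by gcongr
          _ = 4 * ζ ^ (50000 : ℤ) := by rw [mul_pow, w_pow]; norm_num
      have h4 : (m : ℝ) ^ 2 ≤ ζ ^ (40000 : ℤ) := by
        calc (m : ℝ) ^ 2 ≤ (ζ ^ (20000 : ℤ)) ^ 2 := by gcongr
          _ = _ := by rw [w_pow]; norm_num
      have h5 : |(κ : ℝ)| * m ≤ ζ ^ (76031 : ℤ) := by
        calc |(κ : ℝ)| * m ≤ ζ ^ (56031 : ℤ) * ζ ^ (20000 : ℤ) := by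
              have := w_pos h1 56031; gcongr
          _ = _ := by rw [w_mul h1]; norm_num
      have h6 : ζ ^ (40000 : ℤ) ≤ ζ ^ (76031 : ℤ) := w_le h1 (by norm_num)
      have h7 : ζ ^ (50000 : ℤ) ≤ ζ ^ (76031 : ℤ) := w_le h1 (by norm_num)
      have h8 : 12 * ζ ^ (76031 : ℤ) < A := by
        calc 12 * ζ ^ (76031 : ℤ) ≤ ζ ^ (76032 : ℤ) := cw_le h1 (by linarith) (by norm_num)
          _ < ζ ^ (1200000 : ℤ) := zpow_lt_zpow_right₀ (by linarith) (by norm_num)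
          _ ≤ A := hAζ
      have h9 : h * ((n : ℝ) ^ 2 + (m : ℝ) ^ 2) + |(κ : ℝ)| * m ≤ h * (6 * ζ ^ (76031 : ℤ)) := by
        have h10 : (n : ℝ) ^ 2 + (m : ℝ) ^ 2 ≤ 5 * ζ ^ (76031 : ℤ) := by linarith
        have h11 : (h : ℝ) * ((n : ℝ) ^ 2 + (m : ℝ) ^ 2) ≤ h * (5 * ζ ^ (76031 : ℤ)) := by gcongr
        have h12 : ζ ^ (76031 : ℤ) ≤ h * ζ ^ (76031 : ℤ) := by
          have := w_pos h1 76031; nlinarith
        linarith
      have h13 : (h : ℝ) * (12 * ζ ^ (76031 : ℤ)) < h * A := by gcongr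
      linarith
    exact_mod_cast hreal
  have hrm : ∀ k : ℤ, (((I ×ˢ range N).filter fun p : ℕ × ℕ =>
      (h * (p.1 ^ 2 + p.2 ^ 2) - κ * p.2 : ℤ) = k).card : ℝ) ≤ ζ ^ (2 : ℤ) := by
    intro k
    set S := (I ×ˢ range N).filter fun p : ℕ × ℕ =>
      (h * (p.1 ^ 2 + p.2 ^ 2) - κ * p.2 : ℤ) = k with hS
    rcases S.eq_empty_or_nonempty with hSe | ⟨p0, hp0⟩
    · rw [hSe]; simp only [card_empty, Nat.cast_zero]; exact (w_pos h1 _).le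
    set f : ℕ × ℕ → ℤ × ℤ := fun p => (2 * h * p.1, 2 * h * p.2 - κ) with hf
    have hinj : Set.InjOn f S := by
      intro p _ q _ hpq
      simp only [hf, Prod.mk.injEq] at hpq
      have hh0 : (2 * h : ℤ) ≠ 0 := by positivity
      have h2 : (p.1 : ℤ) = q.1 := mul_left_cancel₀ hh0 hpq.1
      have h3 : (p.2 : ℤ) = q.2 := by
        have : 2 * (h : ℤ) * p.2 = 2 * h * q.2 := by linarith [hpq.2]
        exact mul_left_cancel₀ hh0 this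
      exact Prod.ext (by exact_mod_cast h2) (by exact_mod_cast h3)
    have hval : ∀ p ∈ S, (f p).1 ^ 2 + (f p).2 ^ 2 = 4 * h * k + κ ^ 2 := by
      intro p hp
      have h2 := (mem_filter.1 hp).2
      simp only [hf]
      rw [← h2]; ring
    have hR1 : 1 ≤ 4 * h * k + κ ^ 2 := by
      rw [← hval p0 hp0]
      have h2 : 1 ≤ p0.1 := by
        have := (mem_product.1 (mem_filter.1 hp0).1).1
        rw [hIdef, mem_Icc] at this; omega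
      have h3 : 1 ≤ (f p0).1 := by
        simp only [hf]
        have : (1 : ℤ) ≤ (h : ℤ) * p0.1 := by exact_mod_cast Nat.mul_le_mul hh1 h2
        linarith
      nlinarith [sq_nonneg (f p0).2]
    have hR2 : ((4 * h * k + κ ^ 2 : ℤ) : ℝ) ≤ ζ ^ (120000 : ℤ) := by
      rw [← hval p0 hp0]
      have hmem := mem_product.1 (mem_filter.1 hp0).1
      have h2 := hnle p0.1 hmem.1
      have h3 : (p0.2 : ℝ) ≤ ζ ^ (20000 : ℤ) := by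
        rw [← hNζ]; exact_mod_cast (mem_range.1 hmem.2).le
      simp only [hf]
      push_cast
      have h4 : (2 * (h : ℝ) * p0.1) ≤ 4 * ζ ^ (25062 : ℤ) := by
        calc (2 * (h : ℝ) * p0.1) ≤ 2 * ζ ^ (62 : ℤ) * (2 * ζ ^ (25000 : ℤ)) := by
              have := w_pos h1 62; gcongr
          _ = 4 * (ζ ^ (62 : ℤ) * ζ ^ (25000 : ℤ)) := by ring
          _ = _ := by rw [w_mul h1]; norm_num
      have h5 : |2 * (h : ℝ) * p0.2 - κ| ≤ 3 * ζ ^ (56031 : ℤ) := by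
        have h6 : (2 * (h : ℝ) * p0.2) ≤ 2 * ζ ^ (56031 : ℤ) := by
          calc (2 * (h : ℝ) * p0.2) ≤ 2 * ζ ^ (62 : ℤ) * ζ ^ (20000 : ℤ) := by
                have := w_pos h1 62; gcongr
            _ = 2 * (ζ ^ (62 : ℤ) * ζ ^ (20000 : ℤ)) := by ring
            _ ≤ _ := by
              rw [w_mul h1]
              have := w_le h1 (show (62 : ℤ) + 20000 ≤ 56031 by norm_num)
              linarith
        have h7 : 0 ≤ 2 * (h : ℝ) * p0.2 := by positivity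
        calc |2 * (h : ℝ) * p0.2 - κ| ≤ |2 * (h : ℝ) * p0.2| + |(κ : ℝ)| := abs_sub _ _
          _ ≤ 3 * ζ ^ (56031 : ℤ) := by rw [abs_of_nonneg h7]; linarith
      have h8 : (2 * (h : ℝ) * p0.2 - κ) ^ 2 ≤ (3 * ζ ^ (56031 : ℤ)) ^ 2 := by
        rw [← sq_abs]; gcongr
      have h9 : (2 * (h : ℝ) * p0.1) ^ 2 ≤ (4 * ζ ^ (25062 : ℤ)) ^ 2 := by gcongr
      have h10 : (3 * ζ ^ (56031 : ℤ)) ^ 2 = 9 * ζ ^ (112062 : ℤ) := by
        rw [mul_pow, w_pow]; norm_num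
      have h11 : (4 * ζ ^ (25062 : ℤ)) ^ 2 = 16 * ζ ^ (50124 : ℤ) := by
        rw [mul_pow, w_pow]; norm_num
      have h12 : 25 * ζ ^ (112062 : ℤ) ≤ ζ ^ (120000 : ℤ) :=
        cw_le h1 (by linarith) (by norm_num)
      have h13 : ζ ^ (50124 : ℤ) ≤ ζ ^ (112062 : ℤ) := w_le h1 (by norm_num)
      rw [h10] at h8
      rw [h11] at h9
      generalize (2 * (h : ℝ) * p0.1) ^ 2 = u1 at h9 ⊢
      generalize (2 * (h : ℝ) * p0.2 - κ) ^ 2 = u2 at h8 ⊢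
      generalize ζ ^ (112062 : ℤ) = u3 at *
      generalize ζ ^ (50124 : ℤ) = u4 at *
      linarith
    have h2 := hr2 (4 * h * k + κ ^ 2) hR1 hR2 (S.image f) (by
      intro q hq
      obtain ⟨p, hp, rfl⟩ := mem_image.1 hq
      exact hval p hp)
    rw [card_image_of_injOn hinj] at h2
    exact h2
  set J : ℕ := ⌈ζ ^ (1900 : ℤ)⌉₊ with hJ
  have hJ1 : ζ ^ (1900 : ℤ) ≤ J := Nat.le_ceil _
  have hJ2 : (J : ℝ) ≤ 2 * ζ ^ (1900 : ℤ) := by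
    have h2 : (J : ℝ) < ζ ^ (1900 : ℤ) + 1 := Nat.ceil_lt_add_one (w_pos h1 _).le
    have h3 : (1 : ℝ) ≤ ζ ^ (1900 : ℤ) := one_le_zpow₀ h1 (by norm_num)
    linarith
  have hJpos : (0 : ℝ) < J := (w_pos h1 _).trans_le hJ1
  have hG := stepG A N hN1 I hI a ha x T2 lam hlam.le (fun z hz => hT z (hT2T hz)) h hh1 κ y0
    (ζ ^ (-19490 : ℤ)) (w_pos h1 _).le hρ (ζ ^ (2 : ℤ)) hbig hrm J (by exact_mod_cast hJpos)
  have hL : ζ ^ (19122 : ℤ) ≤ lam ^ 2 * mu A T2 := by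
    calc ζ ^ (19122 : ℤ) = ζ ^ (19999 : ℤ) * ζ ^ (-877 : ℤ) := by rw [w_mul h1]; norm_num
      _ ≤ lam ^ 2 * mu A T2 := by
        have := w_pos h1 (-877)
        have := w_pos h1 19999
        gcongr
  have hR1 : 2 * (h : ℝ) ^ 2 * J * ζ ^ (2 : ℤ) ≤ 4 * ζ ^ (2026 : ℤ) := by
    calc 2 * (h : ℝ) ^ 2 * J * ζ ^ (2 : ℤ) ≤
          2 * (ζ ^ (62 : ℤ)) ^ 2 * (2 * ζ ^ (1900 : ℤ)) * ζ ^ (2 : ℤ) := by
          have := w_pos h1 2; gcongr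
      _ = 4 * ((ζ ^ (62 : ℤ)) ^ 2 * ζ ^ (1900 : ℤ) * ζ ^ (2 : ℤ)) := by ring
      _ = 4 * ζ ^ (2026 : ℤ) := by rw [w_pow, w_mul h1, w_mul h1]; norm_num
  have hR2 : 400 * (N : ℝ) ^ 3 * (ζ ^ (-19490 : ℤ)) ^ 2 / (h * J) ≤ 400 * ζ ^ (19120 : ℤ) := by
    rw [div_le_iff₀ (by positivity), hNζ]
    calc 400 * (ζ ^ (20000 : ℤ)) ^ 3 * (ζ ^ (-19490 : ℤ)) ^ 2 =
          400 * ((ζ ^ (20000 : ℤ)) ^ 3 * (ζ ^ (-19490 : ℤ)) ^ 2) := by ring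
      _ = 400 * (ζ ^ (19120 : ℤ) * ζ ^ (1900 : ℤ)) := by
          rw [w_pow, w_pow, w_mul h1, w_mul h1]; norm_num
      _ = 400 * ζ ^ (19120 : ℤ) * (1 * ζ ^ (1900 : ℤ)) := by ring
      _ ≤ 400 * ζ ^ (19120 : ℤ) * (h * J) := by
          have := w_pos h1 19120
          have := w_pos h1 1900
          gcongr
  have hfin : 4 * ζ ^ (2026 : ℤ) + 400 * ζ ^ (19120 : ℤ) < ζ ^ (19122 : ℤ) := by
    have h2 : ζ ^ (2026 : ℤ) ≤ ζ ^ (19120 : ℤ) := w_le h1 (by norm_num)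
    have h3 : 405 * ζ ^ (19120 : ℤ) ≤ ζ ^ (19121 : ℤ) := cw_le h1 (by linarith) (by norm_num)
    have h4 : ζ ^ (19121 : ℤ) < ζ ^ (19122 : ℤ) := zpow_lt_zpow_right₀ (by linarith) (by norm_num)
    have h5 := w_pos h1 19120
    linarith
  linarith

end Stz
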