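import Mathlib

/-!
# MP_65a63f_an: finite model, definitions

Time and space variables live in `ZMod A` with `A` highly divisible, frequencies are
`(n ^ 2 + m ^ 2, m)` with `n ∈ I`, `0 ≤ m < N`.
-/

set_option autoImplicit false

namespace Stz

open Finset

/-- `A` is divisible by every `k ≤ M`. -/
def Good (M A : ℕ) : Prop := ∀ k : ℕ, 1 ≤ k → k ≤ M → k ∣ A

/-- the standard additive character `x ↦ exp (2 π i x / A)` of `ZMod A` -/
noncomputable def ps (A : ℕ) [NeZero A] (x : ZMod A) : ℂ := ZMod.stdAddChar x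

/-- distance to `0` on the circle of length one -/
noncomputable def nrm (A : ℕ) (x : ZMod A) : ℝ := |(x.valMinAbs : ℝ)| / A

/-- Fourier coefficient of a function on `ZMod A` -/
noncomputable def ft (A : ℕ) [NeZero A] (f : ZMod A → ℂ) (k : ZMod A) : ℂ :=
  (A : ℂ)⁻¹ * ∑ z, f z * ps A (k * z)

/-- normalised counting measure -/
noncomputable def mu (A : ℕ) (s : Finset (ZMod A)) : ℝ := (s.card : ℝ) / A

/-- the exponential sum -/
noncomputable def F (A : ℕ) [NeZero A] (I : Finset ℕ) (N : ℕ) (a : ℕ → ℕ → ℂ)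
    (z y : ZMod A) : ℂ :=
  ∑ n ∈ I, ∑ m ∈ range N, a n m * ps A (((n ^ 2 + m ^ 2 : ℕ) : ZMod A) * z + (m : ZMod A) * y)

/-- squared `ℓ²` norm of the coefficients -/
noncomputable def nsq (I : Finset ℕ) (N : ℕ) (a : ℕ → ℕ → ℂ) : ℝ :=
  ∑ n ∈ I, ∑ m ∈ range N, ‖a n m‖ ^ 2

/-- level set -/
noncomputable def lev (A : ℕ) [NeZero A] (I : Finset ℕ) (N : ℕ) (a : ℕ → ℕ → ℂ) (lam : ℝ) :
    Finset (ZMod A × ZMod A) :=
  univ.filter fun w => lam ≤ ‖F A I N a w.1 w.2‖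

/-- the shift `a / q + a' / q'` -/
def sh (A q q' a a' : ℕ) : ZMod A := ((a * (A / q) + a' * (A / q') : ℕ) : ZMod A)

/-- Fejer type weight: `w 0 = 2`, `w ≥ 1` for `|m| ≤ N`, support `|m| < 2 N` -/
noncomputable def wt (N : ℕ) (m : ℤ) : ℝ := max 0 (2 - |(m : ℝ)| / N)

/-- `Θ_d(u) = d ∑_j w(d j) cos (2 π d j u / A)` -/
noncomputable def Th (A : ℕ) [NeZero A] (N d : ℕ) (u : ZMod A) : ℝ :=
  (d : ℝ) * ∑ j ∈ Icc (-(2 * N : ℤ)) (2 * N), wt N (d * j) * (ps A (((d * j : ℤ) : ZMod A) * u)).re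

/-- `x`-Fourier coefficient of a function of `(z, y)` -/
noncomputable def fm (A : ℕ) [NeZero A] (f : ZMod A → ZMod A → ℂ) (m : ℤ) (z : ZMod A) : ℂ :=
  (A : ℂ)⁻¹ * ∑ y, f z y * ps A ((m : ZMod A) * y)

/-- energy of a function of `(z, y)` -/
noncomputable def En (A : ℕ) [NeZero A] (I : Finset ℕ) (N : ℕ) (f : ZMod A → ZMod A → ℂ) : ℝ :=
  ∑ n ∈ I, ∑ m ∈ range N, ‖ft A (fm A f m) ((n ^ 2 + m ^ 2 : ℕ) : ZMod A)‖ ^ 2

/-- energy of a function carried by a graph `y = x z` -/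
noncomputable def Eg (A : ℕ) [NeZero A] (I : Finset ℕ) (N : ℕ) (x : ZMod A → ZMod A)
    (h : ZMod A → ℂ) : ℝ :=
  ∑ n ∈ I, ∑ m ∈ range N,
    ‖(A : ℂ)⁻¹ * ∑ z, h z * ps A (((n ^ 2 + m ^ 2 : ℕ) : ZMod A) * z + (m : ZMod A) * x z)‖ ^ 2

/-- average over ordered pairs of distinct elements `q, q'` of `Q` and over the shifts
`a / q + a' / q'`; `Φ` gets the product `q q'` and the shift. -/
noncomputable def av (A : ℕ) (Q : Finset ℕ) (Φ : ℕ → ZMod A → ℝ) : ℝ :=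
  (Q.offDiag.card : ℝ)⁻¹ * ∑ p ∈ Q.offDiag, ((p.1 : ℝ) * p.2)⁻¹ *
    ∑ a ∈ range p.1, ∑ a' ∈ range p.2, Φ (p.1 * p.2) (sh A p.1 p.2 a a')

/-- degree of `z` in `R` -/
noncomputable def dg (A : ℕ) (Q : Finset ℕ) (x : ZMod A → ZMod A) (R : Finset (ZMod A)) (γ : ℝ)
    (z : ZMod A) : ℝ :=
  av A Q fun d s => by
    classical exact if z + s ∈ R ∧ nrm A (d * (x (z + s) - x z)) ≤ γ then 1 else 0

/-- total variation -/
noncomputable def tv (A : ℕ) [NeZero A] (f : ZMod A → ℂ) : ℝ := ∑ z, ‖f (z + 1) - f z‖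

/-- `1_T e(k x)` -/
noncomputable def fT (A : ℕ) [NeZero A] (x : ZMod A → ZMod A) (T : Finset (ZMod A)) (k : ℤ)
    (z : ZMod A) : ℂ := if z ∈ T then ps A ((k : ZMod A) * x z) else 0

/-- the counted event: four corners, the last one moved by `s3` -/
noncomputable def ev (A : ℕ) (x : ZMod A → ZMod A) (R : Finset (ZMod A)) (γ : ℝ) (d3 : ℕ)
    (s1 s2 s3 z : ZMod A) : ℝ := by
  classical
  exact
    if z ∈ R ∧ z + s1 ∈ R ∧ z + s2 ∈ R ∧ z + s1 + s2 + s3 ∈ R ∧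
      nrm A (d3 * (x z - x (z + s1) - x (z + s2) + x (z + s1 + s2 + s3))) ≤ γ then 1 else 0

/-- `e(θ)` -/
noncomputable def ex (θ : ℝ) : ℂ := Complex.exp (2 * Real.pi * Complex.I * θ)

/-- `∑_{u v' = v} gcd(u, v')`, an upper bound for the number of square roots modulo `v` -/
def sg (v : ℕ) : ℕ := ∑ u ∈ v.divisors, Nat.gcd u (v / u)

/-- `w'` is close to `w + (a, b) / v`, `(a, v) = 1` -/
def Near (A : ℕ) (δ1 δ2 : ℝ) (v : ℕ) (w w' : ZMod A × ZMod A) : Prop :=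
  ∃ a b : ℕ, a < v ∧ b < v ∧ Nat.Coprime a v ∧
    nrm A (w'.1 - w.1 - ((a * (A / v) : ℕ) : ZMod A)) ≤ δ1 ∧
    nrm A (w'.2 - w.2 - ((b * (A / v) : ℕ) : ZMod A)) ≤ δ2

end Stz
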